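import Pool.Agent.Lib.D2P.R0

/-! # D2P, H0, HL: change of the base by a finite extension -/

set_option autoImplicit false

open Polynomial

namespace Pool.Agent.D2P

open Pool.Agent.H15JM (RVal)
open Pool.Agent.LU1 (VPos adj)
open Pool.Agent.LUC (Cl clF)
open Pool.Agent.D2 (Ctx0)

universe u

variable {k Ω : Type u} [Field k] [Field Ω] [Algebra k Ω] {v : RVal Ω}

namespace H0aux

theorem sep_of_perf (p : ℕ) (hp : p.Prime) [CharP k p] (T : IntermediateField k Ω)
    (hperf : ∀ a ∈ T, ∃ b ∈ T, b ^ p = a) {θ : Ω} (hθ : IsAlgebraic T θ) : IsSeparable T θ := by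
  have hfact : Fact p.Prime := ⟨hp⟩
  have hcT : CharP T p := charP_field p T
  have hpr : PerfectRing T p := by
    refine PerfectRing.ofSurjective T p fun a => ?_
    obtain ⟨b, hb, hba⟩ := hperf a a.2
    exact ⟨⟨b, hb⟩, Subtype.ext hba⟩
  have hpf : PerfectField T := PerfectRing.toPerfectField T p
  exact PerfectField.separable_of_irreducible (minpoly.irreducible hθ.isIntegral)

theorem alg_trans {T T' : IntermediateField k Ω} (hTT' : T ≤ T')
    (halg : ∀ a ∈ T', IsAlgebraic T a) {x : Ω} (hx : IsAlgebraic T' x) : IsAlgebraic T x := by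
  let _ : Algebra T T' := (IntermediateField.inclusion hTT').toRingHom.toAlgebra
  have _ : IsScalarTower T T' Ω := IsScalarTower.of_algebraMap_eq fun _ => rfl
  have : Algebra.IsAlgebraic T T' := ⟨fun e => by
    have h1 := halg e e.2
    exact (isAlgebraic_algebraMap_iff (Subtype.val_injective : Function.Injective
      (algebraMap T' Ω))).1 h1⟩
  exact hx.restrictScalars T

/-- A primitive element. -/
theorem exists_prim {T : IntermediateField k Ω} (S : Finset Ω) (hS : ∀ s ∈ S, IsSeparable T s) :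
    ∃ θ : Ω, IsSeparable T θ ∧ adj T θ = T ⊔ IntermediateField.adjoin k (S : Set Ω) := by
  let L : IntermediateField T Ω := IntermediateField.adjoin T (S : Set Ω)
  have hfin : FiniteDimensional T L :=
    IntermediateField.finiteDimensional_adjoin (fun g hg => (hS g hg).isIntegral)
  have hs : Algebra.IsSeparable T L := by
    rw [IntermediateField.isSeparable_adjoin_iff_isSeparable]
    exact fun g hg => hS g hg
  obtain ⟨α, hα⟩ := Field.exists_primitive_element T L
  have h1 : IntermediateField.adjoin T {(α : Ω)} = L := by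
    have h2 := congrArg IntermediateField.lift hα
    rwa [IntermediateField.lift_adjoin_simple, IntermediateField.lift_top] at h2
  have h3 : IsSeparable T (α : Ω) := by
    have h4 : IsSeparable T α := Algebra.IsSeparable.isSeparable T α
    rw [IsSeparable] at h4 ⊢
    have h5 : minpoly T (α : Ω) = minpoly T α := minpoly.algebraMap_eq (A := T)
      (B := L) (B' := Ω) Subtype.val_injective α
    rw [h5]
    exact h4
  refine ⟨α, h3, ?_⟩
  have h4 := congrArg (IntermediateField.restrictScalars k) h1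
  rw [IntermediateField.restrictScalars_adjoin_eq_sup,
    IntermediateField.restrictScalars_adjoin_eq_sup] at h4
  exact h4

end H0aux

/-- H0: `c` with `v (c z) > v (θ - θ')` for the other conjugates `θ'`; Krasner over
`hen (adj T (θ + c z))`. -/
theorem h0 [IsAlgClosed Ω] (p : ℕ) (hp : p.Prime) [CharP k p] (h : Ctx0 k v)
    (T : IntermediateField k Ω) (hperf : ∀ a ∈ T, ∃ b ∈ T, b ^ p = a)
    (hbig : ∀ c : ℝ, ∃ a ∈ T, a ≠ 0 ∧ c < v a) {θ z : Ω} (hθ : IsAlgebraic T θ)
    (hz : Transcendental T z) :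
    ∃ c ∈ T, c ≠ 0 ∧ hen v (adj T (θ + c * z)) = hen v (adj (adj T θ) z) := by
  classical
  have hsep : IsSeparable T θ := H0aux.sep_of_perf p hp T hperf hθ
  have hz0 : z ≠ 0 := by
    rintro rfl
    exact hz (isAlgebraic_zero)
  -- the bound
  obtain ⟨C, hC⟩ : ∃ C : ℝ, ∀ a' : Ω, aeval a' (minpoly T θ) = 0 → v (θ - a') ≤ C := by
    obtain ⟨C, hC⟩ := Finset.exists_le (((minpoly T θ).aroots Ω).toFinset.image
      fun a' => v (θ - a'))
    refine ⟨C, fun a' ha' => hC _ (Finset.mem_image_of_mem _ ?_)⟩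
    rw [Multiset.mem_toFinset, mem_aroots]
    exact ⟨minpoly.ne_zero hθ.isIntegral, ha'⟩
  obtain ⟨c, hc, hc0, hcv⟩ := hbig (C - v z)
  refine ⟨c, hc, hc0, ?_⟩
  set w : Ω := θ + c * z with hw
  set E : IntermediateField k Ω := hen v (adj T w) with hE
  have hEE : hen v E = E := hen_hen _
  have hTE : T ≤ E := (mem_adj_self T w).2.trans (le_hen _)
  have hwE : w ∈ E := le_hen _ (mem_adj_self T w).1
  have hθE : θ ∈ E := by
    have h1 : θ ∈ hen v (adj E w) := by
      refine krasner h hEE (isSeparable_mono hTE hsep) ?_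
      intro a' ha' _ _
      have h2 := hC a' (aeval_minpoly_mono hTE ha')
      have h3 : θ - w = -(c * z) := by
        rw [hw]
        ring
      rw [h3, v.map_neg _ (mul_ne_zero hc0 hz0), v.map_mul hc0 hz0]
      linarith
    have h2 : adj E w = E := le_antisymm (adj_le le_rfl hwE) (mem_adj_self E w).2
    rwa [h2, hEE] at h1
  have hzE : z ∈ E := by
    have h1 : z = (w - θ) * c⁻¹ := by
      rw [hw]
      field_simp
      ring
    rw [h1]
    exact mul_mem (sub_mem hwE hθE) (inv_mem (hTE hc))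
  apply le_antisymm
  · refine hen_mono (adj_le ((mem_adj_self T θ).2.trans (mem_adj_self _ z).2) ?_)
    rw [hw]
    exact add_mem ((mem_adj_self _ z).2 (mem_adj_self T θ).1)
      (mul_mem (((mem_adj_self T θ).2.trans (mem_adj_self _ z).2) hc) (mem_adj_self _ z).1)
  · exact hen_le hEE (adj_le (adj_le hTE hθE) hzE)

/-- HL: henselian rationality over an algebraic extension of the base (`hen_fin'`, primitive
element, H0). -/
theorem hr1_descend [IsAlgClosed Ω] (p : ℕ) (hp : p.Prime) [CharP k p] (h : Ctx0 k v)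
    (T T' M : IntermediateField k Ω) (hperf : ∀ a ∈ T, ∃ b ∈ T, b ^ p = a)
    (hbig : ∀ c : ℝ, ∃ a ∈ T, a ≠ 0 ∧ c < v a) (hTT' : T ≤ T') (halg : ∀ a ∈ T', IsAlgebraic T a)
    (hM' : HR1 v T' M) (S : Finset Ω)
    (hM : M = hen v (T ⊔ IntermediateField.adjoin k (S : Set Ω))) : HR1 v T M := by
  obtain ⟨z, hz, hMz⟩ := hM'
  have hMM : hen v M = M := by rw [hM, hen_hen]
  have hzT : Transcendental T z := fun h1 => hz (isAlgebraic_mono hTT' h1)
  have hT'M : T' ≤ M := by
    rw [hMz]
    exact (mem_adj_self T' z).2.trans (le_hen _)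
  have hzM : z ∈ M := by
    rw [hMz]
    exact le_hen _ (mem_adj_self T' z).1
  have hSM : ∀ s ∈ S, s ∈ M := by
    intro s hs
    rw [hM]
    exact le_hen _ ((le_sup_right : IntermediateField.adjoin k _ ≤ _)
      (IntermediateField.subset_adjoin _ _ hs))
  have hsup : adj T' z ≤ adj T z ⊔ T' :=
    adj_le le_sup_right ((le_sup_left : adj T z ≤ _) (mem_adj_self T z).1)
  obtain ⟨S₁, hS₁, hS₂⟩ := hen_fin' h (adj T z) T' S (fun a ha => by
    have := hSM a ha
    rw [hMz] at this
    exact hen_mono hsup this)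
  obtain ⟨θ, hθ, hadj⟩ := H0aux.exists_prim (T := T) S₁
    (fun s hs => H0aux.sep_of_perf p hp T hperf (halg s (hS₁ s hs)))
  have hθM : θ ∈ M := by
    have h1 : θ ∈ T ⊔ IntermediateField.adjoin k (S₁ : Set Ω) := by
      rw [← hadj]
      exact (mem_adj_self T θ).1
    have h2 : T ⊔ IntermediateField.adjoin k (S₁ : Set Ω) ≤ M := by
      refine sup_le (hTT'.trans hT'M) ?_
      rw [IntermediateField.adjoin_le_iff]
      exact fun s hs => hT'M (hS₁ s hs)
    exact h2 h1
  obtain ⟨c, hc, hc0, hgen⟩ := h0 p hp h T hperf hbig hθ.isIntegral.isAlgebraic hzT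
  refine ⟨θ + c * z, ?_, ?_⟩
  · intro h1
    apply hzT
    have h2 : z = (θ + c * z - θ) * c⁻¹ := by
      field_simp
      ring
    rw [h2]
    exact (h1.sub hθ.isIntegral.isAlgebraic).mul
      (isAlgebraic_algebraMap (R := T) (⟨c⁻¹, inv_mem hc⟩ : T))
  · rw [hgen]
    apply le_antisymm
    · conv_lhs => rw [hM]
      refine hen_le (hen_hen _) (sup_le ?_ ?_)
      · exact ((mem_adj_self T θ).2.trans (mem_adj_self _ z).2).trans (le_hen _)
      · rw [IntermediateField.adjoin_le_iff]
        intro s hs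
        refine hen_mono ?_ (hS₂ s hs)
        refine sup_le (adj_le ((mem_adj_self T θ).2.trans (mem_adj_self _ z).2)
          (mem_adj_self _ z).1) ?_
        rw [hadj]
        exact le_sup_right.trans (mem_adj_self _ z).2
    · refine hen_le hMM (adj_le (adj_le (hTT'.trans hT'M) hθM) hzM)

end Pool.Agent.D2P
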