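import Pool.Agent.Lib.D2P.ADefs
import Pool.Agent.Lib.D2P_h17.H2

/-!
# D2P, Part A, row H2: elements of a henselian field over a relatively algebraically closed
perfect base are of transcendental type
-/

set_option autoImplicit false

open Polynomial

namespace Pool.Agent.D2P

open Pool.Agent.H15JM (RVal)
open Pool.Agent.LU1 (VPos adj)
open Pool.Agent.LUC (Cl clF LUs)
open Pool.Agent.D2 (Ctx0 Star Near al no_near nr_pos_iff natU_of_triv)

universe u

section H2

variable {k Ω : Type u} [Field k] [Field Ω] [Algebra k Ω] {v : RVal Ω}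

theorem sep_mono {T M : IntermediateField k Ω} (hTM : T ≤ M) {a : Ω} (ha : IsSeparable T a) :
    IsSeparable M a := by
  let _i : Algebra T M := (IntermediateField.inclusion hTM).toAlgebra
  have : IsScalarTower T M Ω := IsScalarTower.of_algebraMap_eq fun _ => rfl
  exact ha.tower_top M

theorem alg_mono {T M : IntermediateField k Ω} (hTM : T ≤ M) {a : Ω} (ha : IsAlgebraic T a) :
    IsAlgebraic M a := by
  let _i : Algebra T M := (IntermediateField.inclusion hTM).toAlgebra
  have : IsScalarTower T M Ω := IsScalarTower.of_algebraMap_eq fun _ => rfl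
  exact ha.tower_top M

theorem PB.sep {p : ℕ} (hp : p.Prime) [CharP k p] {T : IntermediateField k Ω}
    (hperf : ∀ a ∈ T, ∃ b ∈ T, b ^ p = a) {a : Ω} (ha : IsAlgebraic T a) : IsSeparable T a := by
  have : Fact p.Prime := ⟨hp⟩
  have : CharP T p := charP_field p T
  have : PerfectRing T p := PerfectRing.ofSurjective T p fun a => by
    obtain ⟨b, hb, hba⟩ := hperf a a.2
    exact ⟨⟨b, hb⟩, Subtype.ext hba⟩
  have : PerfectField T := PerfectRing.toPerfectField T p
  exact PerfectField.separable_of_irreducible (minpoly.irreducible ha.isIntegral)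

/-- An algebraic element over `T` in the closure of a henselian field is in the field. -/
theorem mem_of_cl_alg {p : ℕ} (hp : p.Prime) [CharP k p] {T M : IntermediateField k Ω}
    (hperf : ∀ a ∈ T, ∃ b ∈ T, b ^ p = a) (hTM : T ≤ M) (hM : hen v M = M) {a : Ω}
    (ha : IsAlgebraic T a) (hcl : a ∈ Cl v M.toSubfield) : a ∈ M := by
  rw [← hM, mem_hen]
  exact ⟨hcl, sep_mono hTM (PB.sep hp hperf ha)⟩

/-- Algebraic extensions of a `PB` field in `Ω`: finite extensions and relative algebraic closures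
in henselian fields are `PB`. -/
theorem pb_relAlg [IsAlgClosed Ω] (p : ℕ) (hp : p.Prime) [CharP k p] (_h : Ctx0 k v)
    (T T' M : IntermediateField k Ω) (hT : PB p v T) (hTM : T ≤ M) (hM : hen v M = M)
    (hT' : ∀ a : Ω, a ∈ T' ↔ a ∈ M ∧ IsAlgebraic T a) : PB p v T' := by
  have : Fact p.Prime := ⟨hp⟩
  have hTT' : T ≤ T' := fun a ha => (hT' a).mpr ⟨hTM ha, isAlgebraic_algebraMap (⟨a, ha⟩ : T)⟩
  refine ⟨fun a ha => ?_, ?_, fun g hg => ?_⟩
  · obtain ⟨haM, haT⟩ := (hT' a).mp ha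
    obtain ⟨b, hb⟩ := IsAlgClosed.exists_pow_nat_eq a hp.pos
    refine ⟨b, ?_, hb⟩
    have hbT : IsAlgebraic T b := by
      rw [← hb] at haT
      exact haT.of_pow hp.pos
    refine (hT' b).mpr ⟨?_, hbT⟩
    -- `b` is separable over `T`, so `b ∈ T(b ^ p)`
    have hbs : IsSeparable T b := PB.sep hp hT.perf hbT
    have : CharP T p := charP_field p T
    have h1 : IntermediateField.adjoin T {b} = IntermediateField.adjoin T {b ^ p} :=
      IntermediateField.adjoin_simple_eq_adjoin_pow_expChar_of_isSeparable T Ω hbs p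
    have h2 : b ∈ IntermediateField.adjoin T {b ^ p} := by
      rw [← h1]
      exact IntermediateField.mem_adjoin_simple_self T b
    rw [hb] at h2
    have h3 : (IntermediateField.adjoin T {a}).restrictScalars k ≤ M := by
      intro x hx
      have hx' : x ∈ IntermediateField.adjoin T {a} := hx
      have h4 : IntermediateField.adjoin T {a} ≤ IntermediateField.extendScalars hTM := by
        rw [IntermediateField.adjoin_le_iff]
        rintro _ rfl
        exact haM
      exact h4 hx'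
    exact h3 h2
  · refine le_antisymm (fun a ha => ?_) (fun a ha => ?_)
    · obtain ⟨h1, h2⟩ := mem_hen.mp ha
      have h3 : IsAlgebraic T a := by
        let _i : Algebra T T' := (IntermediateField.inclusion hTT').toAlgebra
        have : IsScalarTower T T' Ω := IsScalarTower.of_algebraMap_eq fun _ => rfl
        have : Algebra.IsAlgebraic T T' := ⟨fun x => by
          have h4 : IsAlgebraic T (x : Ω) := ((hT' x).mp x.2).2
          exact (isAlgebraic_algebraMap_iff (A := Ω) (algebraMap T' Ω).injective).mp h4⟩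
        exact h2.isIntegral.isAlgebraic.restrictScalars T
      refine (hT' a).mpr ⟨mem_of_cl_alg hp hT.perf hTM hM h3 fun b => ?_, h3⟩
      obtain ⟨a₀, ha₀, h4⟩ := h1 b
      exact ⟨a₀, ((hT' a₀).mp ha₀).1, h4⟩
    · exact mem_hen.mpr ⟨LUC.Cl.subset ha, isSeparable_algebraMap (F := T') (⟨a, ha⟩ : T')⟩
  · obtain ⟨c, hc, h1⟩ := hT.full g hg
    exact ⟨c, hTT' hc, h1⟩

/-- Over a full field every element outside has no best approximation. -/
theorem star_of_full (h : Ctx0 k v) {T : IntermediateField k Ω}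
    (hfull : ∀ g : Ω, g ≠ 0 → ∃ c ∈ T, c ≠ 0 ∧ v c = v g) {u : Ω} (hu : u ∉ T) : Star T v u := by
  have hne : ∀ ψ : T, u - (ψ : Ω) ≠ 0 := by
    intro ψ h0
    rw [sub_eq_zero] at h0
    exact hu (h0 ▸ ψ.2)
  refine ⟨hne, fun ψ => ?_⟩
  obtain ⟨c, hc, hc0, hcv⟩ := hfull _ (hne ψ)
  have h1 : v.Ge 0 ((u - (ψ : Ω)) / c) := by
    intro _
    rw [v.map_div (hne ψ) hc0, hcv, sub_self]
  obtain ⟨a, ha⟩ := h.residue h1
  have haT : algebraMap k Ω a * c ∈ T := T.mul_mem (T.algebraMap_mem a) hc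
  obtain ⟨ψ₁, hψ₁⟩ : ∃ ψ₁ : T, (ψ₁ : Ω) = (ψ : Ω) + algebraMap k Ω a * c :=
    ⟨ψ + ⟨_, haT⟩, rfl⟩
  refine ⟨ψ₁, ?_⟩
  have h2 : u - (ψ₁ : Ω) = c * ((u - (ψ : Ω)) / c - algebraMap k Ω a) := by
    rw [hψ₁]
    field_simp
    ring
  have h3 : u - (ψ₁ : Ω) ≠ 0 := hne ψ₁
  have h7 : v (u - (ψ : Ω)) < v (u - (ψ₁ : Ω)) := by
    rw [h2] at h3 ⊢
    have h4 := right_ne_zero_of_mul h3
    rw [v.map_mul hc0 h4, hcv]
    have h5 := ha h4
    linarith
  exact h7

/-- Row H2. -/
theorem tt_of_relAlgClosed [IsAlgClosed Ω] (p : ℕ) (hp : p.Prime) [CharP k p]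
    (h : Ctx0 k v) (T M : IntermediateField k Ω) (hT : PB p v T) (hTM : T ≤ M)
    (hM : hen v M = M)
    (hrel : ∀ a ∈ M, IsAlgebraic T a → a ∈ T) {u : Ω} (hu : u ∈ M) (huT : u ∉ T) : TT v T u := by
  have : CharP Ω p := charP_big (k := k) p
  have hs : Star T v u := star_of_full h hT.full huT
  have hk : D2.NatU v := natU_of_triv (k := k) h.triv
  have htr : Transcendental T u := fun h1 => huT (hrel u hu h1)
  refine ⟨htr, fun θ hθ => ?_⟩
  have h0 : u - θ ≠ 0 := by
    intro h1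
    rw [sub_eq_zero] at h1
    exact htr (h1 ▸ hθ)
  have h1 := no_near hs hk hp
    (fun x => by
      obtain ⟨b, hb, hbx⟩ := hT.perf x x.2
      exact ⟨⟨b, hb⟩, Subtype.ext hbx⟩)
    (fun g hg => by
      obtain ⟨c, hc⟩ := h.residue hg
      exact ⟨algebraMap k T c, hc⟩)
    (fun x hx n hn => by
      have hx' : (x : Ω) ≠ 0 := fun h1 => hx (Subtype.ext h1)
      obtain ⟨y, hy⟩ := IsAlgClosed.exists_pow_nat_eq (x : Ω) hn
      have hy0 : y ≠ 0 := by
        rintro rfl
        rw [zero_pow hn.ne'] at hy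
        exact hx' hy.symm
      obtain ⟨c, hc, hc0, hcv⟩ := hT.full y hy0
      refine ⟨⟨c, hc⟩, fun h1 => hc0 (congrArg Subtype.val h1), ?_⟩
      have h2 : (n : ℝ) * v c = v (x : Ω) := by
        rw [hcv, ← v.map_pow hy0, hy]
      exact h2)
    M.toSubfield (fun x => hTM x.2) hu
    (fun a ha hal => mem_of_cl_alg hp hT.perf hTM hM hal ha)
    (fun x hx hal => ⟨⟨x, hrel x hx hal⟩, rfl⟩)
    (minpoly.ne_zero hθ.isIntegral)
  have h2 : ¬ Near T v u θ := by
    intro h3
    have h4 := (nr_pos_iff (v := v) (z := u) (minpoly.ne_zero hθ.isIntegral)).mpr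
      ⟨θ, h3, minpoly.aeval T θ⟩
    omega
  unfold Near at h2
  push Not at h2
  obtain ⟨-, ψ, hψ⟩ := h2
  obtain ⟨ψ', hψ'⟩ := hs.nomax ψ
  exact ⟨ψ', ψ'.2, hψ.trans_lt hψ'⟩

end H2

end Pool.Agent.D2P
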