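import Mathlib

/-!
# D2P, H4: the normal form of a polynomial modulo Artin-Schreier, at a point

`P` is a perfect field of characteristic `p`. `Bc p F j ψ` is the sum of the `p^i`-th roots of the
Hasse coefficients of index `p^i * j` of `F` at `ψ`, and `nf p F ψ` the polynomial with
Taylor coefficients `F(ψ)` at `0` and `Bc p F j ψ` at the indices `j` prime to `p`.

* `isWp_sub_nf`: `F` and `nf p F ψ` differ by `G ^ p - G`;
* `IsWp.eq_C`: a polynomial `G ^ p - G` without the monomials `X ^ (p * l)`, `l > 0`, is constant;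
* `Bc_nf`: the normal form of the normal form at `ψ₁` has the same coefficients at `ψ₂`;
* `Bc_pow`: `Bc p F j ψ ^ p ^ E` is a polynomial in `ψ`.
-/

set_option autoImplicit false

open Polynomial Finset

namespace Pool.Agent.D2P.H4i

universe u

/-- `D = G ^ p - G` for some `G`. -/
def IsWp {A : Type u} [CommRing A] (p : ℕ) (D : A) : Prop := ∃ G : A, D = G ^ p - G

namespace IsWp

variable {A : Type u} [CommRing A] {p : ℕ}

theorem zero (hp : p ≠ 0) : IsWp p (0 : A) := ⟨0, by rw [zero_pow hp, sub_zero]⟩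

theorem add [hp : Fact p.Prime] [CharP A p] {D E : A} (hD : IsWp p D) (hE : IsWp p E) :
    IsWp p (D + E) := by
  obtain ⟨G, rfl⟩ := hD
  obtain ⟨H, rfl⟩ := hE
  exact ⟨G + H, by rw [add_pow_char]; ring⟩

theorem neg [hp : Fact p.Prime] [CharP A p] {D : A} (hD : IsWp p D) : IsWp p (-D) := by
  obtain ⟨G, rfl⟩ := hD
  refine ⟨-G, ?_⟩
  have h : (G + -G) ^ p = G ^ p + (-G) ^ p := add_pow_char _ _ _
  rw [add_neg_cancel, zero_pow hp.out.ne_zero] at h
  linear_combination h

theorem sub [hp : Fact p.Prime] [CharP A p] {D E : A} (hD : IsWp p D) (hE : IsWp p E) :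
    IsWp p (D - E) := by
  rw [sub_eq_add_neg]
  exact hD.add hE.neg

theorem sum [hp : Fact p.Prime] [CharP A p] {ι : Type*} (s : Finset ι) (f : ι → A)
    (h : ∀ i ∈ s, IsWp p (f i)) : IsWp p (∑ i ∈ s, f i) := by
  classical
  induction s using Finset.induction_on with
  | empty => rw [Finset.sum_empty]; exact IsWp.zero hp.out.ne_zero
  | insert a s ha ih =>
    rw [Finset.sum_insert ha]
    exact (h a (Finset.mem_insert_self _ _)).add
      (ih fun i hi => h i (Finset.mem_insert_of_mem hi))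

theorem map {B : Type u} [CommRing B] {D : A} (h : IsWp p D) (f : A →+* B) : IsWp p (f D) := by
  obtain ⟨G, rfl⟩ := h
  exact ⟨f G, by rw [map_sub, map_pow]⟩

end IsWp

section

variable {P : Type u} [Field P] (p : ℕ) [hp : Fact p.Prime] [CharP P p]

theorem pow_inj {n : ℕ} {a b : P} (h : a ^ p ^ n = b ^ p ^ n) : a = b := by
  have := iterateFrobenius_inj P p n
  exact this (by rw [iterateFrobenius_def, iterateFrobenius_def]; exact h)

variable [PerfectRing P p]

/-- The `p^i`-th root. -/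
noncomputable def rt (i : ℕ) (c : P) : P := (iterateFrobeniusEquiv P p i).symm c

theorem rt_pow (i : ℕ) (c : P) : (rt p i c) ^ p ^ i = c := by
  have := (iterateFrobeniusEquiv P p i).apply_symm_apply c
  rwa [iterateFrobeniusEquiv_apply, iterateFrobenius_def] at this

theorem rt_succ_pow (i : ℕ) (c : P) : (rt p (i + 1) c) ^ p = rt p i c := by
  apply pow_inj p (n := i)
  rw [rt_pow, ← pow_mul, ← pow_succ', rt_pow]

theorem rt_zero (c : P) : rt p 0 c = c := by
  have := rt_pow p 0 c
  rwa [pow_zero, pow_one] at this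

theorem rt_add (i : ℕ) (a b : P) : rt p i (a + b) = rt p i a + rt p i b := map_add _ _ _

theorem rt_zero' (i : ℕ) : rt p i (0 : P) = 0 := map_zero _

theorem rt_rt (i : ℕ) (c : P) : rt p i (rt p 1 c) = rt p (i + 1) c := by
  apply pow_inj p (n := i + 1)
  rw [rt_pow, pow_succ, pow_mul, rt_pow]
  have := rt_pow p 1 c
  rwa [pow_one] at this

/-- `c X ^ (p ^ i j)` and `c ^ (1 / p ^ i) X ^ j` differ by `G ^ p - G`. -/
theorem isWp_monomial (i j : ℕ) (c : P) :
    IsWp p ((C c * X ^ (p ^ i * j) : P[X]) - C (rt p i c) * X ^ j) := by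
  induction i generalizing c with
  | zero =>
    rw [rt_zero, pow_zero, one_mul, sub_self]
    exact IsWp.zero hp.out.ne_zero
  | succ i ih =>
    have h1 := ih (rt p 1 c)
    rw [rt_rt] at h1
    have h2 : IsWp p ((C c * X ^ (p ^ (i + 1) * j) : P[X]) - C (rt p 1 c) * X ^ (p ^ i * j)) := by
      refine ⟨C (rt p 1 c) * X ^ (p ^ i * j), ?_⟩
      rw [mul_pow, ← C_pow, ← pow_mul]
      have h3 := rt_pow p 1 c
      rw [pow_one] at h3
      rw [h3, pow_succ]
      congr 2
      ring
    have h4 := h2.add h1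
    rwa [sub_add_sub_cancel] at h4

/-- The coefficient of index `j` (prime to `p`) of the normal form at `ψ`. -/
noncomputable def Bc (F : P[X]) (j : ℕ) (ψ : P) : P :=
  ∑ i ∈ range (F.natDegree + 1), rt p i ((taylor ψ F).coeff (p ^ i * j))

/-- The normal form at `ψ`, in the variable `X = T - ψ`. -/
noncomputable def nfX (F : P[X]) (ψ : P) : P[X] :=
  C (F.eval ψ) + ∑ j ∈ (range (F.natDegree + 1)).filter (fun j => ¬ p ∣ j),
    C (Bc p F j ψ) * X ^ j

/-- The normal form at `ψ`. -/
noncomputable def nf (F : P[X]) (ψ : P) : P[X] := taylor (-ψ) (nfX p F ψ)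

theorem taylor_nf (F : P[X]) (ψ : P) : taylor ψ (nf p F ψ) = nfX p F ψ := by
  rw [nf, taylor_taylor, add_neg_cancel, taylor_zero]

omit [CharP P p] [PerfectRing P p] in
/-- The decomposition of a polynomial along the indices `p ^ i * j`, `j` prime to `p`. -/
theorem decomp (H : P[X]) (n : ℕ) (hn : H.natDegree ≤ n) :
    H = C (H.coeff 0) + ∑ j ∈ (range (n + 1)).filter (fun j => ¬ p ∣ j),
      ∑ i ∈ range (n + 1), C (H.coeff (p ^ i * j)) * X ^ (p ^ i * j) := by
  ext m
  rw [coeff_add, finsetSum_coeff, coeff_C]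
  simp_rw [finsetSum_coeff, coeff_C_mul_X_pow]
  rcases Nat.eq_zero_or_pos m with rfl | hm
  · rw [if_pos rfl, Finset.sum_eq_zero, add_zero]
    intro j hj
    rw [Finset.sum_eq_zero]
    intro i _
    rw [if_neg]
    intro h
    have hj0 : j ≠ 0 := by
      rintro rfl
      exact (Finset.mem_filter.mp hj).2 (dvd_zero p)
    have : p ^ i * j ≠ 0 := Nat.mul_ne_zero (pow_ne_zero _ hp.out.ne_zero) hj0
    exact this h.symm
  · rw [if_neg hm.ne', zero_add]
    obtain ⟨i₀, j₀, hj₀, hm₀⟩ := Nat.exists_eq_pow_mul_and_not_dvd hm.ne' p hp.out.ne_one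
    by_cases hmn : m ≤ n
    · have hj₀pos : 0 < j₀ := by
        rcases Nat.eq_zero_or_pos j₀ with rfl | h
        · exact absurd (dvd_zero p) hj₀
        · exact h
      have hj₀n : j₀ ≤ n := by
        refine le_trans ?_ hmn
        rw [hm₀]
        exact Nat.le_mul_of_pos_left _ (pow_pos hp.out.pos _)
      have hi₀n : i₀ ≤ n := by
        refine le_trans ?_ hmn
        rw [hm₀]
        exact le_trans (Nat.lt_pow_self hp.out.one_lt).le (Nat.le_mul_of_pos_right _ hj₀pos)
      rw [Finset.sum_eq_single j₀, Finset.sum_eq_single i₀]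
      · rw [if_pos hm₀, ← hm₀]
      · intro i _ hi
        rw [if_neg]
        intro h
        rw [hm₀] at h
        have := Nat.eq_of_mul_eq_mul_right hj₀pos h
        exact hi (Nat.pow_right_injective hp.out.two_le this).symm
      · intro h
        exact absurd (Finset.mem_range.mpr (by omega)) h
      · intro j hj hjne
        rw [Finset.sum_eq_zero]
        intro i _
        rw [if_neg]
        intro h
        apply hjne
        have hj1 := (Finset.mem_filter.mp hj).2
        rw [hm₀] at h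
        rcases le_total i₀ i with hle | hle
        · obtain ⟨e, rfl⟩ := Nat.exists_eq_add_of_le hle
          rw [pow_add, mul_assoc] at h
          have h5 := Nat.eq_of_mul_eq_mul_left (pow_pos hp.out.pos i₀) h
          rcases Nat.eq_zero_or_pos e with rfl | he
          · rw [pow_zero, one_mul] at h5
            exact h5.symm
          · exact absurd (h5 ▸ dvd_mul_of_dvd_left (dvd_pow_self p he.ne') j) hj₀
        · obtain ⟨e, rfl⟩ := Nat.exists_eq_add_of_le hle
          rw [pow_add, mul_assoc] at h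
          have h5 := Nat.eq_of_mul_eq_mul_left (pow_pos hp.out.pos i) h
          rcases Nat.eq_zero_or_pos e with rfl | he
          · rw [pow_zero, one_mul] at h5
            exact h5.symm
          · exact absurd (h5.symm ▸ dvd_mul_of_dvd_left (dvd_pow_self p he.ne') j₀) hj1
      · intro h
        exact absurd (Finset.mem_filter.mpr ⟨Finset.mem_range.mpr (by omega), hj₀⟩) h
    · have hc : H.coeff m = 0 := coeff_eq_zero_of_natDegree_lt (by omega)
      rw [hc, Finset.sum_eq_zero]
      intro j _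
      rw [Finset.sum_eq_zero]
      intro i _
      by_cases h : m = p ^ i * j
      · rw [if_pos h, ← h, hc]
      · rw [if_neg h]

theorem coeff_nfX_zero (F : P[X]) (ψ : P) : (nfX p F ψ).coeff 0 = F.eval ψ := by
  rw [nfX, coeff_add, coeff_C_zero, finsetSum_coeff, Finset.sum_eq_zero, add_zero]
  intro j hj
  rw [coeff_C_mul_X_pow, if_neg]
  rintro rfl
  exact (Finset.mem_filter.mp hj).2 (dvd_zero p)

theorem Bc_eq_zero (F : P[X]) (j : ℕ) (hj : F.natDegree < j) (ψ : P) : Bc p F j ψ = 0 := by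
  rw [Bc, Finset.sum_eq_zero]
  intro i _
  rw [coeff_eq_zero_of_natDegree_lt, rt_zero']
  rw [natDegree_taylor]
  exact lt_of_lt_of_le hj (Nat.le_mul_of_pos_left _ (pow_pos hp.out.pos _))

theorem coeff_nfX (F : P[X]) (ψ : P) (j : ℕ) (hj : ¬ p ∣ j) :
    (nfX p F ψ).coeff j = Bc p F j ψ := by
  have hj0 : j ≠ 0 := by
    rintro rfl
    exact hj (dvd_zero p)
  rw [nfX, coeff_add, coeff_C, if_neg hj0, zero_add, finsetSum_coeff]
  simp_rw [coeff_C_mul_X_pow]
  by_cases hjn : j ≤ F.natDegree
  · rw [Finset.sum_eq_single j]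
    · rw [if_pos rfl]
    · intro i _ hi
      rw [if_neg (Ne.symm hi)]
    · intro h
      exact absurd (Finset.mem_filter.mpr ⟨Finset.mem_range.mpr (by omega), hj⟩) h
  · rw [Bc_eq_zero p F j (by omega) ψ, Finset.sum_eq_zero]
    intro i hi
    rw [if_neg]
    rintro rfl
    exact hjn (by have := Finset.mem_range.mp (Finset.mem_filter.mp hi).1; omega)

theorem coeff_nfX_dvd (F : P[X]) (ψ : P) (l : ℕ) (hl : 0 < l) (hpl : p ∣ l) :
    (nfX p F ψ).coeff l = 0 := by
  rw [nfX, coeff_add, coeff_C, if_neg hl.ne', zero_add, finsetSum_coeff, Finset.sum_eq_zero]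
  intro j hj
  rw [coeff_C_mul_X_pow, if_neg]
  rintro rfl
  exact (Finset.mem_filter.mp hj).2 hpl

/-- `F` and its normal form differ by `G ^ p - G` (in the variable `X = T - ψ`). -/
theorem isWp_taylor_sub_nfX (F : P[X]) (ψ : P) : IsWp p (taylor ψ F - nfX p F ψ) := by
  have h1 := decomp p (taylor ψ F) F.natDegree (natDegree_taylor F ψ).le
  have h2 : taylor ψ F - nfX p F ψ = ∑ j ∈ (range (F.natDegree + 1)).filter (fun j => ¬ p ∣ j),
      ∑ i ∈ range (F.natDegree + 1), (C ((taylor ψ F).coeff (p ^ i * j)) * X ^ (p ^ i * j) -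
        C (rt p i ((taylor ψ F).coeff (p ^ i * j))) * X ^ j) := by
    conv_lhs => rw [h1]
    rw [nfX, taylor_coeff_zero]
    simp_rw [Finset.sum_sub_distrib, Bc, map_sum, Finset.sum_mul]
    ring
  rw [h2]
  exact IsWp.sum _ _ fun j _ => IsWp.sum _ _ fun i _ => isWp_monomial p i j _

/-- `F` and its normal form differ by `G ^ p - G`. -/
theorem isWp_sub_nf (F : P[X]) (ψ : P) : IsWp p (F - nf p F ψ) := by
  have h := (isWp_taylor_sub_nfX p F ψ).map (taylorAlgHom (-ψ)).toRingHom
  have h2 : (taylorAlgHom (-ψ)).toRingHom (taylor ψ F - nfX p F ψ) = F - nf p F ψ := by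
    change taylor (-ψ) (taylor ψ F - nfX p F ψ) = _
    rw [map_sub, taylor_taylor, neg_add_cancel, taylor_zero, nf]
  rwa [h2] at h

omit [CharP P p] [PerfectRing P p] in
/-- A polynomial `G ^ p - G` without monomials of positive degree divisible by `p` is constant. -/
theorem IsWp.eq_C {D : P[X]} (h : IsWp p D) (hD : ∀ l, 0 < l → p ∣ l → D.coeff l = 0) :
    D = C (D.coeff 0) := by
  obtain ⟨G, rfl⟩ := h
  by_cases hG : G.natDegree = 0
  · rw [eq_C_of_natDegree_eq_zero hG]
    simp only [← C_pow, ← C_sub, coeff_C_zero]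
  · exfalso
    have hd : 0 < G.natDegree := Nat.pos_of_ne_zero hG
    have h1 := hD (p * G.natDegree) (Nat.mul_pos hp.out.pos hd) (dvd_mul_right _ _)
    rw [coeff_sub, coeff_pow_mul_natDegree, coeff_eq_zero_of_natDegree_lt (p := G), sub_zero] at h1
    · have h2 : G.leadingCoeff = 0 := by
        exact pow_eq_zero_iff hp.out.ne_zero |>.mp h1
      rw [leadingCoeff_eq_zero] at h2
      rw [h2, natDegree_zero] at hd
      exact lt_irrefl _ hd
    · calc G.natDegree < 2 * G.natDegree := by omega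
        _ ≤ p * G.natDegree := Nat.mul_le_mul_right _ hp.out.two_le

omit hp [CharP P p] [PerfectRing P p] in
theorem isWp_iff_taylor (D : P[X]) (ψ : P) : IsWp p (taylor ψ D) ↔ IsWp p D := by
  constructor
  · intro h
    have h2 := h.map (taylorAlgHom (-ψ)).toRingHom
    have h3 : (taylorAlgHom (-ψ)).toRingHom (taylor ψ D) = D := by
      change taylor (-ψ) (taylor ψ D) = _
      rw [taylor_taylor, neg_add_cancel, taylor_zero]
    rwa [h3] at h2
  · intro h
    exact h.map (taylorAlgHom ψ).toRingHom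

/-- Polynomials which differ by `G ^ p - G` have the same coefficients `Bc`. -/
theorem Bc_congr {F G : P[X]} (h : IsWp p (F - G)) (j : ℕ) (hj : ¬ p ∣ j) (ψ : P) :
    Bc p F j ψ = Bc p G j ψ := by
  have h1 : IsWp p (nfX p F ψ - nfX p G ψ) := by
    have h2 := ((isWp_iff_taylor p (F - G) ψ).mpr h).sub (isWp_taylor_sub_nfX p F ψ)
    have h3 := h2.add (isWp_taylor_sub_nfX p G ψ)
    have h4 : taylor ψ (F - G) - (taylor ψ F - nfX p F ψ) + (taylor ψ G - nfX p G ψ) =
        nfX p F ψ - nfX p G ψ := by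
      rw [map_sub]
      ring
    rwa [h4] at h3
  have h4 := IsWp.eq_C p h1 (fun l hl hpl => by
    rw [coeff_sub, coeff_nfX_dvd p F ψ l hl hpl, coeff_nfX_dvd p G ψ l hl hpl, sub_zero])
  have hj0 : j ≠ 0 := by
    rintro rfl
    exact hj (dvd_zero p)
  have h5 := congrArg (fun Q : P[X] => Q.coeff j) h4
  simp only [coeff_sub, coeff_C, if_neg hj0] at h5
  rw [coeff_nfX p F ψ j hj, coeff_nfX p G ψ j hj] at h5
  exact sub_eq_zero.mp h5

/-- The normal form at `ψ₁` has the coefficients of `F` at `ψ₂`. -/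
theorem Bc_nf (F : P[X]) (j : ℕ) (hj : ¬ p ∣ j) (ψ₁ ψ₂ : P) :
    Bc p (nf p F ψ₁) j ψ₂ = Bc p F j ψ₂ :=
  (Bc_congr p (isWp_sub_nf p F ψ₁) j hj ψ₂).symm

/-- The polynomial with value `Bc p F j ψ ^ p ^ natDegree F` at `ψ`. -/
noncomputable def Bpoly (F : P[X]) (j : ℕ) : P[X] :=
  ∑ i ∈ range (F.natDegree + 1), (hasseDeriv (p ^ i * j) F) ^ p ^ (F.natDegree - i)

/-- A power of `Bc p F j ψ` is a polynomial in `ψ`. -/
theorem Bc_pow (F : P[X]) (j : ℕ) (ψ : P) :
    Bc p F j ψ ^ p ^ F.natDegree = (Bpoly p F j).eval ψ := by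
  rw [Bc, Bpoly, eval_finsetSum, sum_pow_char_pow]
  refine Finset.sum_congr rfl fun i hi => ?_
  have hi' : i ≤ F.natDegree := by
    have := Finset.mem_range.mp hi
    omega
  rw [eval_pow, taylor_coeff]
  obtain ⟨e, he⟩ := Nat.exists_eq_add_of_le hi'
  rw [he, Nat.add_sub_cancel_left, pow_add, pow_mul, rt_pow]

/-- The value of the normal form at `z`. -/
theorem aeval_nf {M : Type u} [Field M] [Algebra P M] (F : P[X]) (ψ : P) (z : M) :
    aeval z (nf p F ψ) = algebraMap P M (F.eval ψ) +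
      ∑ j ∈ (range (F.natDegree + 1)).filter (fun j => ¬ p ∣ j),
        algebraMap P M (Bc p F j ψ) * (z - algebraMap P M ψ) ^ j := by
  rw [nf, nfX]
  simp only [map_add, map_sum, taylor_C, taylor_mul, taylor_X, map_pow, aeval_C, taylor_pow,
    map_mul, aeval_X, map_neg]
  simp only [← sub_eq_add_neg]

theorem isWp_aeval {M : Type u} [Field M] [Algebra P M] (F : P[X]) (ψ : P) (z : M) :
    IsWp p (aeval z F - aeval z (nf p F ψ)) := by
  have := (isWp_sub_nf p F ψ).map (aeval z).toRingHom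
  simpa using this

end

end Pool.Agent.D2P.H4i
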