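import Pool.Agent.Lib.D2P.ADefs
import Pool.Agent.Lib.D2P.H4

/-!
# D2P, H4: the normal form, in the notation of `ADefs`
-/

set_option autoImplicit false

open Polynomial

namespace Pool.Agent.D2P

universe u

/-- The coefficient `B_j` of the normal form of a polynomial at `ψ`. -/
noncomputable def nfB (p : ℕ) {K : Type u} [Field K] [ExpChar K p] [PerfectRing K p] (F : K[X])
    (ψ : K) (j : ℕ) : K :=
  ∑ i ∈ Finset.range (F.natDegree + 1),
    (iterateFrobeniusEquiv K p i).symm ((taylor ψ F).coeff (p ^ i * j))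

/-- The normal form of a polynomial at `ψ`. -/
noncomputable def nf (p : ℕ) {K : Type u} [Field K] [ExpChar K p] [PerfectRing K p] (F : K[X])
    (ψ : K) : K[X] :=
  C (F.eval ψ) + ∑ j ∈ (Finset.range (F.natDegree + 1)).filter (fun j => ¬ p ∣ j),
    C (nfB p F ψ j) * (X - C ψ) ^ j

section H4

variable (p : ℕ) [Fact p.Prime] {K : Type u} [Field K] [CharP K p] [PerfectRing K p]

theorem nfB_eq_Bc (F : K[X]) (ψ : K) (j : ℕ) : nfB p F ψ j = H4i.Bc p F j ψ := rfl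

theorem nf_eq_nf (F : K[X]) (ψ : K) : nf p F ψ = H4i.nf p F ψ := by
  rw [nf, H4i.nf, H4i.nfX, map_add, map_sum, taylor_C]
  congr 1
  refine Finset.sum_congr rfl fun j _ => ?_
  rw [taylor_mul, taylor_C, taylor_pow, taylor_X, C_neg, ← sub_eq_add_neg]
  rfl

/-- H4a -/
theorem nf_sub (F : K[X]) (ψ : K) : ∃ Q : K[X], F - nf p F ψ = Q ^ p - Q := by
  rw [nf_eq_nf]
  exact H4i.isWp_sub_nf p F ψ

theorem nfB_eq_zero (F : K[X]) (ψ : K) {j : ℕ} (hj : F.natDegree < j) : nfB p F ψ j = 0 := by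
  rw [nfB_eq_Bc]
  exact H4i.Bc_eq_zero p F j hj ψ

theorem nf_coeff_zero (F : K[X]) (ψ : K) : (taylor ψ (nf p F ψ)).coeff 0 = F.eval ψ := by
  rw [nf_eq_nf, H4i.taylor_nf]
  exact H4i.coeff_nfX_zero p F ψ

theorem nf_coeff (F : K[X]) (ψ : K) {j : ℕ} (hj : 0 < j) :
    (taylor ψ (nf p F ψ)).coeff j = if p ∣ j then 0 else nfB p F ψ j := by
  rw [nf_eq_nf, H4i.taylor_nf]
  split_ifs with h
  · exact H4i.coeff_nfX_dvd p F ψ j hj h
  · rw [nfB_eq_Bc]
    exact H4i.coeff_nfX p F ψ j h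

/-- H4b: the coefficients of the normal form do not see the invisible part -/
theorem nfB_nf (F : K[X]) (ψ ψ' : K) {j : ℕ} (_hj : 0 < j) (hpj : ¬ p ∣ j) :
    nfB p (nf p F ψ) ψ' j = nfB p F ψ' j := by
  rw [nf_eq_nf, nfB_eq_Bc, nfB_eq_Bc]
  exact H4i.Bc_nf p F j hpj ψ ψ'

/-- H4c: a power of `B_j` is a polynomial in `ψ` -/
theorem nfB_pow (F : K[X]) {j : ℕ} (_hj : 0 < j) : ∃ (e : ℕ) (B : K[X]), ∀ ψ : K,
    nfB p F ψ j ^ p ^ e = B.eval ψ :=
  ⟨F.natDegree, H4i.Bpoly p F j, fun ψ => by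
    rw [nfB_eq_Bc]
    exact H4i.Bc_pow p F j ψ⟩

end H4

end Pool.Agent.D2P
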