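import Pool.Agent.Lib.D2P.ADefs
import Pool.Agent.Lib.D2.TM2

/-!
# D2P, Part A, row R0: henselian basics
-/

set_option autoImplicit false

open Polynomial

namespace Pool.Agent.D2P

open Pool.Agent.H15JM (RVal)
open Pool.Agent.LU1 (VPos adj fixO decG mem_fixO)
open Pool.Agent.LUC (Cl clF)
open Pool.Agent.D2 (Ctx0 cl_dec)

universe u

variable {k Ω : Type u} [Field k] [Field Ω] [Algebra k Ω] {v : RVal Ω}

theorem isSeparable_mono {E F : IntermediateField k Ω} (h : E ≤ F) {a : Ω}
    (ha : IsSeparable E a) : IsSeparable F a := by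
  let _ : Algebra E F := (IntermediateField.inclusion h).toRingHom.toAlgebra
  have _ : IsScalarTower E F Ω := IsScalarTower.of_algebraMap_eq fun _ => rfl
  exact IsSeparable.tower_top F ha

theorem isAlgebraic_mono {E F : IntermediateField k Ω} (h : E ≤ F) {a : Ω}
    (ha : IsAlgebraic E a) : IsAlgebraic F a := by
  let _ : Algebra E F := (IntermediateField.inclusion h).toRingHom.toAlgebra
  have _ : IsScalarTower E F Ω := IsScalarTower.of_algebraMap_eq fun _ => rfl
  exact ha.tower_top F

/-- the roots of the minimal polynomial over the bigger field are roots of the one over the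
smaller field -/
theorem aeval_minpoly_mono {E F : IntermediateField k Ω} (h : E ≤ F) {a a' : Ω}
    (ha' : aeval a' (minpoly F a) = 0) : aeval a' (minpoly E a) = 0 := by
  let _ : Algebra E F := (IntermediateField.inclusion h).toRingHom.toAlgebra
  have _ : IsScalarTower E F Ω := IsScalarTower.of_algebraMap_eq fun _ => rfl
  have h1 := minpoly.dvd_map_of_isScalarTower E F a
  have h2 : aeval a' ((minpoly E a).map (algebraMap E F)) = 0 := by
    obtain ⟨q, hq⟩ := h1
    rw [hq, map_mul, ha', zero_mul]
  rwa [aeval_map_algebraMap] at h2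

theorem cl_mono {E F : Subfield Ω} (h : E ≤ F) {a : Ω} (ha : a ∈ Cl v E) : a ∈ Cl v F := by
  intro c
  obtain ⟨a₀, h0, h1⟩ := ha c
  exact ⟨a₀, h h0, h1⟩

theorem le_hen (E : IntermediateField k Ω) : E ≤ hen v E := by
  intro a ha
  rw [mem_hen]
  exact ⟨LUC.Cl.subset ha, isSeparable_algebraMap (F := E) (⟨a, ha⟩ : E)⟩

theorem hen_mono {E F : IntermediateField k Ω} (h : E ≤ F) : hen v E ≤ hen v F := by
  intro a ha
  rw [mem_hen] at ha ⊢
  exact ⟨cl_mono (fun x hx => h hx) ha.1, isSeparable_mono h ha.2⟩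

theorem hen_hen (E : IntermediateField k Ω) : hen v (hen v E) = hen v E := by
  refine le_antisymm ?_ (le_hen _)
  intro a ha
  rw [mem_hen] at ha
  rw [mem_hen]
  constructor
  · apply LUC.cl_cl
    refine cl_mono ?_ ha.1
    intro x hx
    exact ((mem_hen (v := v)).1 hx).1
  · have h1 : IsSeparable ((separableClosure E Ω).restrictScalars k) a :=
      isSeparable_mono inf_le_right ha.2
    have h2 : IsSeparable (separableClosure E Ω) a := h1
    exact IsSeparable.of_algebra_isSeparable_of_isSeparable E h2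

theorem hen_le {E M : IntermediateField k Ω} (hM : hen v M = M) (h : E ≤ M) : hen v E ≤ M := by
  rw [← hM]
  exact hen_mono h

/-- `adj` and sums -/
theorem mem_adj_self (E : IntermediateField k Ω) (z : Ω) : z ∈ adj E z ∧ E ≤ adj E z :=
  ⟨(le_sup_right : _ ≤ adj E z) (IntermediateField.mem_adjoin_simple_self k z), le_sup_left⟩

theorem adj_le {E F : IntermediateField k Ω} {z : Ω} (h : E ≤ F) (hz : z ∈ F) : adj E z ≤ F := by
  refine sup_le h ?_
  rw [IntermediateField.adjoin_le_iff, Set.singleton_subset_iff]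
  exact hz

/-- A separable element all of whose conjugates are equal. -/
theorem mem_of_conj [IsAlgClosed Ω] {M : IntermediateField k Ω} {a : Ω} (ha : IsSeparable M a)
    (hconj : ∀ a' : Ω, aeval a' (minpoly M a) = 0 → a' = a) : a ∈ M := by
  have hint : IsIntegral M a := ha.isIntegral
  have hsep : (minpoly M a).Separable := ha
  have hcard := card_rootSet_eq_natDegree hsep (IsAlgClosed.splits _ : ((minpoly M a).map (algebraMap M Ω)).Splits)
  have h1 : (minpoly M a).rootSet Ω ⊆ {a} := by
    intro b hb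
    rw [mem_rootSet] at hb
    exact hconj b hb.2
  have h2 : Fintype.card ((minpoly M a).rootSet Ω) ≤ 1 := by
    rw [Fintype.card_le_one_iff]
    intro x y
    exact Subtype.ext ((h1 x.2).trans (h1 y.2).symm)
  have h3 : (minpoly M a).natDegree = 1 := by
    have := minpoly.natDegree_pos hint
    omega
  rw [minpoly.natDegree_eq_one_iff] at h3
  obtain ⟨m, hm⟩ := h3
  rw [← hm]
  exact m.2

section

variable [IsAlgClosed Ω]

omit [IsAlgClosed Ω] in
/-- the automorphisms of finite Galois extensions of a henselian field preserve the value -/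
theorem decG_eq_top (h : Ctx0 k v) {M : IntermediateField k Ω} (hM : hen v M = M)
    (N : IntermediateField M Ω) [FiniteDimensional M N] [IsGalois M N] : decG v M N = ⊤ := by
  have h1 : IntermediateField.fixedField (decG v M N) = ⊥ := by
    rw [eq_bot_iff]
    intro n hn
    rw [IntermediateField.mem_fixedField_iff] at hn
    have h2 : (n : Ω) ∈ Cl v M.toSubfield := by
      have h3 := cl_dec h M N ⊤ (n : Ω)
        ((mem_fixO M N _ _).2 ⟨n, rfl, fun σ hσ => hn σ (Subgroup.mem_inf.1 hσ).1⟩)
      rwa [LU1.fixO_top] at h3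
    have h4 : IsSeparable M (n : Ω) := by
      have := Algebra.IsSeparable.isSeparable M n
      exact (isSeparable_map_iff N.val N.val.injective).2 this
    have h5 : (n : Ω) ∈ hen v M := mem_hen.2 ⟨h2, h4⟩
    rw [hM] at h5
    rw [IntermediateField.mem_bot]
    exact ⟨⟨_, h5⟩, Subtype.ext rfl⟩
  have h6 := IntermediateField.fixingSubgroup_fixedField (decG v M N)
  rw [h1, IntermediateField.fixingSubgroup_bot] at h6
  exact h6.symm

theorem val_root_sep (h : Ctx0 k v) {M : IntermediateField k Ω} (hM : hen v M = M)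
    {a a' : Ω} (ha : IsSeparable M a) (ha' : aeval a' (minpoly M a) = 0) : v a' = v a := by
  have hint : IsIntegral M a := ha.isIntegral
  have hsep : (minpoly M a).Separable := ha
  have hsp : ((minpoly M a).map (algebraMap M Ω)).Splits := IsAlgClosed.splits _
  let N : IntermediateField M Ω := IntermediateField.adjoin M ((minpoly M a).rootSet Ω)
  have hSF : IsSplittingField M N (minpoly M a) :=
    IntermediateField.adjoin_rootSet_isSplittingField hsp
  have : FiniteDimensional M N := IsSplittingField.finiteDimensional N (minpoly M a)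
  have : IsGalois M N := IsGalois.of_separable_splitting_field hsep
  have haN : a ∈ N := IntermediateField.subset_adjoin _ _
    ((mem_rootSet).2 ⟨minpoly.ne_zero hint, minpoly.aeval M a⟩)
  have haN' : a' ∈ N := IntermediateField.subset_adjoin _ _
    ((mem_rootSet).2 ⟨minpoly.ne_zero hint, ha'⟩)
  have h1 : minpoly M (⟨a, haN⟩ : N) = minpoly M a :=
    (minpoly.algebraMap_eq (algebraMap N Ω).injective (⟨a, haN⟩ : N)).symm
  obtain ⟨σ, hσ⟩ := minpoly.exists_algEquiv_of_root' (K := M) (L := N) (y := ⟨a, haN⟩)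
    (x := ⟨a', haN'⟩) (Algebra.IsAlgebraic.isAlgebraic _) (by
      rw [h1]
      apply Subtype.ext
      have h2 := aeval_algebraMap_apply Ω (⟨a', haN'⟩ : N) (minpoly M a)
      rw [show algebraMap N Ω ⟨a', haN'⟩ = a' from rfl, ha'] at h2
      exact h2.symm)
  have h3 : σ ∈ decG v M N := by
    rw [decG_eq_top h hM N]
    exact Subgroup.mem_top _
  have h4 := h3 ⟨a, haN⟩
  rw [hσ] at h4
  exact h4

/-- the value is invariant under conjugation over a henselian field
(proof: `D2.cl_dec`, the decomposition field is in the closure) -/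
theorem val_root (h : Ctx0 k v) {M : IntermediateField k Ω} (hM : hen v M = M)
    {a a' : Ω} (ha : IsAlgebraic M a) (ha' : aeval a' (minpoly M a) = 0) : v a' = v a := by
  have hint : IsIntegral M a := ha.isIntegral
  have hirr := minpoly.irreducible hint
  by_cases ha0 : a = 0
  · subst ha0
    rw [minpoly.zero, aeval_X] at ha'
    rw [ha']
  have ha0' : a' ≠ 0 := by
    rintro rfl
    apply ha0
    rw [← minpoly.coeff_zero_eq_zero hint]
    rw [← coeff_zero_eq_aeval_zero'] at ha'
    exact (map_eq_zero_iff _ (algebraMap M Ω).injective).1 ha'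
  obtain ⟨q, hq⟩ := ExpChar.exists M
  have hq0 : q ≠ 0 := (expChar_pos M q).ne'
  obtain ⟨g, hg, m, hgm⟩ := hirr.hasSeparableContraction q
  have hgirr : Irreducible g := of_irreducible_expand_pow hq0 (by rw [hgm]; exact hirr)
  have h1 : aeval (a ^ q ^ m) g = 0 := by
    rw [← expand_aeval, hgm, minpoly.aeval]
  have h2 : aeval (a' ^ q ^ m) g = 0 := by
    rw [← expand_aeval, hgm, ha']
  have hint' : IsIntegral M (a ^ q ^ m) := hint.pow _
  have h3 : minpoly M (a ^ q ^ m) ∣ g := minpoly.dvd _ _ h1
  have h4 : IsSeparable M (a ^ q ^ m) := hg.of_dvd h3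
  have h5 : g ∣ minpoly M (a ^ q ^ m) := (minpoly.irreducible hint').dvd_symm hgirr h3
  have h6 : aeval (a' ^ q ^ m) (minpoly M (a ^ q ^ m)) = 0 := by
    obtain ⟨r, hr⟩ := h5
    rw [hr, map_mul, h2, zero_mul]
  have h7 := val_root_sep h hM h4 h6
  rw [v.map_pow ha0', v.map_pow ha0] at h7
  have h8 : ((q ^ m : ℕ) : ℝ) ≠ 0 := by exact_mod_cast pow_ne_zero m hq0
  exact mul_left_cancel₀ h8 h7

omit [IsAlgClosed Ω] in
/-- The conjugates of `a - c`. -/
theorem aeval_sub_minpoly {M : IntermediateField k Ω} {a a' c : Ω} (hc : c ∈ M)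
    (ha' : aeval a' (minpoly M a) = 0) : aeval (a' - c) (minpoly M (a - c)) = 0 := by
  have h1 := minpoly.sub_algebraMap (A := M) (B := Ω) a (⟨c, hc⟩ : M)
  rw [show algebraMap M Ω ⟨c, hc⟩ = c from rfl] at h1
  rw [h1, aeval_comp, map_add, aeval_X, aeval_C, show algebraMap M Ω ⟨c, hc⟩ = c from rfl,
    sub_add_cancel, ha']

theorem val_sub_root (h : Ctx0 k v) {M : IntermediateField k Ω} (hM : hen v M = M)
    {a a' c : Ω} (hc : c ∈ M) (ha : IsAlgebraic M a) (ha' : aeval a' (minpoly M a) = 0) :
    v (a' - c) = v (a - c) :=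
  val_root h hM (ha.sub (isAlgebraic_algebraMap (R := M) (⟨c, hc⟩ : M)))
    (aeval_sub_minpoly hc ha')

theorem val_aut (h : Ctx0 k v) {M : IntermediateField k Ω} (hM : hen v M = M)
    (hΩ : ∀ g : Ω, IsAlgebraic M g) (σ : Ω ≃ₐ[M] Ω) (a : Ω) : v (σ a) = v a := by
  refine val_root h hM (hΩ a) ?_
  have := minpoly.aeval M (σ a)
  rwa [minpoly.algEquiv_eq] at this

/-- automorphisms over `M` and closures -/
theorem hen_map (h : Ctx0 k v) {M E : IntermediateField k Ω} (hM : hen v M = M)
    (hΩ : ∀ g : Ω, IsAlgebraic M g) (σ : Ω ≃ₐ[M] Ω) (hE : ∀ a ∈ E, σ a ∈ E) {a : Ω}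
    (ha : a ∈ hen v E) : σ a ∈ hen v E := by
  rw [mem_hen] at ha ⊢
  constructor
  · intro c
    obtain ⟨a₀, h0, h1⟩ := ha.1 c
    refine ⟨σ a₀, hE _ h0, ?_⟩
    rw [← map_sub]
    intro h2
    rw [val_aut h hM hΩ σ]
    exact h1 fun h0 => h2 (by rw [h0, map_zero])
  · let φ : E →+* E := RingHom.codRestrict ((σ : Ω →+* Ω).comp (algebraMap E Ω)) E
      fun x => hE x x.2
    have hφ : (algebraMap E Ω).comp φ = (σ : Ω →+* Ω).comp (algebraMap E Ω) := by
      ext x; rfl
    have hsep : ((minpoly E a).map φ).Separable := Polynomial.Separable.map ha.2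
    have h3 : aeval (σ a) ((minpoly E a).map φ) = 0 := by
      have h4 := minpoly.aeval E a
      rw [aeval_def, eval₂_eq_eval_map] at h4 ⊢
      rw [Polynomial.map_map, hφ, ← Polynomial.map_map]
      show eval ((σ : Ω →+* Ω) a) _ = 0
      rw [eval_map, eval₂_at_apply, h4, map_zero]
    exact hsep.of_dvd (minpoly.dvd _ _ h3)

/-- an element fixed by all automorphisms over `M` and separable over `M` is in `M` -/
theorem mem_of_fixed {M : IntermediateField k Ω}
    (hΩ : ∀ g : Ω, IsAlgebraic M g) {a : Ω} (ha : IsSeparable M a)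
    (hfix : ∀ σ : Ω ≃ₐ[M] Ω, σ a = a) : a ∈ M := by
  refine mem_of_conj ha fun a' ha' => ?_
  have : Algebra.IsAlgebraic M Ω := ⟨hΩ⟩
  have : IsAlgClosure M Ω := ⟨inferInstance, inferInstance⟩
  have : Normal M Ω := IsAlgClosure.normal M Ω
  obtain ⟨σ, hσ⟩ := minpoly.exists_algEquiv_of_root' (hΩ a) ha'
  rw [← hσ]
  exact hfix σ

set_option linter.unusedVariables false in
/-- Krasner's lemma -/
theorem krasner (h : Ctx0 k v) {M : IntermediateField k Ω} (hM : hen v M = M)
    {a b : Ω} (ha : IsSeparable M a)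
    (hb : ∀ a' : Ω, aeval a' (minpoly M a) = 0 → a' ≠ a → a ≠ b → v (a - a') < v (a - b)) :
    a ∈ hen v (adj M b) := by
  by_cases hab : a = b
  · subst hab
    exact le_hen _ (mem_adj_self M a).1
  set E := hen v (adj M b) with hE
  have hEE : hen v E = E := hen_hen _
  have hME : M ≤ E := (mem_adj_self M b).2.trans (le_hen _)
  have hbE : b ∈ E := le_hen _ (mem_adj_self M b).1
  have haE : IsSeparable E a := isSeparable_mono hME ha
  refine mem_of_conj haE fun a' ha' => ?_
  by_contra hne
  have h1 := hb a' (aeval_minpoly_mono hME ha') hne hab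
  have h2 := val_sub_root h hEE hbE haE.isIntegral.isAlgebraic ha'
  have h3 : v.Ge (v (a - b)) (a - a') := by
    have h4 : a - a' = (a - b) - (a' - b) := by ring
    rw [h4]
    exact (RVal.ge_self _).sub fun _ => h2.ge
  have h5 := h3 (sub_ne_zero.2 (Ne.symm hne))
  linarith

/-- Hensel's lemma: a simple root which is alone at its distance from `c ∈ M` -/
theorem mem_of_alone (h : Ctx0 k v) {M : IntermediateField k Ω}
    (hM : hen v M = M) (G : M[X]) {a c : Ω} (hc : c ∈ M)
    (h0 : aeval a G = 0) (h1 : aeval a (derivative G) ≠ 0)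
    (hal : ∀ b : Ω, aeval b G = 0 → b ≠ c → v (b - c) = v (a - c) → b = a) : a ∈ M := by
  have hG0 : G ≠ 0 := by
    rintro rfl
    simp at h1
  have halg : IsAlgebraic M a := ⟨G, hG0, h0⟩
  have hint := halg.isIntegral
  obtain ⟨Q, hQ⟩ := minpoly.dvd M a h0
  have hsep : IsSeparable M a := by
    refine (separable_iff_derivative_ne_zero (minpoly.irreducible hint)).2 fun h2 => h1 ?_
    rw [hQ, derivative_mul, map_add, map_mul, map_mul, h2, minpoly.aeval, map_zero, zero_mul,
      zero_mul, add_zero]
  by_cases hac : a = c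
  · rw [hac]; exact hc
  refine mem_of_conj hsep fun a' ha' => ?_
  refine hal a' ?_ ?_ (val_sub_root h hM hc halg ha')
  · rw [hQ, map_mul, ha', zero_mul]
  · rintro rfl
    apply hac
    have h3 := aeval_sub_minpoly hc ha'
    rw [sub_self] at h3
    have h4 : IsIntegral M (a - a') :=
      hint.sub (isIntegral_algebraMap (R := M) (x := (⟨a', hc⟩ : M)))
    rw [← coeff_zero_eq_aeval_zero'] at h3
    have h5 := (map_eq_zero_iff _ (algebraMap M Ω).injective).1 h3
    rw [minpoly.coeff_zero_eq_zero h4] at h5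
    exact sub_eq_zero.1 h5

/-- an element of the closure of an algebraic extension of a henselian field is alone -/
theorem eq_of_cl (h : Ctx0 k v) {M E : IntermediateField k Ω} (hM : hen v M = M) (hME : M ≤ E)
    (hE : ∀ e ∈ E, IsAlgebraic M e) {a a' : Ω} (ha : a ∈ Cl v E.toSubfield)
    (halg : IsAlgebraic M a) (ha' : aeval a' (minpoly E a) = 0) : a' = a := by
  by_contra hne
  have hne' : a - a' ≠ 0 := sub_ne_zero.2 (Ne.symm hne)
  obtain ⟨a₀, h0, h1⟩ := ha (v (a - a') + 1)
  have h2 : aeval (a' - a₀) (minpoly M (a - a₀)) = 0 :=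
    aeval_minpoly_mono hME (aeval_sub_minpoly h0 ha')
  have h3 := val_root h hM (halg.sub (hE a₀ h0)) h2
  have h4 : v.Ge (v (a - a') + 1) (a' - a₀) := by
    intro h5
    rw [h3]
    apply h1
    intro h6
    rw [h6, minpoly.zero, aeval_X] at h2
    exact h5 h2
  have h7 : a - a' = (a - a₀) - (a' - a₀) := by ring
  have h8 := (h1.sub h4) (by rw [← h7]; exact hne')
  rw [← h7] at h8
  linarith

/-- an algebraic extension of a henselian field is henselian -/
theorem hen_alg (h : Ctx0 k v) {M E : IntermediateField k Ω} (hM : hen v M = M) (hME : M ≤ E)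
    (hE : ∀ e ∈ E, IsAlgebraic M e) : hen v E = E := by
  refine le_antisymm (fun a ha => ?_) (le_hen _)
  obtain ⟨h1, h2⟩ := mem_hen.1 ha
  refine mem_of_conj h2 fun a' ha' => ?_
  have halg : IsAlgebraic M a := by
    let _ : Algebra M E := (IntermediateField.inclusion hME).toRingHom.toAlgebra
    have _ : IsScalarTower M E Ω := IsScalarTower.of_algebraMap_eq fun _ => rfl
    have : Algebra.IsAlgebraic M E := ⟨fun e => by
      have h3 := hE e e.2
      exact (isAlgebraic_algebraMap_iff (R := M) (A := Ω) (algebraMap E Ω).injective).1 h3⟩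
    exact h2.isIntegral.isAlgebraic.restrictScalars M
  exact eq_of_cl h hM hME hE h1 halg ha'

omit [IsAlgClosed Ω] in
theorem isAlgebraic_sup {M : IntermediateField k Ω} (S : Set Ω) (hS : ∀ s ∈ S, IsAlgebraic M s) :
    ∀ e ∈ M ⊔ IntermediateField.adjoin k S, IsAlgebraic M e := by
  have h1 : M ⊔ IntermediateField.adjoin k S ≤
      (algebraicClosure M Ω).restrictScalars k := by
    refine sup_le ?_ ?_
    · intro m hm
      rw [IntermediateField.mem_restrictScalars, mem_algebraicClosure_iff]
      exact isAlgebraic_algebraMap (R := M) (⟨m, hm⟩ : M)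
    · rw [IntermediateField.adjoin_le_iff]
      intro s hs
      exact (mem_algebraicClosure_iff (F := M) (E := Ω)).2 (hS s hs)
  intro e he
  exact (mem_algebraicClosure_iff (F := M) (E := Ω)).1 (h1 he)

/-- a finite separable extension of a henselian field is henselian -/
theorem hen_adj (h : Ctx0 k v) {M : IntermediateField k Ω} (hM : hen v M = M)
    {θ : Ω} (hθ : IsSeparable M θ) : hen v (adj M θ) = adj M θ :=
  hen_alg h hM (mem_adj_self M θ).2 (isAlgebraic_sup _ (by
    rintro s rfl
    exact hθ.isIntegral.isAlgebraic))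

theorem hen_sup (h : Ctx0 k v) {M : IntermediateField k Ω} (hM : hen v M = M)
    (S : Finset Ω) (hS : ∀ s ∈ S, IsSeparable M s) :
    hen v (M ⊔ IntermediateField.adjoin k (S : Set Ω)) =
      M ⊔ IntermediateField.adjoin k (S : Set Ω) :=
  hen_alg h hM le_sup_left (isAlgebraic_sup _ fun s hs => (hS s hs).isIntegral.isAlgebraic)

omit [IsAlgClosed Ω] in
/-- finite level of an element -/
theorem exists_fin {E T : IntermediateField k Ω} {a : Ω} (ha : a ∈ E ⊔ T) :
    ∃ S : Finset Ω, (∀ s ∈ S, s ∈ T) ∧ a ∈ E ⊔ IntermediateField.adjoin k (S : Set Ω) := by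
  classical
  have h1 : a ∈ IntermediateField.adjoin k ((E : Set Ω) ∪ (T : Set Ω)) := by
    rw [IntermediateField.adjoin_union, IntermediateField.adjoin_self, IntermediateField.adjoin_self]
    exact ha
  obtain ⟨U, hU, haU⟩ := IntermediateField.exists_finset_of_mem_adjoin h1
  refine ⟨U.filter (· ∈ T), fun s hs => (Finset.mem_filter.1 hs).2, ?_⟩
  refine (IntermediateField.adjoin_le_iff.2 fun u hu => ?_ :
    IntermediateField.adjoin k (U : Set Ω) ≤ _) haU
  rcases hU hu with h2 | h2
  · exact (le_sup_left : E ≤ _) h2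
  · exact (le_sup_right : IntermediateField.adjoin k _ ≤ _)
      (IntermediateField.subset_adjoin _ _ (Finset.mem_coe.2 (Finset.mem_filter.2 ⟨hu, h2⟩)))

omit [IsAlgClosed Ω] in
theorem exists_fin' {ι : Type*} {E T : IntermediateField k Ω} (A : Finset ι) (f : ι → Ω)
    (ha : ∀ i ∈ A, f i ∈ E ⊔ T) :
    ∃ S : Finset Ω, (∀ s ∈ S, s ∈ T) ∧
      ∀ i ∈ A, f i ∈ E ⊔ IntermediateField.adjoin k (S : Set Ω) := by
  classical
  induction A using Finset.induction_on with
  | empty => exact ⟨∅, by simp, by simp⟩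
  | insert i A hi ih =>
    obtain ⟨S, hS, h1⟩ := ih fun j hj => ha j (Finset.mem_insert_of_mem hj)
    obtain ⟨S', hS', h2⟩ := exists_fin (ha i (Finset.mem_insert_self i A))
    have hle : ∀ {U U' : Finset Ω}, U ⊆ U' → E ⊔ IntermediateField.adjoin k (U : Set Ω) ≤
        E ⊔ IntermediateField.adjoin k (U' : Set Ω) := fun hU =>
      sup_le_sup_left (IntermediateField.adjoin.mono _ _ _ (Finset.coe_subset.2 hU)) _
    refine ⟨S ∪ S', ?_, ?_⟩
    · intro s hs
      rcases Finset.mem_union.1 hs with h3 | h3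
      · exact hS s h3
      · exact hS' s h3
    · intro j hj
      rcases Finset.mem_insert.1 hj with rfl | h3
      · exact hle Finset.subset_union_right h2
      · exact hle Finset.subset_union_left (h1 j h3)

omit [IsAlgClosed Ω] in
theorem exists_bound {B : IntermediateField k Ω} (f : B[X]) (hf0 : f ≠ 0) (a : Ω) :
    ∃ C : ℝ, ∀ a' : Ω, aeval a' f = 0 → v (a - a') < C := by
  have hfin : (f.rootSet Ω).Finite := Set.toFinite _
  obtain ⟨C, hC⟩ := (hfin.image fun a' => v (a - a')).bddAbove
  refine ⟨C + 1, fun a' ha' => ?_⟩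
  have := hC ⟨a', (mem_rootSet.2 ⟨hf0, ha'⟩), rfl⟩
  linarith

/-- finite level -/
theorem hen_fin (h : Ctx0 k v) (E T : IntermediateField k Ω)
    {a : Ω} (ha : a ∈ hen v (E ⊔ T)) :
    ∃ S : Finset Ω, (∀ s ∈ S, s ∈ T) ∧ a ∈ hen v (E ⊔ IntermediateField.adjoin k (S : Set Ω)) := by
  classical
  obtain ⟨hcl, hsep⟩ := mem_hen.1 ha
  set B := E ⊔ T with hB
  have hint : IsIntegral B a := hsep.isIntegral
  set f := minpoly B a with hf
  have hf0 : f ≠ 0 := minpoly.ne_zero hint
  -- a bound for the distances of the conjugates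
  obtain ⟨C, hC⟩ := exists_bound (v := v) f hf0 a
  obtain ⟨a₀, h0, h1⟩ := hcl C
  -- the finite level
  obtain ⟨S, hS, h2⟩ := exists_fin' (E := E) (T := T) (insert none (f.support.image some))
    (fun i : Option ℕ => match i with
      | none => a₀
      | some i => ((f.coeff i : B) : Ω)) (by
      intro i _
      cases i with
      | none => exact h0
      | some i => exact (f.coeff i).2)
  refine ⟨S, hS, ?_⟩
  set F := E ⊔ IntermediateField.adjoin k (S : Set Ω) with hF
  have ha₀F : a₀ ∈ F := h2 none (Finset.mem_insert_self _ _)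
  set M := hen v F with hMdef
  have hM : hen v M = M := hen_hen _
  have hFM : F ≤ M := le_hen _
  have hFB : F ≤ B := sup_le_sup_left (IntermediateField.adjoin_le_iff.2 fun s hs => hS s hs) _
  -- the polynomial over `M`
  have hcoef : ∀ i, ((f.coeff i : B) : Ω) ∈ F := by
    intro i
    by_cases hi : i ∈ f.support
    · exact h2 (some i) (Finset.mem_insert_of_mem (Finset.mem_image_of_mem _ hi))
    · rw [notMem_support_iff.1 hi, ZeroMemClass.coe_zero]
      exact F.zero_mem
  have hlift : f.map (algebraMap B Ω) ∈ Polynomial.lifts (algebraMap F Ω) := by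
    rw [Polynomial.lifts_iff_coeff_lifts]
    intro i
    rw [coeff_map]
    exact ⟨⟨_, hcoef i⟩, rfl⟩
  obtain ⟨g, hg⟩ := hlift
  have hg' : g.map (algebraMap F Ω) = f.map (algebraMap B Ω) := hg
  have hroot : ∀ x : Ω, aeval x g = aeval x f := fun x => by
    rw [aeval_def, aeval_def, eval₂_eq_eval_map, eval₂_eq_eval_map, hg']
  have hgsep : g.Separable := by
    have h3 : (f.map (algebraMap B Ω)).Separable := Polynomial.Separable.map hsep
    rw [← hg'] at h3
    exact (separable_map (algebraMap F Ω)).1 h3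
  have hga : aeval a g = 0 := by rw [hroot, hf, minpoly.aeval]
  have haF : IsSeparable F a := hgsep.of_dvd (minpoly.dvd _ _ hga)
  have haM : IsSeparable M a := isSeparable_mono hFM haF
  have h4 := krasner h hM haM (b := a₀) fun a' ha' _ hne => by
    have h5 : aeval a' (minpoly F a) = 0 := aeval_minpoly_mono hFM ha'
    have h6 : aeval a' f = 0 := by
      rw [← hroot]
      obtain ⟨r, hr⟩ := minpoly.dvd F a hga
      rw [hr, map_mul, h5, zero_mul]
    exact (hC a' h6).trans_le (h1 (sub_ne_zero.2 hne))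
  have h7 : hen v (adj M a₀) ≤ M := hen_le hM (adj_le le_rfl (hFM ha₀F))
  exact h7 h4

/-- the same for finitely many elements -/
theorem hen_fin' (h : Ctx0 k v) (E T : IntermediateField k Ω) (A : Finset Ω)
    (hA : ∀ a ∈ A, a ∈ hen v (E ⊔ T)) :
    ∃ S : Finset Ω, (∀ s ∈ S, s ∈ T) ∧
      ∀ a ∈ A, a ∈ hen v (E ⊔ IntermediateField.adjoin k (S : Set Ω)) := by
  classical
  induction A using Finset.induction_on with
  | empty => exact ⟨∅, by simp, by simp⟩
  | insert i A hi ih =>
    obtain ⟨S, hS, h1⟩ := ih fun j hj => hA j (Finset.mem_insert_of_mem hj)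
    obtain ⟨S', hS', h2⟩ := hen_fin h E T (hA i (Finset.mem_insert_self i A))
    have hle : ∀ {U U' : Finset Ω}, U ⊆ U' → hen v (E ⊔ IntermediateField.adjoin k (U : Set Ω)) ≤
        hen v (E ⊔ IntermediateField.adjoin k (U' : Set Ω)) := fun hU =>
      hen_mono (sup_le_sup_left (IntermediateField.adjoin.mono _ _ _ (Finset.coe_subset.2 hU)) _)
    refine ⟨S ∪ S', ?_, ?_⟩
    · intro s hs
      rcases Finset.mem_union.1 hs with h3 | h3
      · exact hS s h3
      · exact hS' s h3
    · intro j hj
      rcases Finset.mem_insert.1 hj with rfl | h3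
      · exact hle Finset.subset_union_right h2
      · exact hle Finset.subset_union_left (h1 j h3)

/-- Artin-Schreier form of Hensel's lemma -/
theorem exists_as (p : ℕ) (hp : p.Prime) [CharP k p] (h : Ctx0 k v)
    {M : IntermediateField k Ω} (hM : hen v M = M) {u : Ω}
    (hu : u ∈ M) (hpos : VPos v u) : ∃ m ∈ M, m ^ p - m = u := by
  have _ : Fact p.Prime := ⟨hp⟩
  have _ : CharP Ω p := charP_big (k := k) p
  have hp1 : (1 : ℝ) < p := by exact_mod_cast hp.one_lt
  -- a root
  obtain ⟨r, hr⟩ : ∃ r : Ω, r ^ p - r = u := by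
    have hdeg : (X ^ p - X - C u : Polynomial Ω).degree ≠ 0 := by
      have h1 : (X ^ p - X - C u : Polynomial Ω).natDegree = p := by
        have h2 : (X + C u : Polynomial Ω).degree < (X ^ p : Polynomial Ω).degree := by
          rw [degree_X_add_C, degree_X_pow]
          exact_mod_cast hp.one_lt
        rw [sub_sub, natDegree_sub_eq_left_of_natDegree_lt, natDegree_X_pow]
        rw [natDegree_X_add_C, natDegree_X_pow]
        exact hp.one_lt
      intro h3
      have h4 := natDegree_eq_of_degree_eq_some h3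
      rw [h1] at h4
      exact hp.ne_zero h4
    obtain ⟨r, hr⟩ := IsAlgClosed.exists_root _ hdeg
    refine ⟨r, ?_⟩
    simp only [IsRoot.def, eval_sub, eval_pow, eval_X, eval_C] at hr
    linear_combination hr
  have hr0 : v.Ge 0 r := by
    intro hne
    by_contra hlt
    push Not at hlt
    have h1 : v.Ge (v r) (r + u) :=
      (RVal.ge_self r).add fun hu0 => hlt.le.trans (hpos hu0).le
    have h2 : r ^ p = r + u := by linear_combination hr
    have h3 := h1 (by rw [← h2]; exact pow_ne_zero _ hne)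
    rw [← h2, v.map_pow hne] at h3
    nlinarith
  obtain ⟨c, hc⟩ := h.residue hr0
  set m := r - algebraMap k Ω c with hm
  have hmp : m ^ p = r ^ p - algebraMap k Ω (c ^ p) := by
    rw [hm, sub_pow_char, map_pow]
  have hcc : c ^ p - c = 0 := by
    apply h.const_eq_zero
    have h1 : algebraMap k Ω (c ^ p - c) = u + m - m ^ (p - 1) * m := by
      rw [← pow_succ, Nat.sub_add_cancel hp.one_le, hmp, map_sub]
      linear_combination hr - hm
    rw [h1]
    refine (hpos.add hc).sub (LU1.VPos.mul' ?_ hc)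
    have h2 : ∀ n : ℕ, v.Ge 0 (m ^ n) := by
      intro n hn
      by_cases hm0 : m = 0
      · rcases Nat.eq_zero_or_pos n with h3 | h3
        · subst h3
          rw [pow_zero, v.map_one]
        · rw [hm0, zero_pow h3.ne'] at hn
          exact absurd rfl hn
      · rw [v.map_pow hm0]
        have := hc hm0
        positivity
    exact h2 _
  have hmu : m ^ p - m = u := by
    rw [hmp, show c ^ p = c from sub_eq_zero.1 hcc]
    linear_combination hr - hm
  refine ⟨m, ?_, hmu⟩
  by_cases hm0 : m = 0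
  · rw [hm0]
    exact M.zero_mem
  refine mem_of_alone h hM (X ^ p - X - C (⟨u, hu⟩ : M)) (c := 0) M.zero_mem ?_ ?_ ?_
  · rw [map_sub, map_sub, map_pow, aeval_X, aeval_C]
    show m ^ p - m - u = 0
    rw [hmu, sub_self]
  · have _ : CharP M p := charP_field p M
    have h1 : derivative (X ^ p - X - C (⟨u, hu⟩ : M)) = -1 := by
      rw [derivative_sub, derivative_sub, derivative_X_pow, derivative_X, derivative_C,
        CharP.cast_eq_zero M p, C_0]
      ring
    rw [h1, map_neg, map_one]
    exact neg_ne_zero.2 one_ne_zero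
  · intro b hb hb0 hbv
    rw [sub_zero, sub_zero] at hbv
    rw [map_sub, map_sub, map_pow, aeval_X, aeval_C] at hb
    have hb1 : b ^ p - b - u = 0 := hb
    by_contra hne
    have hbm : b - m ≠ 0 := sub_ne_zero.2 hne
    have h1 : (b - m) ^ p = b - m := by
      rw [sub_pow_char]
      linear_combination hb1 - hmu
    have h2 : VPos v (b - m) := by
      refine LU1.VPos.sub (fun _ => ?_) hc
      rw [hbv]
      exact hc hm0
    have h3 : v ((b - m) ^ p) = v (b - m) := by rw [h1]
    rw [v.map_pow hbm] at h3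
    have h4 := h2 hbm
    nlinarith

end

end Pool.Agent.D2P
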