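import Pool.Agent.Lib.D2P.TTP
import Pool.Agent.Lib.D2P.H4b
import Pool.Agent.Lib.D2P.R0
import Pool.Agent.Lib.D2P.H2

/-!
# D2P, H5: the index one dominates in the normal form, or the right side is invisible
-/

set_option autoImplicit false

open Polynomial

namespace Pool.Agent.D2P

open Pool.Agent.H15JM (RVal)
open Pool.Agent.LU1 (VPos adj)
open Pool.Agent.LUC (Cl clF)
open Pool.Agent.D2 (Ctx0 Star Near al Ev sum_min natU_of_triv)

universe u

section H5

variable {k Ω : Type u} [Field k] [Field Ω] [Algebra k Ω] {v : RVal Ω}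

theorem TT.star {T : IntermediateField k Ω} {z : Ω} (hz : TT v T z) : Star T v z :=
  ⟨fun ψ => hz.ne_mem ψ.2, fun ψ => by
    obtain ⟨c', hc', h⟩ := hz.exists_nearer ψ.2
    exact ⟨⟨c', hc'⟩, h⟩⟩

/-- The coefficients of the normal form have constant value near `z`. -/
theorem nfB_val [IsAlgClosed Ω] (p : ℕ) [Fact p.Prime] (T : IntermediateField k Ω)
    [CharP T p] [PerfectRing T p] {z : Ω} (hz : TT v T z) (F : T[X]) {j : ℕ} (hj : 0 < j) :
    (∀ ψ : T, nfB p F ψ j = 0) ∨ ∃ β : ℝ, Ev v z fun ψ : T =>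
      nfB p F ψ j ≠ 0 ∧ v ((nfB p F ψ j : T) : Ω) = β := by
  have hp0 : p ≠ 0 := (Fact.out : p.Prime).ne_zero
  obtain ⟨e, B, hB⟩ := nfB_pow p F hj
  by_cases hB0 : B = 0
  · left
    intro ψ
    have h1 := hB ψ
    rw [hB0, eval_zero] at h1
    exact pow_eq_zero_iff (pow_ne_zero e hp0) |>.mp h1
  · right
    obtain ⟨-, c₀, hc₀, h1⟩ := hz.val_eq B hB0
    refine ⟨v (aeval z B) / (p ^ e : ℕ), ?_⟩
    obtain ⟨c₁, hc₁, h2⟩ := hz.exists_nearer hc₀
    refine ⟨⟨c₁, hc₁⟩, fun ψ hψ => ?_⟩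
    have h3 : v (z - c₀) < v (z - ψ) := lt_of_lt_of_le h2 hψ
    obtain ⟨h4, h5⟩ := h1 ψ h3
    have h6 : aeval ((ψ : T) : Ω) B = ((nfB p F ψ j : T) : Ω) ^ p ^ e := by
      have h7 : aeval ((ψ : T) : Ω) B = ((B.eval ψ : T) : Ω) :=
        aeval_algebraMap_apply Ω ψ B
      rw [h7, ← hB ψ]
      push_cast
      rfl
    rw [h6] at h4 h5
    have h8 : ((nfB p F ψ j : T) : Ω) ≠ 0 := fun h0 => h4 (by
      rw [h0, zero_pow (pow_ne_zero e hp0)])
    refine ⟨fun h0 => h8 (by rw [h0]; rfl), ?_⟩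
    rw [v.map_pow h8] at h5
    have h9 : ((p ^ e : ℕ) : ℝ) ≠ 0 := by
      exact_mod_cast pow_ne_zero e hp0
    rw [eq_div_iff h9, mul_comm]
    exact h5

theorem aeval_nf (p : ℕ) [Fact p.Prime] (T : IntermediateField k Ω)
    [CharP T p] [PerfectRing T p] (z : Ω) (F : T[X]) (ψ : T) :
    aeval z (nf p F ψ) = ((F.eval ψ : T) : Ω) +
      ∑ j ∈ (Finset.range (F.natDegree + 1)).filter (fun j => ¬ p ∣ j),
        ((nfB p F ψ j : T) : Ω) * (z - ψ) ^ j := by
  rw [nf, map_add, map_sum, aeval_C]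
  congr 1
  refine Finset.sum_congr rfl fun j _ => ?_
  rw [map_mul, aeval_C, map_pow, map_sub, aeval_X, aeval_C]
  rfl

/-- H5: the index one dominates in the normal form, or the right side is invisible. -/
theorem index_one [IsAlgClosed Ω] (p : ℕ) [Fact p.Prime] [CharP k p]
    (h : Ctx0 k v) (T : IntermediateField k Ω) [CharP T p] [PerfectRing T p]
    {z : Ω} (hz : TT v T z) (F : T[X])
    (hF : ¬ ∃ m ∈ hen v (adj T z), ∃ t ∈ T, aeval z F = m ^ p - m + t) :
    ∃ ψ : T, nfB p F ψ 1 ≠ 0 ∧ ∀ j : ℕ, 1 < j → ¬ p ∣ j → nfB p F ψ j ≠ 0 →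
      v ((nfB p F ψ 1 : T) : Ω) + v (z - ψ) < v ((nfB p F ψ j : T) : Ω) + j * v (z - ψ) := by
  classical
  have hp : p.Prime := Fact.out
  have _ : CharP Ω p := charP_big (k := k) p
  have hs : Star T v z := hz.star
  have hk : D2.NatU v := natU_of_triv (k := k) h.triv
  have hMh : hen v (hen v (adj T z)) = hen v (adj T z) := hen_hen (adj T z)
  have hTM : ∀ t : T, (t : Ω) ∈ hen v (adj T z) := fun t =>
    le_hen (adj T z) ((mem_adj_self T z).2 t.2)
  have hzM : z ∈ hen v (adj T z) := le_hen (adj T z) (mem_adj_self T z).1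
  -- the sum
  set S : T → Ω := fun ψ => ∑ j ∈ (Finset.range (F.natDegree + 1)).filter (fun j => ¬ p ∣ j),
    ((nfB p F ψ j : T) : Ω) * (z - ψ) ^ j with hS
  have hSM : ∀ ψ, S ψ ∈ hen v (adj T z) := fun ψ => by
    refine (hen v (adj T z)).sum_mem fun j _ => ?_
    exact (hen v (adj T z)).mul_mem (hTM _)
      (pow_mem ((hen v (adj T z)).sub_mem hzM (hTM ψ)) j)
  have haeM : ∀ Q : T[X], aeval z Q ∈ hen v (adj T z) := fun Q => by
    rw [aeval_eq_sum_range]
    refine (hen v (adj T z)).sum_mem fun i _ => ?_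
    rw [Algebra.smul_def]
    exact (hen v (adj T z)).mul_mem (hTM _) (pow_mem hzM i)
  have hneg : ∀ ψ, ¬ VPos v (S ψ) := by
    intro ψ hpos
    obtain ⟨m, hm, hme⟩ := exists_as p hp h hMh (hSM ψ) hpos
    obtain ⟨Q, hQ⟩ := nf_sub p F ψ
    have h1 : aeval z F = aeval z (nf p F ψ) + (aeval z Q ^ p - aeval z Q) := by
      have h2 := congrArg (aeval z) hQ
      rw [map_sub, map_sub, map_pow] at h2
      linear_combination h2
    refine hF ⟨aeval z Q + m, (hen v (adj T z)).add_mem (haeM Q) hm, _, (F.eval ψ).2, ?_⟩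
    rw [h1, aeval_nf, add_pow_char]
    have h3 : S ψ = m ^ p - m := hme.symm
    rw [hS] at h3
    simp only at h3
    linear_combination h3
  -- the indices
  set J : Finset ℕ := (Finset.range (F.natDegree + 1)).filter
    (fun j => ¬ p ∣ j ∧ ¬ ∀ ψ : T, nfB p F ψ j = 0) with hJ
  have hJpos : ∀ j ∈ J, 0 < j := by
    intro j hj
    rcases Nat.eq_zero_or_pos j with h0 | h0
    · exact absurd (h0 ▸ dvd_zero p) (Finset.mem_filter.mp hj).2.1
    · exact h0
  have hβ' : ∀ j : ℕ, ∃ β : ℝ, j ∈ J → Ev v z fun ψ : T =>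
      nfB p F ψ j ≠ 0 ∧ v ((nfB p F ψ j : T) : Ω) = β := by
    intro j
    by_cases hj : j ∈ J
    · rcases nfB_val p T hz F (hJpos j hj) with h1 | ⟨β, h1⟩
      · exact absurd h1 (Finset.mem_filter.mp hj).2.2
      · exact ⟨β, fun _ => h1⟩
    · exact ⟨0, fun h1 => absurd h1 hj⟩
  choose β hβ using hβ'
  have hmemJ : ∀ (j : ℕ) (ψ : T), ¬ p ∣ j → nfB p F ψ j ≠ 0 → j ∈ J := by
    intro j ψ h1 h2
    refine Finset.mem_filter.mpr ⟨Finset.mem_range.mpr ?_, h1, fun h3 => h2 (h3 ψ)⟩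
    by_contra h3
    exact h2 (nfB_eq_zero p F ψ (by omega))
  have hSJ : ∀ ψ, S ψ = ∑ j ∈ J, ((nfB p F ψ j : T) : Ω) * (z - ψ) ^ j := by
    intro ψ
    symm
    refine Finset.sum_subset (fun j hj => ?_) (fun j hj hj' => ?_)
    · exact Finset.mem_filter.mpr ⟨(Finset.mem_filter.mp hj).1, (Finset.mem_filter.mp hj).2.1⟩
    · by_cases h0 : nfB p F ψ j = 0
      · rw [h0]
        exact zero_mul _
      · exact absurd (hmemJ j ψ (Finset.mem_filter.mp hj).2 h0) hj'
  have hJne : J.Nonempty := by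
    by_contra h0
    rw [Finset.not_nonempty_iff_eq_empty] at h0
    refine hneg 0 ?_
    rw [hSJ, h0, Finset.sum_empty]
    exact LU1.VPos.zero
  obtain ⟨j₀, hj₀, hmin⟩ := hs.argmin (S := J) hJne (a := β) (b := fun j => (j : ℝ))
    (fun i _ j _ hij h1 => hij (by exact_mod_cast h1))
  -- the common neighbourhood
  have hEv : Ev v z fun ψ : T => (∀ j ∈ J, nfB p F ψ j ≠ 0 ∧ v ((nfB p F ψ j : T) : Ω) = β j) ∧
      ∀ j ∈ J, (j ≠ j₀ → β j₀ + j₀ * al v z ψ < β j + j * al v z ψ) := by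
    refine (Ev.all J fun j hj => hβ j hj).and (Ev.all J fun j hj => ?_)
    by_cases h1 : j = j₀
    · exact Ev.of_forall fun ψ h2 => absurd h1 h2
    · exact (hmin j hj h1).mono fun ψ h2 _ => h2
  obtain ⟨ψ₀, hψ₀⟩ := hEv
  have hle : ∀ ψ : T, al v z ψ₀ ≤ al v z ψ → β j₀ + j₀ * al v z ψ ≤ 0 := by
    intro ψ hψ
    obtain ⟨h1, h2⟩ := hψ₀ ψ hψ
    by_contra h3
    push Not at h3
    refine hneg ψ ?_
    rw [hSJ]
    refine Finset.sum_induction _ (fun x => VPos v x) (fun a b ha hb => ha.add hb) LU1.VPos.zero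
      fun j hj hne => ?_
    have h4 := left_ne_zero_of_mul hne
    have h5 := right_ne_zero_of_mul hne
    rw [v.map_mul h4 h5, v.map_pow (hz.ne_mem ψ.2), (h1 j hj).2]
    have h6 : v (z - ψ) = al v z ψ := rfl
    rw [h6]
    by_cases h7 : j = j₀
    · rw [h7]
      exact h3
    · exact h3.trans (h2 j hj h7)
  have hlt : ∀ ψ : T, al v z ψ₀ ≤ al v z ψ → β j₀ + j₀ * al v z ψ < 0 := by
    intro ψ hψ
    obtain ⟨ψ', hψ'⟩ := hs.nomax ψ
    have h1 := hle ψ' (hψ.trans hψ'.le)
    have h2 : (0 : ℝ) < j₀ := by exact_mod_cast hJpos j₀ hj₀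
    nlinarith
  rcases Nat.lt_or_ge 1 j₀ with hj1 | hj1
  · exfalso
    -- the key computation
    have key : ∀ ψ₁ : T, al v z ψ₀ ≤ al v z ψ₁ →
        1 ∈ J ∧ β 1 = β j₀ + (j₀ - 1) * al v z ψ₁ := by
      intro ψ₁ hψ₁
      obtain ⟨hA, hB⟩ := hψ₀ ψ₁ hψ₁
      obtain ⟨ψ₂, hψ₂⟩ := hs.nomax ψ₁
      obtain ⟨hA2, -⟩ := hψ₀ ψ₂ (hψ₁.trans hψ₂.le)
      set τ := al v z ψ₁ with hτ
      set x : T := ψ₂ - ψ₁ with hx
      have hx0 : (x : Ω) ≠ 0 ∧ v (x : Ω) = τ := by
        have h1 : (x : Ω) = (z - ψ₁) + -(z - ψ₂) := by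
          rw [hx]
          push_cast
          ring
        have h2 := v.add_of_lt (hs.ne ψ₁) (neg_ne_zero.mpr (hs.ne ψ₂))
          (by rw [v.map_neg _ (hs.ne ψ₂)]; exact hψ₂)
        rw [h1]
        exact h2
      set G := nf p F ψ₁ with hG
      -- the Taylor coefficients of `G` at `ψ₂`
      set H := taylor ψ₁ G with hH
      have hT : taylor ψ₂ G = taylor x H := by
        have h1 : x + ψ₁ = ψ₂ := by rw [hx, sub_add_cancel]
        rw [hH, taylor_taylor, h1]
      have hco : ∀ l : ℕ, 0 < l → ((((taylor ψ₂ G).coeff l : T)) : Ω)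
          = ∑ j ∈ J, ((j.choose l : ℕ) : Ω) * (((nfB p F ψ₁ j : T) : Ω) * (x : Ω) ^ (j - l)) := by
        intro l hl
        have h1 : (taylor ψ₂ G).coeff l
            = ∑ j ∈ Finset.range (max H.natDegree F.natDegree + 1),
              ((j.choose l : ℕ) : T) * (H.coeff j * x ^ (j - l)) := by
          rw [hT, taylor_coeff, hasseDeriv_apply, sum_over_range' _ _
            (max H.natDegree F.natDegree + 1) (Nat.lt_succ_of_le (le_max_left _ _)),
            eval_finsetSum]
          · refine Finset.sum_congr rfl fun j _ => ?_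
            rw [eval_monomial]
            ring
          · intro n
            rw [mul_zero, monomial_zero_right]
        have h2 : ∀ j ∈ J, H.coeff j = nfB p F ψ₁ j := by
          intro j hj
          rw [hH, hG, nf_coeff p F ψ₁ (hJpos j hj), if_neg (Finset.mem_filter.mp hj).2.1]
        have h3 : ∑ j ∈ Finset.range (max H.natDegree F.natDegree + 1),
              ((j.choose l : ℕ) : T) * (H.coeff j * x ^ (j - l))
            = ∑ j ∈ J, ((j.choose l : ℕ) : T) * (nfB p F ψ₁ j * x ^ (j - l)) := by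
          symm
          rw [Finset.sum_congr rfl fun j hj => by rw [← h2 j hj]]
          refine Finset.sum_subset (fun j hj => ?_) (fun j _ hj' => ?_)
          · have h2 := Finset.mem_range.mp (Finset.mem_filter.mp hj).1
            exact Finset.mem_range.mpr (by
              have := le_max_right H.natDegree F.natDegree
              omega)
          · rcases Nat.eq_zero_or_pos j with h0 | h0
            · rw [h0, Nat.choose_eq_zero_of_lt hl, Nat.cast_zero, zero_mul]
            · have h4 : H.coeff j = 0 := by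
                rw [hH, hG, nf_coeff p F ψ₁ h0]
                split_ifs with h5
                · rfl
                · by_contra h6
                  exact hj' (hmemJ j ψ₁ h5 h6)
              rw [h4, zero_mul, mul_zero]
        rw [h1, h3]
        push_cast
        rfl
      -- values
      have hterm : ∀ (j l : ℕ), j ∈ J → ((j.choose l : ℕ) : Ω) ≠ 0 →
          ((j.choose l : ℕ) : Ω) * (((nfB p F ψ₁ j : T) : Ω) * (x : Ω) ^ (j - l)) ≠ 0 ∧
          v (((j.choose l : ℕ) : Ω) * (((nfB p F ψ₁ j : T) : Ω) * (x : Ω) ^ (j - l)))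
            = β j + j * τ - l * τ := by
        intro j l hj hc
        have h1 : ((nfB p F ψ₁ j : T) : Ω) ≠ 0 := fun h0 => (hA j hj).1 (Subtype.ext h0)
        have h2 := pow_ne_zero (j - l) hx0.1
        have hjl : l ≤ j := by
          by_contra h3
          rw [Nat.choose_eq_zero_of_lt (by omega), Nat.cast_zero] at hc
          exact hc rfl
        refine ⟨mul_ne_zero hc (mul_ne_zero h1 h2), ?_⟩
        rw [v.map_mul hc (mul_ne_zero h1 h2), v.map_mul h1 h2, v.map_pow hx0.1, hx0.2, hk _ hc,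
          (hA j hj).2, Nat.cast_sub hjl]
        ring
      have hmu : ((((taylor ψ₂ G).coeff 1 : T)) : Ω) ≠ 0 ∧
          v ((((taylor ψ₂ G).coeff 1 : T)) : Ω) = β j₀ + (j₀ - 1) * τ := by
        rw [hco 1 one_pos]
        have hc : ∀ j ∈ J, ((j.choose 1 : ℕ) : Ω) ≠ 0 := by
          intro j hj
          rw [Nat.choose_one_right]
          intro h0
          exact (Finset.mem_filter.mp hj).2.1 ((CharP.cast_eq_zero_iff Ω p j).mp h0)
        have h1 := sum_min (v := v) (S := J) (x := fun j => ((j.choose 1 : ℕ) : Ω) *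
          (((nfB p F ψ₁ j : T) : Ω) * (x : Ω) ^ (j - 1))) hj₀ (hterm j₀ 1 hj₀ (hc j₀ hj₀)).1
          (fun j hj hne _ => by
            rw [(hterm j 1 hj (hc j hj)).2, (hterm j₀ 1 hj₀ (hc j₀ hj₀)).2]
            have := hB j hj hne
            linarith)
        refine ⟨h1.1, h1.2.trans ?_⟩
        rw [(hterm j₀ 1 hj₀ (hc j₀ hj₀)).2]
        push_cast
        ring
      have hge : ∀ l : ℕ, 0 < l → v.Ge (β j₀ + j₀ * τ - l * τ)
          ((((taylor ψ₂ G).coeff l : T)) : Ω) := by
        intro l hl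
        rw [hco l hl]
        refine RVal.Ge.sum _ _ fun j hj h0 => ?_
        have hc := left_ne_zero_of_mul h0
        rw [(hterm j l hj hc).2]
        by_cases h1 : j = j₀
        · rw [h1]
        · have := hB j hj h1
          linarith
      -- the coefficient `B_1` at `ψ₂`
      have hB1 : ((nfB p F ψ₂ 1 : T) : Ω) ≠ 0 ∧
          v ((nfB p F ψ₂ 1 : T) : Ω) = β j₀ + (j₀ - 1) * τ := by
        have h1 : nfB p F ψ₂ 1 = ∑ i ∈ Finset.range (G.natDegree + 1),
            (iterateFrobeniusEquiv T p i).symm ((taylor ψ₂ G).coeff (p ^ i * 1)) := by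
          rw [← nfB_nf p F ψ₁ ψ₂ one_pos (fun h0 => hp.one_lt.ne' (Nat.dvd_one.mp h0))]
          rfl
        have h2 : ((nfB p F ψ₂ 1 : T) : Ω) = ∑ i ∈ Finset.range (G.natDegree + 1),
            (((iterateFrobeniusEquiv T p i).symm ((taylor ψ₂ G).coeff (p ^ i * 1)) : T) : Ω) := by
          rw [h1]
          push_cast
          rfl
        have hpow : ∀ i : ℕ, (((iterateFrobeniusEquiv T p i).symm
            ((taylor ψ₂ G).coeff (p ^ i * 1)) : T) : Ω) ^ p ^ i
            = ((((taylor ψ₂ G).coeff (p ^ i) : T)) : Ω) := by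
          intro i
          have h3 := (iterateFrobeniusEquiv T p i).apply_symm_apply ((taylor ψ₂ G).coeff (p ^ i * 1))
          rw [iterateFrobeniusEquiv_apply, iterateFrobenius_def] at h3
          have h4 := congrArg (fun t : T => (t : Ω)) h3
          simp only [mul_one] at h4 ⊢
          rw [← h4]
          push_cast
          rfl
        have h0 : (((iterateFrobeniusEquiv T p 0).symm ((taylor ψ₂ G).coeff (p ^ 0 * 1)) : T) : Ω)
            = ((((taylor ψ₂ G).coeff 1 : T)) : Ω) := by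
          have := hpow 0
          rw [pow_zero, pow_one] at this
          exact this
        rw [h2]
        have h3 := sum_min (v := v) (S := Finset.range (G.natDegree + 1))
          (x := fun i => (((iterateFrobeniusEquiv T p i).symm
            ((taylor ψ₂ G).coeff (p ^ i * 1)) : T) : Ω)) (i₀ := 0)
          (Finset.mem_range.mpr (Nat.succ_pos _)) (by rw [h0]; exact hmu.1)
          (fun i _ hi hne => by
            rw [h0, hmu.2]
            have h4 := hpow i
            have h5 := hge (p ^ i) (pow_pos hp.pos i)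
            rw [← h4] at h5
            have h6 := h5 (pow_ne_zero _ hne)
            rw [v.map_pow hne] at h6
            push_cast at h6
            have h7 : (1 : ℝ) < (p : ℝ) ^ i := by
              exact_mod_cast one_lt_pow₀ hp.one_lt hi
            have h8 := hlt ψ₁ hψ₁
            rw [← hτ] at h8
            by_contra h9
            push Not at h9
            nlinarith [mul_le_mul_of_nonneg_left h9 (by linarith : (0 : ℝ) ≤ (p : ℝ) ^ i)])
        rw [h0, hmu.2] at h3
        exact h3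
      have h1J : 1 ∈ J := hmemJ 1 ψ₂ (fun h0 => hp.one_lt.ne' (Nat.dvd_one.mp h0))
        (fun h0 => hB1.1 (by rw [h0]; rfl))
      exact ⟨h1J, by rw [← (hA2 1 h1J).2]; exact hB1.2⟩
    obtain ⟨-, e1⟩ := key ψ₀ le_rfl
    obtain ⟨ψ', hψ'⟩ := hs.nomax ψ₀
    obtain ⟨-, e2⟩ := key ψ' hψ'.le
    have h1 : (0 : ℝ) < (j₀ : ℝ) - 1 := by
      have : (1 : ℝ) < j₀ := by exact_mod_cast hj1
      linarith
    nlinarith
  · have hj1' : j₀ = 1 := by
      have := hJpos j₀ hj₀
      omega
    subst hj1'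
    obtain ⟨hA, hB⟩ := hψ₀ ψ₀ le_rfl
    refine ⟨ψ₀, (hA 1 hj₀).1, fun j hj hpj hne => ?_⟩
    have h1 := hmemJ j ψ₀ hpj hne
    have h2 := hB j h1 (by omega)
    rw [(hA 1 hj₀).2, (hA j h1).2]
    have h6 : v (z - ψ₀) = al v z ψ₀ := rfl
    rw [h6]
    push_cast at h2
    linarith

end H5

end Pool.Agent.D2P
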