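import Pool.Agent.Lib.D2P.R0

/-! # D2P, H6: if the index one dominates then the root is a generator -/

set_option autoImplicit false

open Polynomial

namespace Pool.Agent.D2P

open Pool.Agent.H15JM (RVal)
open Pool.Agent.LU1 (VPos adj val_add_vpos)
open Pool.Agent.LUC (Cl clF)
open Pool.Agent.D2 (Ctx0)

universe u

variable {k Ω : Type u} [Field k] [Field Ω] [Algebra k Ω] {v : RVal Ω}

/-- `H(x) - H(y) = (x - y) D(x,y)`, `H'(y) = D(y,y)` and `D(x,y) ≠ 0` if the linear term
dominates and `x`, `y` have the value `A`. -/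
theorem dd_ne_zero {T : IntermediateField k Ω} (H : T[X]) {A : ℝ} (h1 : H.coeff 1 ≠ 0)
    (hdom : ∀ j : ℕ, 1 < j → H.coeff j ≠ 0 →
      v ((H.coeff 1 : T) : Ω) + A < v ((H.coeff j : T) : Ω) + j * A) {x y : Ω} (hx : x ≠ 0)
    (hy : y ≠ 0) (hxA : v x = A) (hyA : v y = A) :
    ∑ j ∈ Finset.range (H.natDegree + 1), ((H.coeff j : T) : Ω) *
      ∑ i ∈ Finset.range j, x ^ i * y ^ (j - 1 - i) ≠ 0 := by
  have hb1 : ((H.coeff 1 : T) : Ω) ≠ 0 := by
    intro h0
    exact h1 (Subtype.ext h0)
  have hdeg : 1 ≤ H.natDegree := le_natDegree_of_ne_zero h1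
  set f : ℕ → Ω := fun j => ((H.coeff j : T) : Ω) *
      ∑ i ∈ Finset.range j, x ^ i * y ^ (j - 1 - i) with hf
  have hf1 : f 1 = ((H.coeff 1 : T) : Ω) := by
    rw [hf]
    simp
  have hmem : 1 ∈ Finset.range (H.natDegree + 1) := Finset.mem_range.2 (by omega)
  have hpos : ∀ j ∈ (Finset.range (H.natDegree + 1)).erase 1,
      VPos v (f j / ((H.coeff 1 : T) : Ω)) := by
    intro j hj
    obtain ⟨hj1, -⟩ := Finset.mem_erase.1 hj
    by_cases hj0 : j = 0
    · subst hj0
      have : f 0 = 0 := by
        rw [hf]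
        simp
      rw [this, zero_div]
      exact VPos.zero
    have hj2 : 1 < j := by omega
    by_cases hc : H.coeff j = 0
    · have : f j = 0 := by
        rw [hf]
        show ((H.coeff j : T) : Ω) * _ = 0
        rw [hc]
        simp
      rw [this, zero_div]
      exact VPos.zero
    have hcj : ((H.coeff j : T) : Ω) ≠ 0 := fun h0 => hc (Subtype.ext h0)
    have hd := hdom j hj2 hc
    have h2 : f j / ((H.coeff 1 : T) : Ω) = ∑ i ∈ Finset.range j,
        ((H.coeff j : T) : Ω) / ((H.coeff 1 : T) : Ω) * (x ^ i * y ^ (j - 1 - i)) := by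
      rw [← Finset.mul_sum, hf]
      ring
    rw [h2]
    refine Finset.sum_induction _ (VPos v) (fun _ _ => LU1.VPos.add) LU1.VPos.zero ?_
    intro i hi
    rw [Finset.mem_range] at hi
    intro _
    rw [v.map_mul (div_ne_zero hcj hb1) (mul_ne_zero (pow_ne_zero _ hx) (pow_ne_zero _ hy)),
      v.map_div hcj hb1, v.map_mul (pow_ne_zero _ hx) (pow_ne_zero _ hy), v.map_pow hx,
      v.map_pow hy, hxA, hyA]
    have h3 : ((j - 1 - i : ℕ) : ℝ) = (j : ℝ) - 1 - i := by
      rw [Nat.cast_sub (by omega), Nat.cast_sub (by omega), Nat.cast_one]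
    rw [h3]
    have h4 : (i : ℝ) * A + ((j : ℝ) - 1 - i) * A = j * A - A := by ring
    rw [h4]
    linarith
  have hsum : (∑ j ∈ Finset.range (H.natDegree + 1), f j) / ((H.coeff 1 : T) : Ω) =
      1 + ∑ j ∈ (Finset.range (H.natDegree + 1)).erase 1, f j / ((H.coeff 1 : T) : Ω) := by
    rw [Finset.sum_div, ← Finset.add_sum_erase _ _ hmem, hf1, div_self hb1]
  have h5 := (val_add_vpos (v := v) one_ne_zero v.map_one
    (Finset.sum_induction _ (VPos v) (fun _ _ => LU1.VPos.add) LU1.VPos.zero hpos)).1
  rw [← hsum] at h5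
  intro h0
  apply h5
  rw [h0, zero_div]

theorem aeval_sum' {T : IntermediateField k Ω} (H : T[X]) (x : Ω) :
    aeval x H = ∑ j ∈ Finset.range (H.natDegree + 1), ((H.coeff j : T) : Ω) * x ^ j := by
  rw [aeval_eq_sum_range]
  rfl

theorem aeval_sub_aeval {T : IntermediateField k Ω} (H : T[X]) (x y : Ω) :
    aeval x H - aeval y H = (∑ j ∈ Finset.range (H.natDegree + 1), ((H.coeff j : T) : Ω) *
      ∑ i ∈ Finset.range j, x ^ i * y ^ (j - 1 - i)) * (x - y) := by
  rw [aeval_sum', aeval_sum', ← Finset.sum_sub_distrib, Finset.sum_mul]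
  refine Finset.sum_congr rfl fun j _ => ?_
  rw [mul_assoc, geom_sum₂_mul]
  ring

theorem aeval_derivative' {T : IntermediateField k Ω} (H : T[X]) (y : Ω) :
    aeval y (derivative H) = ∑ j ∈ Finset.range (H.natDegree + 1), ((H.coeff j : T) : Ω) *
      ∑ i ∈ Finset.range j, y ^ i * y ^ (j - 1 - i) := by
  conv_lhs => rw [as_sum_range_C_mul_X_pow H]
  rw [derivative_sum, map_sum]
  refine Finset.sum_congr rfl fun j _ => ?_
  rw [derivative_C_mul_X_pow, map_mul, aeval_C, map_pow, aeval_X, map_mul, map_natCast, mul_assoc]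
  have h1 : ∑ i ∈ Finset.range j, y ^ i * y ^ (j - 1 - i) = (j : Ω) * y ^ (j - 1) := by
    rw [Finset.sum_congr rfl (g := fun _ => y ^ (j - 1)) (fun i hi => by
      rw [← pow_add]
      congr 1
      rw [Finset.mem_range] at hi
      omega), Finset.sum_const, Finset.card_range, nsmul_eq_mul]
  rw [h1]
  rfl

/-- H6: if the index one dominates, the root is a generator. -/
theorem as_generator [IsAlgClosed Ω] (p : ℕ) (hp : p.Prime) [CharP k p] (h : Ctx0 k v)
    (T : IntermediateField k Ω) {z η : Ω} (hz : Transcendental T z) (G : T[X]) (ψ : T)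
    (hη : η ^ p - η = aeval z G) (h1 : (taylor ψ G).coeff 1 ≠ 0)
    (hdom : ∀ j : ℕ, 1 < j → (taylor ψ G).coeff j ≠ 0 →
      v (((taylor ψ G).coeff 1 : T) : Ω) + v (z - ψ) <
        v (((taylor ψ G).coeff j : T) : Ω) + j * v (z - ψ)) :
    Transcendental T η ∧ hen v (adj T η) = adj (hen v (adj T z)) η := by
  set E : IntermediateField k Ω := hen v (adj T η) with hE
  have hEE : hen v E = E := hen_hen _
  have hTE : T ≤ E := (mem_adj_self T η).2.trans (le_hen _)
  have hηE : η ∈ E := le_hen _ (mem_adj_self T η).1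
  have hy0 : z - ψ ≠ 0 := by
    intro h0
    rw [sub_eq_zero] at h0
    apply hz
    rw [h0]
    exact isAlgebraic_algebraMap (R := T) ψ
  set H : T[X] := taylor ψ G with hH
  have hHz : aeval (z - ψ) H = aeval z G := by
    rw [hH, taylor_apply, aeval_comp, map_add, aeval_X, aeval_C]
    congr 1
    exact congrArg (fun w => aeval w) (sub_add_cancel z (ψ : Ω))
  let ι : T →+* E := (IntermediateField.inclusion hTE).toRingHom
  let c0 : E := ⟨η ^ p - η, sub_mem (pow_mem hηE p) hηE⟩
  let P : E[X] := H.map ι - C c0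
  have hPa : ∀ x : Ω, aeval x (H.map ι) = aeval x H := by
    intro x
    rw [aeval_def, eval₂_map]
    rfl
  have hP : ∀ x : Ω, aeval x P = aeval x H - (η ^ p - η) := by
    intro x
    show aeval x (H.map ι - C c0) = _
    rw [map_sub, aeval_C, hPa]
    rfl
  have hy : z - ψ ∈ E := by
    refine mem_of_alone h hEE P (c := 0) E.zero_mem ?_ ?_ ?_
    · rw [hP, hHz, hη, sub_self]
    · have h2 : aeval (z - ψ : Ω) (derivative P) = aeval (z - ψ : Ω) (derivative H) := by
        show aeval (z - ψ : Ω) (derivative (H.map ι - C c0)) = _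
        rw [derivative_sub, derivative_C, sub_zero, derivative_map, aeval_def, eval₂_map]
        rfl
      rw [h2, aeval_derivative']
      exact dd_ne_zero H h1 hdom hy0 hy0 rfl rfl
    · intro b hb hb0 hbv
      rw [sub_zero, sub_zero] at hbv
      rw [hP, hη, ← hHz, aeval_sub_aeval, mul_eq_zero] at hb
      rcases hb with hb | hb
      · exact absurd hb (dd_ne_zero H h1 hdom hb0 hy0 hbv rfl)
      · exact sub_eq_zero.1 hb
  have hzE : z ∈ E := by
    have := add_mem hy (hTE ψ.2)
    rwa [sub_add_cancel] at this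
  refine ⟨?_, ?_⟩
  · intro halg
    apply hz
    have h2 : ∀ a ∈ adj T η, IsAlgebraic T a := isAlgebraic_sup _ (by
      rintro s rfl
      exact halg)
    have h3 : IsAlgebraic (adj T η) z := (mem_hen.1 hzE).2.isIntegral.isAlgebraic
    let _ : Algebra T (adj T η) :=
      (IntermediateField.inclusion (mem_adj_self T η).2).toRingHom.toAlgebra
    have _ : IsScalarTower T (adj T η) Ω := IsScalarTower.of_algebraMap_eq fun _ => rfl
    have : Algebra.IsAlgebraic T (adj T η) := ⟨fun e => by
      have h4 := h2 e e.2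
      exact (isAlgebraic_algebraMap_iff (Subtype.val_injective : Function.Injective
        (algebraMap (adj T η) Ω))).1 h4⟩
    exact h3.restrictScalars T
  · set M : IntermediateField k Ω := hen v (adj T z) with hM
    have hMM : hen v M = M := hen_hen _
    have hTM : T ≤ M := (mem_adj_self T z).2.trans (le_hen _)
    have hzM : z ∈ M := le_hen _ (mem_adj_self T z).1
    have hGM : aeval z G ∈ M := by
      rw [aeval_sum']
      exact sum_mem fun i _ => mul_mem (hTM (G.coeff i).2) (pow_mem hzM i)
    have hsep : IsSeparable M η := by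
      have hcE : CharP M p := charP_field p M
      let t : M := ⟨η ^ p - η, by rw [hη]; exact hGM⟩
      let f : M[X] := X ^ p - X - C t
      have hf : aeval η f = 0 := by
        show aeval η (X ^ p - X - C t) = 0
        rw [map_sub, map_sub, map_pow, aeval_X, aeval_C]
        exact sub_self _
      have hd : derivative f = -1 := by
        show derivative (X ^ p - X - C t) = -1
        rw [derivative_sub, derivative_sub, derivative_X_pow, derivative_X, derivative_C,
          CharP.cast_eq_zero, map_zero, zero_mul, zero_sub, sub_zero]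
      have hs : f.Separable := by
        rw [separable_def, hd]
        exact isCoprime_one_right.neg_right
      exact hs.of_dvd (minpoly.dvd M η hf)
    apply le_antisymm
    · refine hen_le (hen_adj h hMM hsep) (adj_le (hTM.trans (mem_adj_self M η).2)
        (mem_adj_self M η).1)
    · refine adj_le ?_ hηE
      rw [hM]
      exact hen_le hEE (adj_le hTE hzE)

end Pool.Agent.D2P
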