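import Pool.Agent.Lib.D2P.ADefs

/-!
# D2P, row TTP: polynomials at an element of transcendental type
-/

set_option autoImplicit false

open Polynomial

namespace Pool.Agent.D2P

open Pool.Agent.H15JM (RVal)
open Pool.Agent.LU1 (VPos adj)
open Pool.Agent.LUC (Cl clF)

universe u

variable {k Ω : Type u} [Field k] [Field Ω] [Algebra k Ω] {v : RVal Ω}

theorem TT.ne {T : IntermediateField k Ω} {z : Ω} (h : TT v T z) {θ : Ω}
    (hθ : IsAlgebraic T θ) : z - θ ≠ 0 := by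
  intro h0
  rw [sub_eq_zero] at h0
  rw [← h0] at hθ
  exact h.1 hθ

theorem TT.ne_mem {T : IntermediateField k Ω} {z : Ω} (h : TT v T z) {c : Ω}
    (hc : c ∈ T) : z - c ≠ 0 :=
  h.ne (isAlgebraic_algebraMap (⟨c, hc⟩ : T))

/-- there are nearer and nearer elements -/
theorem TT.exists_nearer {T : IntermediateField k Ω} {z : Ω} (h : TT v T z) {c : Ω} (hc : c ∈ T) :
    ∃ c' ∈ T, v (z - c) < v (z - c') :=
  h.2 c (isAlgebraic_algebraMap (⟨c, hc⟩ : T))

/-- `P` holds for all elements of `T` near to `z`. -/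
def Nr (v : RVal Ω) (T : IntermediateField k Ω) (z : Ω) (P : Ω → Prop) : Prop :=
  ∃ c₀ ∈ T, ∀ c ∈ T, v (z - c₀) < v (z - c) → P c

theorem Nr.mono {T : IntermediateField k Ω} {z : Ω} {P Q : Ω → Prop} (h : Nr v T z P)
    (hPQ : ∀ c ∈ T, P c → Q c) : Nr v T z Q := by
  obtain ⟨c₀, h0, h1⟩ := h
  exact ⟨c₀, h0, fun c hc h2 => hPQ c hc (h1 c hc h2)⟩

theorem Nr.of_all {T : IntermediateField k Ω} {z : Ω} {P : Ω → Prop}
    (h : ∀ c ∈ T, P c) : Nr v T z P :=
  ⟨0, T.zero_mem, fun c hc _ => h c hc⟩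

theorem Nr.and {T : IntermediateField k Ω} {z : Ω} {P Q : Ω → Prop} (hP : Nr v T z P)
    (hQ : Nr v T z Q) : Nr v T z fun c => P c ∧ Q c := by
  obtain ⟨c₀, h0, h1⟩ := hP
  obtain ⟨c₁, h2, h3⟩ := hQ
  rcases le_total (v (z - c₀)) (v (z - c₁)) with h | h
  · exact ⟨c₁, h2, fun c hc h4 => ⟨h1 c hc (h.trans_lt h4), h3 c hc h4⟩⟩
  · exact ⟨c₀, h0, fun c hc h4 => ⟨h1 c hc h4, h3 c hc (h.trans_lt h4)⟩⟩

theorem Nr.all_finset {T : IntermediateField k Ω} {z : Ω} {ι : Type*} (s : Finset ι)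
    {P : ι → Ω → Prop} (h : ∀ i ∈ s, Nr v T z (P i)) : Nr v T z fun c => ∀ i ∈ s, P i c := by
  classical
  induction s using Finset.induction_on with
  | empty => exact Nr.of_all fun c _ i hi => absurd hi (Finset.notMem_empty i)
  | insert a s ha ih =>
    refine ((h a (Finset.mem_insert_self a s)).and
      (ih fun i hi => h i (Finset.mem_insert_of_mem hi))).mono ?_
    rintro c - ⟨h1, h2⟩ i hi
    rcases Finset.mem_insert.1 hi with rfl | h3
    · exact h1
    · exact h2 i h3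

theorem TT.exists_of_nr {T : IntermediateField k Ω} {z : Ω} (h : TT v T z) {P : Ω → Prop}
    (hP : Nr v T z P) : ∃ c ∈ T, P c := by
  obtain ⟨c₀, h0, h1⟩ := hP
  obtain ⟨c, hc, h2⟩ := h.exists_nearer h0
  exact ⟨c, hc, h1 c hc h2⟩

/-- near `z` the value of `c - θ` is the one of `z - θ`. -/
theorem TT.root_eq {T : IntermediateField k Ω} {z : Ω} (h : TT v T z) {θ : Ω}
    (hθ : IsAlgebraic T θ) : Nr v T z fun c => c - θ ≠ 0 ∧ v (c - θ) = v (z - θ) := by
  obtain ⟨c₀, h0, h1⟩ := h.2 θ hθ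
  refine ⟨c₀, h0, fun c hc h2 => ?_⟩
  have h3 : v (z - θ) < v (-(z - c)) := by
    rw [v.map_neg _ (h.ne_mem hc)]
    exact h1.trans h2
  have h4 := v.add_of_lt (h.ne hθ) (neg_ne_zero.2 (h.ne_mem hc)) h3
  have h5 : z - θ + -(z - c) = c - θ := by ring
  rwa [h5] at h4

theorem val_multiset_prod (s : Multiset Ω) (hs : ∀ a ∈ s, a ≠ 0) :
    s.prod ≠ 0 ∧ v s.prod = (s.map v).sum := by
  induction s using Multiset.induction_on with
  | empty => simp [v.map_one]
  | cons a s ih =>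
    have h1 := ih fun b hb => hs b (Multiset.mem_cons_of_mem hb)
    have h2 := hs a (Multiset.mem_cons_self a s)
    refine ⟨?_, ?_⟩
    · rw [Multiset.prod_cons]
      exact mul_ne_zero h2 h1.1
    · rw [Multiset.prod_cons, v.map_mul h2 h1.1, h1.2, Multiset.map_cons, Multiset.sum_cons]

theorem aeval_eq_prod [IsAlgClosed Ω] {T : IntermediateField k Ω} (F : T[X]) (a : Ω) :
    aeval a F = (F.leadingCoeff : Ω) *
      (((F.map (algebraMap T Ω)).roots).map fun θ => a - θ).prod := by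
  have h1 := (IsAlgClosed.splits (F.map (algebraMap T Ω))).eq_prod_roots
  have h2 : aeval a F = (F.map (algebraMap T Ω)).eval a := by
    rw [eval_map_algebraMap]
  have h3 := congrArg (eval a) h1
  rw [eval_mul, eval_C, eval_multiset_prod, Multiset.map_map, leadingCoeff_map] at h3
  rw [h2, h3]
  have h4 : (eval a ∘ fun θ : Ω => X - C θ) = fun θ => a - θ := by
    funext θ
    simp
  rw [h4]
  rfl

/-- T1: the value of a polynomial is constant near `z` (factor it) -/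
theorem TT.val_eq [IsAlgClosed Ω] {T : IntermediateField k Ω} {z : Ω} (h : TT v T z) (F : T[X])
    (hF : F ≠ 0) : aeval z F ≠ 0 ∧ ∃ c₀ ∈ T, ∀ c : T, v (z - c₀) < v (z - c) →
      aeval (c : Ω) F ≠ 0 ∧ v (aeval (c : Ω) F) = v (aeval z F) := by
  classical
  refine ⟨fun h0 => h.1 ⟨F, hF, h0⟩, ?_⟩
  set R := (F.map (algebraMap T Ω)).roots with hR
  have hmem : ∀ θ ∈ R, IsAlgebraic T θ := by
    intro θ hθ
    refine ⟨F, hF, ?_⟩
    have h1 : F.map (algebraMap T Ω) ≠ 0 := by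
      rwa [Ne, Polynomial.map_eq_zero]
    rw [hR, mem_roots h1, IsRoot.def, eval_map_algebraMap] at hθ
    exact hθ
  have h1 : Nr v T z fun c => ∀ θ ∈ R.toFinset, c - θ ≠ 0 ∧ v (c - θ) = v (z - θ) :=
    Nr.all_finset _ fun θ hθ => h.root_eq (hmem θ (Multiset.mem_toFinset.1 hθ))
  obtain ⟨c₀, h2, h3⟩ := h1
  refine ⟨c₀, h2, fun c hc => ?_⟩
  have h4 := h3 c c.2 hc
  have hl : (F.leadingCoeff : Ω) ≠ 0 := by
    simpa using hF
  have h5 := val_multiset_prod (v := v) (R.map fun θ => (c : Ω) - θ) (by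
    intro a ha
    obtain ⟨θ, hθ, rfl⟩ := Multiset.mem_map.1 ha
    exact (h4 θ (Multiset.mem_toFinset.2 hθ)).1)
  have h6 := val_multiset_prod (v := v) (R.map fun θ => z - θ) (by
    intro a ha
    obtain ⟨θ, hθ, rfl⟩ := Multiset.mem_map.1 ha
    exact h.ne (hmem θ hθ))
  rw [aeval_eq_prod, aeval_eq_prod]
  refine ⟨mul_ne_zero hl h5.1, ?_⟩
  rw [v.map_mul hl h5.1, v.map_mul hl h6.1, h5.2, h6.2]
  congr 2
  rw [Multiset.map_map, Multiset.map_map]
  exact Multiset.map_congr rfl fun θ hθ => (h4 θ (Multiset.mem_toFinset.2 hθ)).2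

/-- Two lines with different slopes: one of them is strictly below the other near `z`. -/
theorem TT.lines {T : IntermediateField k Ω} {z : Ω} (_h : TT v T z) (a b : ℝ) {i j : ℕ}
    (hij : i < j) : (Nr v T z fun c => a + i * v (z - c) < b + j * v (z - c)) ∨
      Nr v T z fun c => b + j * v (z - c) < a + i * v (z - c) := by
  have hd : (0 : ℝ) < (j : ℝ) - i := by
    have : (i : ℝ) < j := by exact_mod_cast hij
    linarith
  by_cases h1 : ∃ c₀ ∈ T, a + i * v (z - c₀) ≤ b + j * v (z - c₀)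
  · obtain ⟨c₀, h2, h3⟩ := h1
    left
    refine ⟨c₀, h2, fun c _ h4 => ?_⟩
    nlinarith
  · push Not at h1
    right
    exact Nr.of_all fun c hc => h1 c hc

theorem TT.lines_ne {T : IntermediateField k Ω} {z : Ω} (h : TT v T z) (a b : ℝ) {i j : ℕ}
    (hij : i ≠ j) : (Nr v T z fun c => a + i * v (z - c) < b + j * v (z - c)) ∨
      Nr v T z fun c => b + j * v (z - c) < a + i * v (z - c) := by
  rcases lt_or_gt_of_ne hij with h1 | h1
  · exact h.lines a b h1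
  · exact (h.lines b a h1).symm

/-- Among finitely many lines with different slopes one is the lowest near `z`. -/
theorem TT.lowest {T : IntermediateField k Ω} {z : Ω} (h : TT v T z) (b : ℕ → ℝ)
    (I : Finset ℕ) (hI : I.Nonempty) : ∃ j ∈ I, Nr v T z fun c => ∀ i ∈ I, i ≠ j →
      b j + j * v (z - c) < b i + i * v (z - c) := by
  classical
  induction hI using Finset.Nonempty.cons_induction with
  | singleton a =>
    exact ⟨a, Finset.mem_singleton_self a, Nr.of_all fun c _ i hi hne =>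
      absurd (Finset.mem_singleton.1 hi) hne⟩
  | cons a s ha hs ih =>
    obtain ⟨j, hj, h1⟩ := ih
    have haj : a ≠ j := fun h => ha (h ▸ hj)
    rcases h.lines_ne (b a) (b j) haj with h2 | h2
    · refine ⟨a, Finset.mem_cons_self a s, (h1.and h2).mono ?_⟩
      rintro c - ⟨h3, h4⟩ i hi hia
      rcases Finset.mem_cons.1 hi with h5 | h5
      · exact absurd h5 hia
      · by_cases h6 : i = j
        · rw [h6]; exact h4
        · exact h4.trans (h3 i h5 h6)
    · refine ⟨j, Finset.mem_cons_of_mem hj, (h1.and h2).mono ?_⟩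
      rintro c - ⟨h3, h4⟩ i hi hia
      rcases Finset.mem_cons.1 hi with h5 | h5
      · rw [h5]; exact h4
      · exact h3 i h5 hia

theorem sum_gt {ι : Type*} {a : ℝ} (t : Finset ι) (f : ι → Ω)
    (h : ∀ i ∈ t, f i ≠ 0 → a < v (f i)) : (∑ i ∈ t, f i) ≠ 0 → a < v (∑ i ∈ t, f i) := by
  classical
  induction t using Finset.induction_on with
  | empty => simp
  | insert b s hb ih =>
    rw [Finset.sum_insert hb]
    intro h0
    have h1 := ih fun i hi => h i (Finset.mem_insert_of_mem hi)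
    have h2 := h b (Finset.mem_insert_self b s)
    by_cases h3 : f b = 0
    · rw [h3, zero_add] at h0 ⊢
      exact h1 h0
    by_cases h4 : (∑ i ∈ s, f i) = 0
    · rw [h4, add_zero] at h0 ⊢
      exact h2 h0
    · exact (lt_min (h2 h3) (h1 h4)).trans_le (v.map_add h3 h4 h0)

/-- the value of a sum with one dominating term -/
theorem sum_dom {ι : Type*} (t : Finset ι) (f : ι → Ω) {j : ι} (hj : j ∈ t) (hj0 : f j ≠ 0)
    (h : ∀ i ∈ t, i ≠ j → f i ≠ 0 → v (f j) < v (f i)) :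
    (∑ i ∈ t, f i) ≠ 0 ∧ v (∑ i ∈ t, f i) = v (f j) := by
  classical
  rw [← Finset.add_sum_erase t f hj]
  by_cases h0 : ∑ i ∈ t.erase j, f i = 0
  · rw [h0, add_zero]
    exact ⟨hj0, rfl⟩
  · refine v.add_of_lt hj0 h0 (sum_gt _ _ ?_ h0)
    intro i hi hi0
    exact h i (Finset.mem_of_mem_erase hi) (Finset.ne_of_mem_erase hi) hi0

theorem map_hasse {R S : Type*} [CommRing R] [CommRing S] (f : R →+* S) (P : R[X]) (l : ℕ) :
    (hasseDeriv l P).map f = hasseDeriv l (P.map f) := by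
  ext1 i
  rw [Polynomial.coeff_map, hasseDeriv_coeff, hasseDeriv_coeff, map_mul, map_natCast,
    Polynomial.coeff_map]

/-- Taylor expansion at `z`. -/
theorem aeval_add_eq {T : IntermediateField k Ω} (F : T[X]) (z w : Ω) :
    aeval (z + w) F =
      ∑ i ∈ Finset.range (F.natDegree + 1), aeval z (hasseDeriv i F) * w ^ i := by
  have h1 : aeval (z + w) F = (taylor z (F.map (algebraMap T Ω))).eval w := by
    rw [taylor_eval, eval_map_algebraMap, add_comm]
  have hd : (taylor z (F.map (algebraMap T Ω))).natDegree < F.natDegree + 1 := by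
    rw [natDegree_taylor, natDegree_map]
    exact Nat.lt_succ_self _
  rw [h1, eval_eq_sum_range' hd]
  refine Finset.sum_congr rfl fun i _ => ?_
  rw [taylor_coeff, ← map_hasse, eval_map_algebraMap]

theorem aeval_sub_eq {T : IntermediateField k Ω} (F : T[X]) (z c : Ω) :
    aeval z F - aeval c F =
      ∑ i ∈ Finset.Ico 1 (F.natDegree + 1), -(aeval z (hasseDeriv i F) * (c - z) ^ i) := by
  have h1 := aeval_add_eq F z (c - z)
  rw [add_sub_cancel] at h1
  rw [h1, Finset.range_eq_Ico, Finset.sum_eq_sum_Ico_succ_bot (Nat.succ_pos _),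
    Finset.sum_neg_distrib]
  simp only [hasseDeriv_zero', pow_zero, mul_one]
  ring

/-- T2: the dominating index near `z` -/
theorem TT.exists_index [IsAlgClosed Ω] {T : IntermediateField k Ω} {z : Ω} (h : TT v T z)
    (F : T[X]) (hF : 0 < F.natDegree) : ∃ j : ℕ, 0 < j ∧ hasseDeriv j F ≠ 0 ∧
      ∃ c₀ ∈ T, ∀ c : T, v (z - c₀) < v (z - c) →
        aeval z F - aeval (c : Ω) F ≠ 0 ∧
        v (aeval z F - aeval (c : Ω) F) = v (aeval z (hasseDeriv j F)) + j * v (z - c) ∧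
        ∀ i : ℕ, 0 < i → i ≠ j → hasseDeriv i F ≠ 0 →
          v (aeval z (hasseDeriv j F)) + j * v (z - c) <
            v (aeval z (hasseDeriv i F)) + i * v (z - c) := by
  classical
  set I := (Finset.Ico 1 (F.natDegree + 1)).filter fun i => hasseDeriv i F ≠ 0 with hI
  have hne : I.Nonempty := by
    refine ⟨F.natDegree, ?_⟩
    rw [hI, Finset.mem_filter, Finset.mem_Ico]
    refine ⟨⟨hF, Nat.lt_succ_self _⟩, ?_⟩
    rw [hasseDeriv_natDegree_eq_C, Ne, C_eq_zero, leadingCoeff_eq_zero]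
    rintro rfl
    simp at hF
  have hmem : ∀ i : ℕ, 0 < i → hasseDeriv i F ≠ 0 → i ∈ I := by
    intro i hi h0
    rw [hI, Finset.mem_filter, Finset.mem_Ico]
    refine ⟨⟨hi, ?_⟩, h0⟩
    by_contra hcon
    exact h0 (hasseDeriv_eq_zero_of_lt_natDegree F i (by omega))
  obtain ⟨j, hj, c₀, h0, h1⟩ := h.lowest (fun i => v (aeval z (hasseDeriv i F))) I hne
  rw [hI, Finset.mem_filter, Finset.mem_Ico] at hj
  have ha : ∀ i, hasseDeriv i F ≠ 0 → aeval z (hasseDeriv i F) ≠ 0 := fun i hi h2 =>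
    h.1 ⟨_, hi, h2⟩
  refine ⟨j, hj.1.1, hj.2, c₀, h0, fun c hc => ?_⟩
  have h2 := h1 c c.2 hc
  have hcz : (c : Ω) - z ≠ 0 := by
    have := h.ne_mem c.2
    intro h3
    exact this (by rw [← neg_sub, h3, neg_zero])
  have hval : ∀ i, hasseDeriv i F ≠ 0 → -(aeval z (hasseDeriv i F) * ((c : Ω) - z) ^ i) ≠ 0 ∧
      v (-(aeval z (hasseDeriv i F) * ((c : Ω) - z) ^ i)) =
        v (aeval z (hasseDeriv i F)) + i * v (z - c) := by
    intro i hi
    have h3 : ((c : Ω) - z) ^ i ≠ 0 := pow_ne_zero _ hcz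
    have h4 := mul_ne_zero (ha i hi) h3
    refine ⟨neg_ne_zero.2 h4, ?_⟩
    rw [v.map_neg _ h4, v.map_mul (ha i hi) h3, v.map_pow hcz, ← neg_sub z (c : Ω),
      v.map_neg _ (h.ne_mem c.2)]
  have hd : ∀ i ∈ Finset.Ico 1 (F.natDegree + 1), i ≠ j →
      -(aeval z (hasseDeriv i F) * ((c : Ω) - z) ^ i) ≠ 0 →
      v (-(aeval z (hasseDeriv j F) * ((c : Ω) - z) ^ j)) <
        v (-(aeval z (hasseDeriv i F) * ((c : Ω) - z) ^ i)) := by
    intro i hi hij hi0
    have h5 : hasseDeriv i F ≠ 0 := by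
      intro h6
      rw [h6] at hi0
      simp at hi0
    rw [(hval i h5).2, (hval j hj.2).2]
    exact h2 i (hmem i (Finset.mem_Ico.1 hi).1 h5) hij
  have h7 := sum_dom (v := v) (Finset.Ico 1 (F.natDegree + 1))
    (fun i => -(aeval z (hasseDeriv i F) * ((c : Ω) - z) ^ i)) (Finset.mem_Ico.2 hj.1)
    (hval j hj.2).1 hd
  rw [← aeval_sub_eq] at h7
  refine ⟨h7.1, h7.2.trans (hval j hj.2).2, fun i hi hij hi0 => h2 i (hmem i hi hi0) hij⟩

/-- T3: a lower bound for the value of `F` bounds the values of its derivatives -/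
theorem TT.coeff_ge [IsAlgClosed Ω] {T : IntermediateField k Ω} {z : Ω} (h : TT v T z) {s : ℝ}
    (hs : DistIs v T z s) (F : T[X]) (t : ℝ) (hF : v.Ge t (aeval z F)) (i : ℕ) (hi : 0 < i)
    (hFi : hasseDeriv i F ≠ 0) : t ≤ v (aeval z (hasseDeriv i F)) + i * s := by
  have hF0 : F ≠ 0 := by
    rintro rfl
    simp at hFi
  have hdeg : 0 < F.natDegree := by
    by_contra hcon
    exact hFi (hasseDeriv_eq_zero_of_lt_natDegree F i (by omega))
  obtain ⟨hz0, c₁, h1, h2⟩ := h.val_eq F hF0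
  obtain ⟨j, hj, hj0, c₂, h3, h4⟩ := h.exists_index F hdeg
  have h5 : Nr v T z fun c => ∀ h : c ∈ T, (v (aeval c F) = v (aeval z F) ∧ aeval c F ≠ 0) ∧
      aeval z F - aeval c F ≠ 0 ∧
      v (aeval z F - aeval c F) ≤ v (aeval z (hasseDeriv i F)) + i * v (z - c) := by
    refine Nr.mono (Nr.and (P := fun c => ∀ h : c ∈ T, v (aeval c F) = v (aeval z F) ∧
      aeval c F ≠ 0) (Q := fun c => aeval z F - aeval c F ≠ 0 ∧
      v (aeval z F - aeval c F) ≤ v (aeval z (hasseDeriv i F)) + i * v (z - c)) ?_ ?_) ?_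
    · exact ⟨c₁, h1, fun c hc h6 h7 => ⟨(h2 ⟨c, hc⟩ h6).2, (h2 ⟨c, hc⟩ h6).1⟩⟩
    · refine ⟨c₂, h3, fun c hc h6 => ?_⟩
      obtain ⟨h7, h8, h9⟩ := h4 ⟨c, hc⟩ h6
      refine ⟨h7, ?_⟩
      rw [h8]
      by_cases h10 : i = j
      · rw [h10]
      · exact (h9 i hi h10 hFi).le
    · rintro c - ⟨h6, h7⟩ h8
      exact ⟨h6 h8, h7⟩
  obtain ⟨c, hc, h6⟩ := h.exists_of_nr h5
  obtain ⟨⟨h7, h8⟩, h9, h10⟩ := h6 hc
  have h11 : t ≤ v (aeval z F - aeval c F) := by
    have h12 : v.Ge t (aeval c F) := by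
      intro _
      rw [h7]
      exact hF hz0
    exact (hF.sub h12) h9
  have h13 : v (z - c) ≤ s := hs.1 ⟨c, hc, rfl⟩
  have h14 : (i : ℝ) * v (z - c) ≤ i * s := mul_le_mul_of_nonneg_left h13 (Nat.cast_nonneg i)
  linarith

theorem mem_adj_frac {T : IntermediateField k Ω} {z a : Ω} (ha : a ∈ adj T z) :
    ∃ P Q : T[X], a = aeval z P / aeval z Q := by
  have h1 : adj T z ≤ (IntermediateField.adjoin T {z}).restrictScalars k := by
    refine sup_le ?_ ?_
    · intro t ht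
      rw [IntermediateField.mem_restrictScalars]
      exact (IntermediateField.adjoin T {z}).algebraMap_mem ⟨t, ht⟩
    · rw [IntermediateField.adjoin_le_iff, Set.singleton_subset_iff]
      exact IntermediateField.mem_adjoin_simple_self T z
  have h2 := h1 ha
  rw [IntermediateField.mem_restrictScalars, IntermediateField.mem_adjoin_simple_iff] at h2
  exact h2

/-- the inverse of a polynomial is approximated by polynomials -/
theorem TT.inv_dense [IsAlgClosed Ω] {T : IntermediateField k Ω} {z : Ω} (h : TT v T z)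
    (Q : T[X]) (hQ : Q ≠ 0) (N : ℝ) : ∃ F : T[X], v.Ge N ((aeval z Q)⁻¹ - aeval z F) := by
  rcases Nat.eq_zero_or_pos Q.natDegree with hd | hd
  · obtain ⟨a, ha⟩ := natDegree_eq_zero.1 hd
    refine ⟨C a⁻¹, ?_⟩
    rw [← ha, aeval_C, aeval_C, map_inv₀, sub_self]
    exact RVal.Ge.zero
  obtain ⟨hz0, c₁, h1, h2⟩ := h.val_eq Q hQ
  obtain ⟨j, hj, hj0, c₂, h3, h4⟩ := h.exists_index Q hd
  have h5 : Nr v T z fun c => ∀ h : c ∈ T, (aeval c Q ≠ 0 ∧ v (aeval c Q) = v (aeval z Q)) ∧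
      aeval z Q - aeval c Q ≠ 0 ∧
      v (aeval z Q - aeval c Q) = v (aeval z (hasseDeriv j Q)) + j * v (z - c) := by
    refine Nr.mono (Nr.and (P := fun c => ∀ h : c ∈ T, aeval c Q ≠ 0 ∧
      v (aeval c Q) = v (aeval z Q)) (Q := fun c => aeval z Q - aeval c Q ≠ 0 ∧
      v (aeval z Q - aeval c Q) = v (aeval z (hasseDeriv j Q)) + j * v (z - c)) ?_ ?_) ?_
    · exact ⟨c₁, h1, fun c hc h6 h7 => h2 ⟨c, hc⟩ h6⟩
    · exact ⟨c₂, h3, fun c hc h6 => ⟨(h4 ⟨c, hc⟩ h6).1, (h4 ⟨c, hc⟩ h6).2.1⟩⟩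
    · rintro c - ⟨h6, h7⟩ h8
      exact ⟨h6 h8, h7⟩
  obtain ⟨c₃, h6, h7⟩ := h5
  obtain ⟨c₄, h8, h9⟩ := h.exists_nearer h6
  obtain ⟨c₅, h10, h11⟩ := h.exists_nearer h8
  obtain ⟨⟨h12, h13⟩, h14, h15⟩ := h7 c₄ h8 h9 h8
  obtain ⟨⟨h16, h17⟩, h18, h19⟩ := h7 c₅ h10 (h9.trans h11) h10
  have hge : v (aeval z Q) ≤ v (aeval z Q - aeval c₄ Q) := by
    have h20 : v.Ge (v (aeval z Q)) (aeval z Q) := fun _ => le_rfl
    have h21 : v.Ge (v (aeval z Q)) (aeval c₄ Q) := fun _ => h13.ge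
    exact (h20.sub h21) h14
  have hgt : v (aeval z Q) < v (aeval z Q - aeval c₅ Q) := by
    have h22 : (j : ℝ) * v (z - c₄) < j * v (z - c₅) :=
      mul_lt_mul_of_pos_left h11 (Nat.cast_pos.2 hj)
    linarith
  -- the polynomials
  set d : T := aeval (⟨c₅, h10⟩ : T) Q with hdd
  have hdv : (d : Ω) = aeval c₅ Q := by
    have : algebraMap T Ω (aeval (⟨c₅, h10⟩ : T) Q) = aeval (algebraMap T Ω ⟨c₅, h10⟩) Q :=
      (aeval_algebraMap_apply Ω (⟨c₅, h10⟩ : T) Q).symm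
    exact this
  set w := aeval z Q with hw
  have hd0 : (d : Ω) ≠ 0 := by
    rw [hdv]
    exact h16
  set u : Ω := 1 - (d : Ω)⁻¹ * w with hu
  have hu1 : u = -((d : Ω)⁻¹ * (w - d)) := by
    rw [hu]
    field_simp
    ring
  have hwd : w - d ≠ 0 := by
    rw [hdv]
    exact h18
  have hu0 : u ≠ 0 := by
    rw [hu1]
    exact neg_ne_zero.2 (mul_ne_zero (inv_ne_zero hd0) hwd)
  have huv : 0 < v u := by
    rw [hu1, v.map_neg _ (mul_ne_zero (inv_ne_zero hd0) hwd), v.map_mul (inv_ne_zero hd0) hwd,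
      v.map_inv hd0, hdv, h17]
    linarith
  obtain ⟨M, hM⟩ := exists_nat_gt ((N + v w) / v u)
  rw [div_lt_iff₀ huv] at hM
  refine ⟨C d⁻¹ * ∑ n ∈ Finset.range M, (1 - C d⁻¹ * Q) ^ n, ?_⟩
  have hS : (1 - u) * ∑ n ∈ Finset.range M, u ^ n = 1 - u ^ M := mul_neg_geom_sum u M
  have h23 : aeval z (C d⁻¹ * ∑ n ∈ Finset.range M, (1 - C d⁻¹ * Q) ^ n) =
      (d : Ω)⁻¹ * ∑ n ∈ Finset.range M, u ^ n := by
    rw [map_mul, aeval_C, map_inv₀, map_sum]
    congr 1
    refine Finset.sum_congr rfl fun n _ => ?_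
    rw [map_pow, map_sub, map_one, map_mul, aeval_C, map_inv₀]
    rfl
  rw [h23]
  have h24 : w⁻¹ - (d : Ω)⁻¹ * ∑ n ∈ Finset.range M, u ^ n = w⁻¹ * u ^ M := by
    have h25 : (1 - u) = (d : Ω)⁻¹ * w := by rw [hu]; ring
    rw [h25] at hS
    have h26 : u ^ M = 1 - (d : Ω)⁻¹ * w * ∑ n ∈ Finset.range M, u ^ n := by
      rw [hS]; ring
    rw [h26]
    field_simp
  rw [h24]
  intro _
  rw [v.map_mul (inv_ne_zero hz0) (pow_ne_zero _ hu0), v.map_inv hz0, v.map_pow hu0]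
  linarith

/-- H3a: polynomials are dense in the closure of `T(z)` -/
theorem TT.dense [IsAlgClosed Ω] {T : IntermediateField k Ω} {z : Ω} (h : TT v T z) {a : Ω}
    (ha : a ∈ Cl v (adj T z).toSubfield) (N : ℝ) : ∃ F : T[X], v.Ge N (a - aeval z F) := by
  obtain ⟨a₀, h1, h2⟩ := ha N
  have h3 : a₀ ∈ adj T z := h1
  obtain ⟨P, Q, h4⟩ := mem_adj_frac h3
  by_cases hP : P = 0
  · refine ⟨0, ?_⟩
    rw [h4, hP, map_zero, zero_div] at h2
    rwa [map_zero]
  by_cases hQ : Q = 0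
  · refine ⟨0, ?_⟩
    rw [h4, hQ, map_zero, div_zero] at h2
    rwa [map_zero]
  have hP0 : aeval z P ≠ 0 := fun h0 => h.1 ⟨P, hP, h0⟩
  obtain ⟨G, hG⟩ := h.inv_dense Q hQ (N - v (aeval z P))
  refine ⟨P * G, ?_⟩
  have h5 : a - aeval z (P * G) =
      (a - a₀) + aeval z P * ((aeval z Q)⁻¹ - aeval z G) := by
    rw [h4, map_mul]
    ring
  rw [h5]
  refine h2.add ?_
  have h6 : v.Ge (v (aeval z P)) (aeval z P) := fun _ => le_rfl
  exact (h6.mul hG).mono (by linarith)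

end Pool.Agent.D2P
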