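import Pool.Agent.Lib.D2P.R1
import Pool.Agent.Lib.D2P.TTP
import Pool.Agent.Lib.D2P.H4b
import Pool.Agent.Lib.D2P.H2
import Pool.Agent.Lib.D2P.H5
import Pool.Agent.Lib.D2P.H6
import Pool.Agent.Lib.D2P.H0

/-! # D2P, A1: henselian rationality over a perfect henselian field with all values -/

set_option autoImplicit false

open Polynomial

namespace Pool.Agent.D2P

open Pool.Agent.H15JM (RVal)
open Pool.Agent.LU1 (VPos adj)
open Pool.Agent.LUC (Cl clF)
open Pool.Agent.D2 (Ctx0)

universe u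

variable {k Ω : Type u} [Field k] [Field Ω] [Algebra k Ω] {v : RVal Ω}

namespace A1aux

/-- A root of `X ^ p - X - t`. -/
theorem as_isSeparable (p : ℕ) [CharP k p] (E : IntermediateField k Ω) {θ : Ω}
    (hθ : θ ^ p - θ ∈ E) : IsSeparable E θ := by
  have hcE : CharP E p := charP_field p E
  let t : E := ⟨θ ^ p - θ, hθ⟩
  let f : E[X] := X ^ p - X - C t
  have hf : aeval θ f = 0 := by
    show aeval θ (X ^ p - X - C t) = 0
    rw [map_sub, map_sub, map_pow, aeval_X, aeval_C]
    exact sub_self _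
  have hd : derivative f = -1 := by
    show derivative (X ^ p - X - C t) = -1
    rw [derivative_sub, derivative_sub, derivative_X_pow, derivative_X, derivative_C,
      CharP.cast_eq_zero, map_zero, zero_mul, zero_sub, sub_zero]
  have hs : f.Separable := by
    rw [separable_def, hd]
    exact isCoprime_one_right.neg_right
  have hf0 : f ≠ 0 := hs.ne_zero
  exact hs.of_dvd (minpoly.dvd E θ hf)

theorem sub_pow_eq (p : ℕ) (hp : p.Prime) [CharP k p] (x y : Ω) :
    (x - y) ^ p - (x - y) = (x ^ p - x) - (y ^ p - y) := by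
  have : CharP Ω p := charP_big (k := k) p
  have : Fact p.Prime := ⟨hp⟩
  rw [sub_pow_char]
  ring

/-- `adj` does not change under subtraction of an element. -/
theorem adj_sub {M : IntermediateField k Ω} {η m : Ω} (hm : m ∈ M) : adj M (η - m) = adj M η := by
  apply le_antisymm
  · exact adj_le (mem_adj_self M η).2
      (sub_mem (mem_adj_self M η).1 ((mem_adj_self M η).2 hm))
  · refine adj_le (mem_adj_self M (η - m)).2 ?_
    have := add_mem (mem_adj_self M (η - m)).1 ((mem_adj_self M (η - m)).2 hm)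
    rwa [sub_add_cancel] at this

/-- finitely generated form of `M(η)` -/
theorem adj_eq_hen [IsAlgClosed Ω] (h : Ctx0 k v) (T M : IntermediateField k Ω) (S : Finset Ω)
    (hS : M = hen v (T ⊔ IntermediateField.adjoin k (S : Set Ω))) {η : Ω}
    (hη : IsSeparable M η) :
    ∃ S' : Finset Ω, adj M η = hen v (T ⊔ IntermediateField.adjoin k (S' : Set Ω)) := by
  classical
  have hMM : hen v M = M := by rw [hS, hen_hen]
  have hle : T ⊔ IntermediateField.adjoin k (S : Set Ω) ≤ M := by
    rw [hS]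
    exact le_hen _
  refine ⟨insert η S, le_antisymm ?_ ?_⟩
  · refine adj_le ?_ ?_
    · rw [hS]
      refine hen_mono (sup_le_sup le_rfl ?_)
      refine IntermediateField.adjoin.mono _ _ _ ?_
      rw [Finset.coe_insert]
      exact Set.subset_insert _ _
    · refine le_hen _ ((le_sup_right : IntermediateField.adjoin k _ ≤ _)
        (IntermediateField.subset_adjoin _ _ ?_))
      rw [Finset.coe_insert]
      exact Set.mem_insert _ _
  · refine hen_le (hen_adj h hMM hη) ?_
    refine sup_le ((le_sup_left.trans hle).trans (mem_adj_self M η).2) ?_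
    rw [IntermediateField.adjoin_le_iff]
    intro x hx
    rw [Finset.coe_insert] at hx
    rcases hx with rfl | hx
    · exact (mem_adj_self M _).1
    · exact (mem_adj_self M η).2 (hle ((le_sup_right : IntermediateField.adjoin k _ ≤ _)
        (IntermediateField.subset_adjoin _ _ hx)))

/-- algebraic over algebraic -/
theorem alg_trans {T T' : IntermediateField k Ω} (hTT' : T ≤ T')
    (halg : ∀ a ∈ T', IsAlgebraic T a) {x : Ω} (hx : IsAlgebraic T' x) : IsAlgebraic T x := by
  let _ : Algebra T T' := (IntermediateField.inclusion hTT').toRingHom.toAlgebra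
  have _ : IsScalarTower T T' Ω := IsScalarTower.of_algebraMap_eq fun _ => rfl
  have : Algebra.IsAlgebraic T T' := ⟨fun e => by
    have h1 := halg e e.2
    exact (isAlgebraic_algebraMap_iff (Subtype.val_injective : Function.Injective
      (algebraMap T' Ω))).1 h1⟩
  exact hx.restrictScalars T

/-- Large values. -/
theorem exists_big {T T' : IntermediateField k Ω} (hfull : ∀ g : Ω, g ≠ 0 → ∃ c ∈ T, c ≠ 0 ∧
    v c = v g) {z : Ω} (hz : TT v T' z) (c : ℝ) : ∃ a ∈ T, a ≠ 0 ∧ c < v a := by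
  obtain ⟨c1, h1, h2⟩ := hz.exists_nearer T'.zero_mem
  have h3 : ∃ g : Ω, g ≠ 0 ∧ v g ≠ 0 := by
    by_cases h4 : v (z - 0) = 0
    · refine ⟨z - c1, hz.ne_mem h1, ?_⟩
      rw [h4] at h2
      exact h2.ne'
    · exact ⟨z - 0, hz.ne_mem T'.zero_mem, h4⟩
  obtain ⟨g, hg0, hg1⟩ := h3
  have h5 : ∃ g : Ω, g ≠ 0 ∧ 0 < v g := by
    rcases lt_or_gt_of_ne hg1 with h6 | h6
    · refine ⟨g⁻¹, inv_ne_zero hg0, ?_⟩
      rw [v.map_inv hg0]
      linarith
    · exact ⟨g, hg0, h6⟩
  obtain ⟨g, hg0, hg1⟩ := h5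
  obtain ⟨n, hn⟩ := exists_nat_gt (c / v g)
  rw [div_lt_iff₀ hg1] at hn
  obtain ⟨a, ha, ha0, hav⟩ := hfull (g ^ n) (pow_ne_zero n hg0)
  refine ⟨a, ha, ha0, ?_⟩
  rw [hav, v.map_pow hg0]
  exact hn

theorem aeval_mem {E M : IntermediateField k Ω} (h : E ≤ M) {z : Ω} (hz : z ∈ M) (F : E[X]) :
    aeval z F ∈ M := by
  rw [aeval_eq_sum_range]
  refine sum_mem fun i _ => ?_
  rw [Algebra.smul_def]
  exact mul_mem (h (F.coeff i).2) (pow_mem hz i)

end A1aux

open A1aux

/-- A1, one step. -/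
theorem hr1_as [IsAlgClosed Ω] [IsAlgClosed k] (p : ℕ) (hp : p.Prime) [CharP k p]
    (h : Ctx0 k v) (T : IntermediateField k Ω) (hT : PB p v T) (M : IntermediateField k Ω)
    (S : Finset Ω) (hS : M = hen v (T ⊔ IntermediateField.adjoin k (S : Set Ω)))
    (hM : HR1 v T M) {η : Ω} (hη : η ^ p - η ∈ M) (hηM : η ∉ M) : HR1 v T (adj M η) := by
  have hfact : Fact p.Prime := ⟨hp⟩
  obtain ⟨z, hz, hMz⟩ := hM
  have hMM : hen v M = M := by rw [hS, hen_hen]
  have hTM : T ≤ M := by
    rw [hS]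
    exact le_sup_left.trans (le_hen _)
  have hzM : z ∈ M := by
    rw [hMz]
    exact le_hen _ (mem_adj_self T z).1
  -- the relative algebraic closure
  obtain ⟨T', hT'⟩ : ∃ T' : IntermediateField k Ω, ∀ a : Ω, a ∈ T' ↔ a ∈ M ∧ IsAlgebraic T a := by
    refine ⟨M ⊓ (algebraicClosure T Ω).restrictScalars k, fun a => ?_⟩
    rw [IntermediateField.mem_inf, IntermediateField.mem_restrictScalars,
      mem_algebraicClosure_iff]
  have hPB : PB p v T' := pb_relAlg p hp h T T' M hT hTM hMM hT'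
  have hT'M : T' ≤ M := fun a ha => ((hT' a).1 ha).1
  have halg : ∀ a ∈ T', IsAlgebraic T a := fun a ha => ((hT' a).1 ha).2
  have hTT' : T ≤ T' := fun a ha =>
    (hT' a).2 ⟨hTM ha, isAlgebraic_algebraMap (R := T) (⟨a, ha⟩ : T)⟩
  have hrel : ∀ a ∈ M, IsAlgebraic T' a → a ∈ T' := fun a ha h1 =>
    (hT' a).2 ⟨ha, alg_trans hTT' halg h1⟩
  have hz' : Transcendental T' z := fun h1 => hz (alg_trans hTT' halg h1)
  have hzT' : z ∉ T' := fun h1 => hz (halg z h1)
  have hMz' : M = hen v (adj T' z) := by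
    apply le_antisymm
    · conv_lhs => rw [hMz]
      exact hen_mono (adj_le (hTT'.trans (mem_adj_self T' z).2) (mem_adj_self T' z).1)
    · exact hen_le hMM (adj_le hT'M hzM)
  have hTT : TT v T' z := tt_of_relAlgClosed p hp h T' M hPB hT'M hMM hrel hzM hzT'
  have hbig : ∀ c : ℝ, ∃ a ∈ T, a ≠ 0 ∧ c < v a := exists_big hT.full hTT
  have hsep : IsSeparable M η := as_isSeparable p M hη
  -- reduction to a polynomial
  obtain ⟨F, hF⟩ := hTT.dense (a := η ^ p - η) (by
    rw [hMz'] at hη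
    exact (mem_hen.1 hη).1) 1
  have hFM : aeval z F ∈ M := aeval_mem hT'M hzM F
  obtain ⟨m, hm, hm1⟩ := exists_as p hp h hMM (sub_mem hη hFM) (by
    intro h0
    have := hF h0
    linarith)
  -- `η₁`
  have hη₁ : (η - m) ^ p - (η - m) = aeval z F := by
    rw [sub_pow_eq p hp (k := k), hm1]
    ring
  by_cases hcase : ∃ m' ∈ hen v (adj T' z), ∃ t ∈ T', aeval z F = m' ^ p - m' + t
  · obtain ⟨m', hm', t, ht, h1⟩ := hcase
    rw [← hMz'] at hm'
    set θ : Ω := η - (m + m') with hθ
    have hθ1 : θ ^ p - θ = t := by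
      have h2 : θ = (η - m) - m' := by rw [hθ]; ring
      rw [h2, sub_pow_eq p hp (k := k), hη₁, h1]
      ring
    have hadj : adj M η = adj M θ := (adj_sub (add_mem hm hm')).symm
    have hθM : IsSeparable M θ := as_isSeparable p M (by rw [hθ1]; exact hT'M ht)
    have hθT' : IsSeparable T' θ := as_isSeparable p T' (by rw [hθ1]; exact ht)
    have hT''alg : ∀ a ∈ adj T' θ, IsAlgebraic T' a := isAlgebraic_sup _ (by
      rintro s rfl
      exact hθT'.isIntegral.isAlgebraic)
    obtain ⟨S', hS'⟩ := adj_eq_hen h T M S hS hθM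
    rw [hadj]
    refine hr1_descend p hp h T (adj T' θ) (adj M θ) hT.perf hbig
      (hTT'.trans (mem_adj_self T' θ).2)
      (fun a ha => alg_trans hTT' halg (hT''alg a ha)) ?_ S' hS'
    refine ⟨z, fun h2 => hz' (alg_trans (mem_adj_self T' θ).2 hT''alg h2), ?_⟩
    apply le_antisymm
    · refine adj_le ?_ ?_
      · conv_lhs => rw [hMz']
        exact hen_mono (adj_le ((mem_adj_self T' θ).2.trans (mem_adj_self _ z).2)
          (mem_adj_self _ z).1)
      · exact le_hen _ ((mem_adj_self _ z).2 (mem_adj_self T' θ).1)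
    · refine hen_le (hen_adj h hMM hθM) (adj_le (adj_le ?_ ?_) ?_)
      · exact hT'M.trans (mem_adj_self M θ).2
      · exact (mem_adj_self M θ).1
      · exact (mem_adj_self M θ).2 hzM
  · have hcT : CharP T' p := charP_field p T'
    have hpT : PerfectRing T' p := hPB.perfectRing
    obtain ⟨ψ, hψ1, hψ2⟩ := index_one p h T' hTT F hcase
    obtain ⟨W, hW⟩ := nf_sub p F ψ
    set G := nf p F ψ with hG
    have hWM : aeval z W ∈ M := aeval_mem hT'M hzM W
    set θ : Ω := η - (m + aeval z W) with hθ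
    have hθ1 : θ ^ p - θ = aeval z G := by
      have h2 : θ = (η - m) - aeval z W := by rw [hθ]; ring
      have h3 : aeval z F - aeval z G = aeval z W ^ p - aeval z W := by
        rw [← map_sub, hW, map_sub, map_pow]
      rw [h2, sub_pow_eq p hp (k := k), hη₁, ← h3]
      ring
    have hadj : adj M η = adj M θ := (adj_sub (add_mem hm hWM)).symm
    have h1p : ¬ p ∣ 1 := fun h1 => hp.one_lt.ne' (Nat.dvd_one.1 h1)
    obtain ⟨h4, h5⟩ := as_generator p hp h T' hz' G ψ hθ1
      (by rw [hG, nf_coeff p F ψ one_pos, if_neg h1p]; exact hψ1)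
      (by
        intro j hj hj0
        rw [hG, nf_coeff p F ψ (by omega)] at hj0
        have hpj : ¬ p ∣ j := fun h6 => hj0 (by rw [if_pos h6])
        rw [if_neg hpj] at hj0
        have e1 := nf_coeff p F ψ (j := j) (by omega)
        have e2 := nf_coeff p F ψ (j := 1) one_pos
        rw [if_neg hpj] at e1
        rw [if_neg h1p] at e2
        rw [hG, e1, e2]
        exact hψ2 j hj hpj hj0)
    rw [← hMz'] at h5
    have hθM : IsSeparable M θ := by
      refine as_isSeparable p M ?_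
      have h6 : θ ^ p - θ = (η ^ p - η) - ((m + aeval z W) ^ p - (m + aeval z W)) := by
        rw [hθ, sub_pow_eq p hp (k := k)]
      rw [h6]
      have h7 := add_mem hm hWM
      exact sub_mem hη (sub_mem (pow_mem h7 p) h7)
    obtain ⟨S', hS'⟩ := adj_eq_hen h T M S hS hθM
    rw [hadj]
    exact hr1_descend p hp h T T' (adj M θ) hT.perf hbig hTT' halg ⟨θ, h4, h5.symm⟩ S' hS'

/-- A1. -/
theorem a1 [IsAlgClosed Ω] [IsAlgClosed k] (p : ℕ) (hp : p.Prime) [CharP k p] (h : Ctx0 k v)
    (T : IntermediateField k Ω) (hT : PB p v T) {z : Ω}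
    (hz : Transcendental T z) (S : Finset Ω) (hS : ∀ s ∈ S, IsSeparable (adj T z) s) :
    HR1 v T (hen v (adj T z ⊔ IntermediateField.adjoin k (S : Set Ω))) := by
  classical
  set M₀ : IntermediateField k Ω := hen v (adj T z) with hM₀
  have hM₀M : hen v M₀ = M₀ := hen_hen _
  have hTM₀ : T ≤ M₀ := (mem_adj_self T z).2.trans (le_hen _)
  have hS₀ : ∀ s ∈ S, IsSeparable M₀ s := fun s hs => isSeparable_mono (le_hen _) (hS s hs)
  have hEq : hen v (adj T z ⊔ IntermediateField.adjoin k (S : Set Ω)) =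
      M₀ ⊔ IntermediateField.adjoin k (S : Set Ω) := by
    apply le_antisymm
    · refine hen_le (hen_sup h hM₀M S hS₀) ?_
      exact sup_le_sup (le_hen _) le_rfl
    · refine sup_le (hen_mono le_sup_left) (le_sup_right.trans (le_hen _))
  rw [hEq]
  have key := as_induction p hp h M₀ hM₀M
    (fun g hg => by
      obtain ⟨c, h1, h2, h3⟩ := hT.full g hg
      exact ⟨c, hTM₀ h1, h2, h3⟩)
    (fun M' => HR1 v T M' ∧ ∃ S' : Finset Ω,
      M' = hen v (T ⊔ IntermediateField.adjoin k (S' : Set Ω)))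
    ⟨⟨z, hz, rfl⟩, {z}, by
      rw [hM₀, Finset.coe_singleton]
      rfl⟩
    (by
      rintro M' η - hM' ⟨h1, S', h2⟩ h3 h4
      exact ⟨hr1_as p hp h T hT M' S' h2 h1 h3 h4,
        adj_eq_hen h T M' S' h2 (as_isSeparable p M' h3)⟩)
    S hS₀
  exact key.1

end Pool.Agent.D2P
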