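import Pool.Agent.Lib.D2P.R0

/-!
# D2P, row A2g: finite level in the exponents of `p`

If the henselization of `E` with all `p ^ e`-th roots of the elements of `L₀` is the henselization
of `P'(z)`, `P'` algebraic over `L₀`, then for some `e` the henselization of `E` with the
`p ^ e`-th roots is the henselization of `N'(z)`, `N'` finitely generated and algebraic over `L₀`.
-/

set_option autoImplicit false

open Polynomial

namespace Pool.Agent.D2P

open Pool.Agent.H15JM (RVal)
open Pool.Agent.LU1 (VPos adj)
open Pool.Agent.LUC (Cl clF LUs)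
open Pool.Agent.LU3 (Ctx2 RF2 E2r)
open Pool.Agent.D2 (Ctx0)

universe u

variable {k Ω : Type u} [Field k] [Field Ω] [Algebra k Ω] {v : RVal Ω}

theorem rootF_mono {p : ℕ} [Fact p.Prime] [CharP Ω p] (L : IntermediateField k Ω) {e e' : ℕ}
    (h : e ≤ e') : rootF p e L ≤ rootF p e' L := by
  intro a ha
  rw [mem_rootF] at ha ⊢
  obtain ⟨d, rfl⟩ := Nat.exists_eq_add_of_le h
  rw [pow_add, pow_mul]
  exact pow_mem ha _

theorem le_rootF {p : ℕ} [Fact p.Prime] [CharP Ω p] (L : IntermediateField k Ω) (e : ℕ) :
    L ≤ rootF p e L := by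
  intro a ha
  rw [mem_rootF]
  exact pow_mem ha _

theorem rootF_alg {p : ℕ} [Fact p.Prime] [CharP Ω p] (L : IntermediateField k Ω) (e : ℕ)
    {a : Ω} (ha : a ∈ rootF p e L) : IsAlgebraic L a := by
  rw [mem_rootF] at ha
  have h1 : IsAlgebraic L (a ^ p ^ e) := isAlgebraic_algebraMap (⟨_, ha⟩ : L)
  exact h1.of_pow (pow_pos (Fact.out : p.Prime).pos _)

/-- the field of the `p ^ e`-th roots of a finitely generated field is finitely generated -/
theorem rootF_fg [IsAlgClosed Ω] [IsAlgClosed k] (p : ℕ) [Fact p.Prime] [CharP k p] [CharP Ω p]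
    {L : IntermediateField k Ω} (hL : L.FG) (e : ℕ) : (rootF p e L).FG := by
  classical
  obtain ⟨S, hS⟩ := hL
  have hp : 0 < p ^ e := pow_pos (Fact.out : p.Prime).pos _
  have hroot : ∀ s : Ω, ∃ b : Ω, b ^ p ^ e = s := fun s => IsAlgClosed.exists_pow_nat_eq s hp
  choose f hf using hroot
  refine ⟨S.image f, le_antisymm ?_ ?_⟩
  · rw [IntermediateField.adjoin_le_iff]
    intro b hb
    obtain ⟨s, hs, rfl⟩ := Finset.mem_image.1 (Finset.mem_coe.1 hb)
    rw [SetLike.mem_coe, mem_rootF, hf, ← hS]
    exact IntermediateField.subset_adjoin _ _ hs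
  · -- the powers of the elements of `k(f S)` form a field containing `k` and `S`
    set N := IntermediateField.adjoin k ((S.image f : Finset Ω) : Set Ω) with hN
    have hinj : Function.Injective (iterateFrobenius Ω p e) := by
      intro a b hab
      rw [iterateFrobenius_def, iterateFrobenius_def] at hab
      exact iterateFrobenius_inj Ω p e (by rw [iterateFrobenius_def, iterateFrobenius_def]; exact hab)
    set N' : IntermediateField k Ω := (N.toSubfield.map (iterateFrobenius Ω p e)).toIntermediateField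
      (fun c => by
        obtain ⟨c', hc'⟩ := IsAlgClosed.exists_pow_nat_eq c hp
        refine ⟨algebraMap k Ω c', N.algebraMap_mem c', ?_⟩
        rw [iterateFrobenius_def, ← map_pow, hc']) with hN'
    have hL' : L ≤ N' := by
      rw [← hS, IntermediateField.adjoin_le_iff]
      intro s hs
      refine ⟨f s, ?_, ?_⟩
      · exact IntermediateField.subset_adjoin _ _ (Finset.mem_coe.2 (Finset.mem_image_of_mem f hs))
      · rw [iterateFrobenius_def, hf]
    intro a ha
    rw [mem_rootF] at ha
    obtain ⟨b, hb, hab⟩ := hL' ha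
    rw [iterateFrobenius_def] at hab
    have : b = a := hinj (by rw [iterateFrobenius_def, iterateFrobenius_def]; exact hab)
    rw [← this]
    exact hb

/-- finitely many elements of the union are on a finite level -/
theorem exists_level {p : ℕ} [Fact p.Prime] [CharP Ω p] (L : IntermediateField k Ω)
    (S : Finset Ω) (hS : ∀ s ∈ S, s ∈ ⨆ e : ℕ, rootF p e L) :
    ∃ e : ℕ, ∀ s ∈ S, s ∈ rootF p e L := by
  classical
  have hdir : Directed (· ≤ ·) fun e : ℕ => rootF p e L := fun a b =>
    ⟨max a b, rootF_mono L (le_max_left _ _), rootF_mono L (le_max_right _ _)⟩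
  induction S using Finset.induction with
  | empty => exact ⟨0, by simp⟩
  | insert a S ha ih =>
    obtain ⟨e, he⟩ := ih fun s hs => hS s (Finset.mem_insert_of_mem hs)
    have ha' : a ∈ ((⨆ e : ℕ, rootF p e L : IntermediateField k Ω) : Set Ω) :=
      hS a (Finset.mem_insert_self _ _)
    rw [IntermediateField.coe_iSup_of_directed hdir, Set.mem_iUnion] at ha'
    obtain ⟨e', he'⟩ := ha'
    refine ⟨max e e', fun s hs => ?_⟩
    rcases Finset.mem_insert.1 hs with rfl | hs
    · exact rootF_mono L (le_max_right _ _) he'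
    · exact rootF_mono L (le_max_left _ _) (he s hs)

/-- A2g: finite level in the exponents of `p`. -/
theorem root_level [IsAlgClosed Ω] [IsAlgClosed k] (p : ℕ) [Fact p.Prime] [CharP k p]
    [CharP Ω p] (h : Ctx0 k v) (E L₀ : IntermediateField k Ω) (hE : E.FG) (_hL₀ : L₀ ≤ E)
    (hL₀' : L₀.FG) {z : Ω} (P' : IntermediateField k Ω)
    (hP' : ∀ a ∈ P', IsAlgebraic L₀ a)
    (hM : hen v (E ⊔ ⨆ e : ℕ, rootF p e L₀) = hen v (adj P' z)) :
    ∃ (e : ℕ) (N' : IntermediateField k Ω), N'.FG ∧ rootF p e L₀ ≤ N' ∧
      (∀ a ∈ N', IsAlgebraic L₀ a) ∧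
      hen v (E ⊔ rootF p e L₀) = hen v (adj N' z) := by
  classical
  have hL0f := hL₀'
  obtain ⟨SE, hSE⟩ := hE
  -- `E` over a finite level of `P'`
  have e1 : adj P' z = adj ⊥ z ⊔ P' := by
    unfold adj
    rw [bot_sup_eq, sup_comm]
  obtain ⟨S, hSP, hS⟩ := hen_fin' h (adj ⊥ z) P' SE (fun a ha => by
    rw [← e1, ← hM]
    refine le_hen _ ((le_sup_left : E ≤ _) ?_)
    rw [← hSE]
    exact IntermediateField.subset_adjoin _ _ ha)
  -- `z` and the level over a finite level of the roots
  obtain ⟨S', hS', hS''⟩ := hen_fin' h E (⨆ e : ℕ, rootF p e L₀) (insert z S) (fun a ha => by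
    rw [hM]
    rcases Finset.mem_insert.1 ha with rfl | ha
    · exact le_hen _ (mem_adj_self P' a).1
    · exact le_hen _ ((mem_adj_self P' z).2 (hSP a ha)))
  obtain ⟨e, he⟩ := exists_level L₀ S' hS'
  have hroot : ∀ a ∈ insert z S, a ∈ hen v (E ⊔ rootF p e L₀) := by
    intro a ha
    refine hen_mono (sup_le_sup le_rfl ?_) (hS'' a ha)
    rw [IntermediateField.adjoin_le_iff]
    exact fun s hs => he s hs
  refine ⟨e, rootF p e L₀ ⊔ IntermediateField.adjoin k (S : Set Ω), ?_, le_sup_left, ?_, ?_⟩
  · obtain ⟨R, hR⟩ := rootF_fg p hL0f e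
    refine ⟨R ∪ S, ?_⟩
    rw [Finset.coe_union, IntermediateField.adjoin_union, hR]
  · -- algebraic over `L₀`
    intro a ha
    have hle : rootF p e L₀ ⊔ IntermediateField.adjoin k (S : Set Ω) ≤
        (algebraicClosure L₀ Ω).restrictScalars k := by
      refine sup_le ?_ ?_
      · intro b hb
        rw [IntermediateField.mem_restrictScalars, mem_algebraicClosure_iff]
        exact rootF_alg L₀ e hb
      · rw [IntermediateField.adjoin_le_iff]
        intro b hb
        rw [SetLike.mem_coe, IntermediateField.mem_restrictScalars, mem_algebraicClosure_iff]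
        exact hP' b (hSP b hb)
    have := hle ha
    rwa [IntermediateField.mem_restrictScalars, mem_algebraicClosure_iff] at this
  · refine le_antisymm (hen_le (hen_hen _) (sup_le ?_ ?_)) (hen_le (hen_hen _) ?_)
    · rw [← hSE, IntermediateField.adjoin_le_iff]
      intro a ha
      refine hen_mono ?_ (hS a ha)
      refine sup_le (adj_le bot_le (mem_adj_self _ _).1) ?_
      exact le_trans le_sup_right (mem_adj_self _ _).2
    · exact le_trans (le_trans le_sup_left (mem_adj_self _ z).2) (le_hen _)
    · refine adj_le (sup_le (le_trans le_sup_right (le_hen _)) ?_) (hroot z (Finset.mem_insert_self _ _))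
      rw [IntermediateField.adjoin_le_iff]
      intro s hs
      exact hroot s (Finset.mem_insert_of_mem hs)

end Pool.Agent.D2P
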