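import Pool.Agent.Lib.LU1_h15.Final
import Pool.Agent.Lib.D2_h2.Density

/-!
# D2P: a field with a one-parameter frame is separable over, and in the closure of, the field
generated by the monomials and the parameter
-/

set_option autoImplicit false

open Polynomial

namespace Pool.Agent.D2P

open Pool.Agent.H15JM (RVal)
open Pool.Agent.LU1

universe u

section Frame

variable {k Ω : Type u} [Field k] [Field Ω] [Algebra k Ω] {v : RVal Ω} {r : ℕ}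

/-- A lower bound of the values of a derivation on the generators is one on the ring. -/
theorem der_ge_adjoin (htriv : ∀ c : k, v.Ge 0 (algebraMap k Ω c)) {K : IntermediateField k Ω}
    (D : Derivation k K K) (c : ℝ) (S : Set Ω)
    (hS : ∀ x ∈ S, ∃ hx : x ∈ K, v.Ge 0 x ∧ v.Ge c ((D ⟨x, hx⟩ : K) : Ω)) {x : Ω}
    (hx : x ∈ Algebra.adjoin k S) :
    ∃ hx : x ∈ K, v.Ge 0 x ∧ v.Ge c ((D ⟨x, hx⟩ : K) : Ω) := by
  induction hx using Algebra.adjoin_induction with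
  | mem x hx => exact hS x hx
  | algebraMap a =>
    refine ⟨K.algebraMap_mem a, htriv a, ?_⟩
    have h1 : D (⟨algebraMap k Ω a, K.algebraMap_mem a⟩ : K) = 0 := D.map_algebraMap a
    rw [h1]
    exact RVal.Ge.zero
  | add x y _ _ hx hy =>
    obtain ⟨h1, h2, h3⟩ := hx
    obtain ⟨h4, h5, h6⟩ := hy
    refine ⟨K.add_mem h1 h4, h2.add h5, ?_⟩
    have h7 : D (⟨x + y, K.add_mem h1 h4⟩ : K) = D ⟨x, h1⟩ + D ⟨y, h4⟩ :=
      D.map_add ⟨x, h1⟩ ⟨y, h4⟩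
    rw [h7]
    exact h3.add h6
  | mul x y _ _ hx hy =>
    obtain ⟨h1, h2, h3⟩ := hx
    obtain ⟨h4, h5, h6⟩ := hy
    refine ⟨K.mul_mem h1 h4, ?_, ?_⟩
    · have := h2.mul h5
      rwa [add_zero] at this
    · have h7 : D (⟨x * y, K.mul_mem h1 h4⟩ : K) =
          (⟨x, h1⟩ : K) * D ⟨y, h4⟩ + (⟨y, h4⟩ : K) * D ⟨x, h1⟩ :=
        D.leibniz ⟨x, h1⟩ ⟨y, h4⟩
      rw [h7]
      have e1 := h2.mul h6
      have e2 := h5.mul h3
      rw [zero_add] at e1 e2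
      exact e1.add e2

/-- A derivation of the field of a frame which kills the monomials and the parameter is zero. -/
theorem der_zero_of_frame (h : Ctx k v r) (B : BF k v) {K : IntermediateField k Ω}
    (hK : FracIs B.R K) (D : Derivation k K K)
    (hχ : ∀ γ ∈ B.Γ, ∀ hx : B.χ γ ∈ K, D ⟨B.χ γ, hx⟩ = 0)
    (hy : ∀ hx : B.y ∈ K, D ⟨B.y, hx⟩ = 0) : D = 0 := by
  classical
  have htriv : ∀ c : k, v.Ge 0 (algebraMap k Ω c) := by
    intro c hc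
    rw [h.triv c fun h0 => hc (by rw [h0, map_zero])]
  obtain ⟨F, hF⟩ := B.fgen
  have hadj : ∀ x ∈ Algebra.adjoin k ((F : Set Ω) ∪ B.χ '' {γ | γ ∈ B.Γ ∧ 0 ≤ γ}), x ∈ B.R := by
    intro x hx
    rw [hF]
    exact le_locv _ hx
  have hFR : ∀ x ∈ F, x ∈ B.R := fun x hx =>
    hadj x (Algebra.subset_adjoin (Or.inl hx))
  -- lower bounds
  have key : ∀ c : ℝ, (∀ x ∈ F, ∀ hx : x ∈ K, v.Ge c ((D ⟨x, hx⟩ : K) : Ω)) →
      ∀ x ∈ B.R, ∀ hx : x ∈ K, v.Ge c ((D ⟨x, hx⟩ : K) : Ω) := by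
    intro c hc x hx hxK
    rw [hF] at hx
    obtain ⟨a, ha, b, hb, hb0, hvb, hab⟩ := hx
    have hgen : ∀ x ∈ ((F : Set Ω) ∪ B.χ '' {γ | γ ∈ B.Γ ∧ 0 ≤ γ}),
        ∃ hx : x ∈ K, v.Ge 0 x ∧ v.Ge c ((D ⟨x, hx⟩ : K) : Ω) := by
      rintro x (hx | ⟨γ, ⟨hγ, hγ0⟩, rfl⟩)
      · exact ⟨hK.1 x (hFR x hx), B.nonneg x (hFR x hx), hc x hx _⟩
      · refine ⟨hK.1 _ (B.χ_mem γ hγ hγ0), B.nonneg _ (B.χ_mem γ hγ hγ0), ?_⟩
        rw [hχ γ hγ]
        exact RVal.Ge.zero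
    obtain ⟨ha1, -, ha3⟩ := der_ge_adjoin htriv D c _ hgen ha
    obtain ⟨hb1, -, hb3⟩ := der_ge_adjoin htriv D c _ hgen hb
    have hxR : x ∈ B.R := by rw [hF]; exact ⟨a, ha, b, hb, hb0, hvb, hab⟩
    have hmul : (⟨a, ha1⟩ : K) = (⟨b, hb1⟩ : K) * ⟨x, hxK⟩ := by
      apply Subtype.ext
      show a = b * x
      rw [hab]; field_simp
    have hD : D ⟨a, ha1⟩ = (⟨b, hb1⟩ : K) * D ⟨x, hxK⟩ + (⟨x, hxK⟩ : K) * D ⟨b, hb1⟩ := by
      rw [hmul]; exact D.leibniz _ _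
    have hD2 : ((D ⟨x, hxK⟩ : K) : Ω) =
        b⁻¹ * (((D ⟨a, ha1⟩ : K) : Ω) - x * ((D ⟨b, hb1⟩ : K) : Ω)) := by
      rw [hD]
      show ((D ⟨x, hxK⟩ : K) : Ω) = b⁻¹ * ((b * ((D ⟨x, hxK⟩ : K) : Ω) +
        x * ((D ⟨b, hb1⟩ : K) : Ω)) - x * ((D ⟨b, hb1⟩ : K) : Ω))
      field_simp
      ring
    rw [hD2]
    have e1 : v.Ge 0 b⁻¹ := fun _ => by rw [v.map_inv hb0, hvb, neg_zero]
    have e2 := (B.nonneg x hxR).mul hb3
    rw [zero_add] at e2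
    have e3 := e1.mul (ha3.sub e2)
    rwa [zero_add] at e3
  -- the derivation is zero on the generators
  have hF0 : ∀ x ∈ F, ∀ hx : x ∈ K, D ⟨x, hx⟩ = 0 := by
    by_contra hcon
    push Not at hcon
    set F' : Finset Ω := F.filter fun x => ∃ hx : x ∈ K, D ⟨x, hx⟩ ≠ 0 with hF'
    have hne : F'.Nonempty := by
      obtain ⟨x, hx, hxK, hD⟩ := hcon
      exact ⟨x, Finset.mem_filter.2 ⟨hx, hxK, hD⟩⟩
    let val : Ω → ℝ := fun x => if hx : x ∈ K then v ((D ⟨x, hx⟩ : K) : Ω) else 0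
    obtain ⟨x₀, hx₀, hmin⟩ := Finset.exists_min_image F' val hne
    obtain ⟨hx₀F, hx₀K, hD0⟩ := Finset.mem_filter.1 hx₀
    have hval : ∀ x, ∀ hx : x ∈ K, val x = v ((D ⟨x, hx⟩ : K) : Ω) := fun x hx => dif_pos hx
    have hD0' : ((D ⟨x₀, hx₀K⟩ : K) : Ω) ≠ 0 := fun h0 => hD0 (Subtype.ext h0)
    have hall := key (val x₀) (fun x hx hxK => by
      by_cases h0 : D ⟨x, hxK⟩ = 0
      · rw [h0]; exact RVal.Ge.zero
      · have := hmin x (Finset.mem_filter.2 ⟨hx, hxK, h0⟩)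
        rw [hval x hxK] at this
        exact RVal.Ge.of_le this)
    obtain ⟨c, hc⟩ := h.residue (B.nonneg x₀ (hFR x₀ hx₀F))
    obtain ⟨γ, hγ, hγ0, a, ha, b, hb, hab⟩ := B.gen (x₀ - algebraMap k Ω c)
      (B.R.sub_mem (hFR x₀ hx₀F) (B.R.algebraMap_mem c)) hc
    have haK := hK.1 a ha
    have hbK := hK.1 b hb
    have hχK := hK.1 _ (B.χ_mem γ hγ hγ0.le)
    have hyK := hK.1 _ B.y_mem
    have e0 : (⟨x₀, hx₀K⟩ : K) = algebraMap k K c +
        ((⟨B.χ γ, hχK⟩ : K) * ⟨a, haK⟩ + (⟨B.y, hyK⟩ : K) * ⟨b, hbK⟩) := by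
      apply Subtype.ext
      show x₀ = algebraMap k Ω c + (B.χ γ * a + B.y * b)
      rw [← hab]; ring
    have e1 : D ⟨x₀, hx₀K⟩ = (⟨B.χ γ, hχK⟩ : K) * D ⟨a, haK⟩ +
        (⟨B.y, hyK⟩ : K) * D ⟨b, hbK⟩ := by
      rw [e0, D.map_add, D.map_algebraMap, zero_add, D.map_add, D.leibniz, D.leibniz,
        hχ γ hγ, hy]
      simp only [smul_eq_mul, mul_zero, add_zero]
    have e2 : ((D ⟨x₀, hx₀K⟩ : K) : Ω) = B.χ γ * ((D ⟨a, haK⟩ : K) : Ω) +
        B.y * ((D ⟨b, hbK⟩ : K) : Ω) := by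
      rw [e1]; rfl
    have g1 : v.Ge (min γ (v B.y) + val x₀) (B.χ γ * ((D ⟨a, haK⟩ : K) : Ω)) := by
      refine RVal.Ge.mul ?_ (hall a ha haK)
      intro _
      rw [B.χ_val γ hγ]
      exact min_le_left _ _
    have g2 : v.Ge (min γ (v B.y) + val x₀) (B.y * ((D ⟨b, hbK⟩ : K) : Ω)) := by
      refine RVal.Ge.mul ?_ (hall b hb hbK)
      intro _
      exact min_le_right _ _
    have g3 := g1.add g2
    rw [← e2] at g3
    have g4 := g3 hD0'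
    rw [hval x₀ hx₀K] at g4
    have g5 : 0 < min γ (v B.y) := lt_min hγ0 B.y_pos
    linarith
  -- hence on the ring
  have hR0 : ∀ x ∈ B.R, ∀ hx : x ∈ K, D ⟨x, hx⟩ = 0 := by
    intro x hx hxK
    by_contra h0
    have h0' : ((D ⟨x, hxK⟩ : K) : Ω) ≠ 0 := fun h1 => h0 (Subtype.ext h1)
    have h1 := key (v ((D ⟨x, hxK⟩ : K) : Ω) + 1) (fun z hz hzK => by
      rw [hF0 z hz hzK]; exact RVal.Ge.zero) x hx hxK h0'
    linarith
  ext x
  obtain ⟨a, ha, b, hb, hb0, hab⟩ := hK.2 (x : Ω) x.2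
  have haK := hK.1 a ha
  have hbK := hK.1 b hb
  have hmul : (⟨a, haK⟩ : K) = (⟨b, hbK⟩ : K) * x := by
    apply Subtype.ext
    show a = b * (x : Ω)
    rw [hab]; field_simp
  have h1 := hR0 a ha haK
  rw [hmul, D.leibniz, hR0 b hb hbK, smul_zero, add_zero, smul_eq_mul] at h1
  have h2 : (⟨b, hbK⟩ : K) ≠ 0 := fun h3 => hb0 (congrArg Subtype.val h3)
  have h3 : D x = 0 := (mul_eq_zero.1 h1).resolve_left h2
  rw [h3]
  rfl

/-- **A field with a frame is separable over the field of the monomials and the parameter.** -/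
theorem sep_of_frame (h : Ctx k v r) (B : BF k v) {K : IntermediateField k Ω}
    (hfg : ∃ S : Finset Ω, K = IntermediateField.adjoin k (S : Set Ω))
    (hK : FracIs B.R K) {g : Ω} (hg : g ∈ K) :
    IsSeparable (IntermediateField.adjoin k (B.χ '' {γ | γ ∈ B.Γ} ∪ {B.y})) g := by
  classical
  have hess : Algebra.EssFiniteType k K := by
    rw [IntermediateField.essFiniteType_iff]
    obtain ⟨S, hS⟩ := hfg
    exact ⟨S, hS.symm⟩
  have hχK : ∀ γ ∈ B.Γ, B.χ γ ∈ K := fun γ hγ => B.χ_mem_frac hK hγ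
  have hyK : B.y ∈ K := hK.1 _ B.y_mem
  set Z : Set K := {z | (z : Ω) ∈ B.χ '' {γ | γ ∈ B.Γ} ∪ {B.y}} with hZ
  have hspan : Submodule.span K (KaehlerDifferential.D k K '' Z) = ⊤ := by
    by_contra hne
    obtain ⟨f, hf0, hf⟩ := Submodule.exists_le_ker_of_lt_top _ (lt_top_iff_ne_top.2 hne)
    set D : Derivation k K K := f.compDer (KaehlerDifferential.D k K) with hD
    have hDZ : ∀ z ∈ Z, D z = 0 := fun z hz => hf (Submodule.subset_span ⟨z, hz, rfl⟩)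
    have hD0 : D = 0 := der_zero_of_frame h B hK D
      (fun γ hγ hx => hDZ _ (Or.inl ⟨γ, hγ, rfl⟩)) (fun hx => hDZ _ (Or.inr rfl))
    apply hf0
    refine LinearMap.ext_on (KaehlerDifferential.span_range_derivation k K) ?_
    rintro _ ⟨x, rfl⟩
    have : D x = 0 := by rw [hD0]; rfl
    exact this
  have hsep := sep_of_span Z hspan
  have h2 := sep_transfer K Z hsep g hg
  have h3 : (fun z : K => (z : Ω)) '' Z = B.χ '' {γ | γ ∈ B.Γ} ∪ {B.y} := by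
    ext x
    constructor
    · rintro ⟨z, hz, rfl⟩
      exact hz
    · intro hx
      have hxK : x ∈ K := by
        rcases hx with ⟨γ, hγ, rfl⟩ | hx
        · exact hχK γ hγ
        · rw [Set.mem_singleton_iff.1 hx]; exact hyK
      exact ⟨⟨x, hxK⟩, hx, rfl⟩
  rwa [h3] at h2

/-- **The elements of a frame are approximated by the polynomials in the monomials and the
parameter.** -/
theorem dense_of_frame (h : Ctx k v r) (B : BF k v) {f : Ω} (hf : f ∈ B.R) (σ : ℝ) :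
    ∃ g ∈ Algebra.adjoin k (B.χ '' {γ | γ ∈ B.Γ ∧ 0 ≤ γ} ∪ {B.y}), v.Ge σ (f - g) := by
  obtain ⟨X, hX0, hXi, -⟩ := h.rank
  -- a positive exponent
  obtain ⟨δ, hδ, hδ0⟩ : ∃ δ ∈ B.Γ, 0 < δ := by
    obtain ⟨m, hm, hmem⟩ := B.full B.y B.y_ne
    exact ⟨_, hmem, mul_pos (by exact_mod_cast hm) B.y_pos⟩
  have hrep : B.Rep B.y 0 1 := by
    refine ⟨B.Γ.zero_mem, 1, ⟨B.R.one_mem, one_ne_zero, v.map_one⟩, δ, hδ, hδ0, 0,
      B.R.zero_mem, ?_⟩
    rw [B.χ_zero]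
    ring
  obtain ⟨P, hPc, hPd, hPe⟩ := D2h2.density h B B.y_pos hrep hf σ
  refine ⟨P.coeff 0, hPc 0, ?_⟩
  have hP : P = C (P.coeff 0) := by
    refine eq_C_of_degree_le_zero ?_
    have h1 : P.degree < ((1 : ℕ) : WithBot ℕ) := hPd
    have h2 : P = 0 ∨ P ≠ 0 := em _
    rcases h2 with h2 | h2
    · rw [h2]; simp
    · rw [degree_eq_natDegree h2] at h1 ⊢
      have h3 : P.natDegree < 1 := by exact_mod_cast h1
      exact_mod_cast Nat.lt_one_iff.1 h3 |>.le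
  rw [hP, eval_C] at hPe
  exact hPe

end Frame

end Pool.Agent.D2P
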