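import Pool.Agent.Lib.D2P.R0
import Pool.Agent.Lib.D2P.FrameSep
import Pool.Agent.Lib.LU3.Row2b
import Pool.Agent.Lib.TA.Basis

/-!
# D2P, row A2h: a function field of defect one has the henselization of a rational frame
-/

set_option autoImplicit false

open Polynomial

namespace Pool.Agent.D2P

open Pool.Agent.H15JM (RVal)
open Pool.Agent.LU1 (VPos adj Ctx BF FracIs Good)
open Pool.Agent.LUC (Cl clF)
open Pool.Agent.LU3 (Ctx2 RF2 E2r resv)
open Pool.Agent.D2 (Ctx0)

universe u

variable {k Ω : Type u} [Field k] [Field Ω] [Algebra k Ω] {v : RVal Ω}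

/-- Transfer of separability from an intermediate field. -/
theorem sep_transfer_elt (E : IntermediateField k Ω) (Z : Set E) (a : E)
    (h : IsSeparable (IntermediateField.adjoin k Z) a) :
    IsSeparable (IntermediateField.adjoin k ((fun z : E => (z : Ω)) '' Z)) (a : Ω) := by
  have hmap : (IntermediateField.adjoin k Z).map E.val =
      IntermediateField.adjoin k ((fun z : E => (z : Ω)) '' Z) :=
    IntermediateField.adjoin_map _ _ _
  have hmem : ∀ a : IntermediateField.adjoin k Z, ((a : E) : Ω) ∈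
      IntermediateField.adjoin k ((fun z : E => (z : Ω)) '' Z) := by
    intro a
    rw [← hmap]
    exact ⟨a, a.2, rfl⟩
  let φ : IntermediateField.adjoin k Z →+*
      IntermediateField.adjoin k ((fun z : E => (z : Ω)) '' Z) :=
    { toFun := fun a => ⟨((a : E) : Ω), hmem a⟩
      map_one' := rfl
      map_mul' := fun _ _ => rfl
      map_zero' := rfl
      map_add' := fun _ _ => rfl }
  have h2 : ((minpoly (IntermediateField.adjoin k Z) a).map φ).Separable :=
    Polynomial.Separable.map h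
  refine Polynomial.Separable.of_dvd h2 (minpoly.dvd _ _ ?_)
  have h3 := minpoly.aeval (IntermediateField.adjoin k Z) a
  have h4 := congrArg (fun z : E => (z : Ω)) h3
  have h5 : ((Polynomial.aeval a (minpoly (IntermediateField.adjoin k Z) a) : E) : Ω) =
      Polynomial.eval₂ ((algebraMap E Ω).comp
        (algebraMap (IntermediateField.adjoin k Z) E)) (a : Ω)
        (minpoly (IntermediateField.adjoin k Z) a) := by
    rw [Polynomial.aeval_def]
    exact Polynomial.hom_eval₂ _ _ (algebraMap E Ω) _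
  rw [Polynomial.aeval_def, Polynomial.eval₂_map]
  have h6 : (algebraMap (IntermediateField.adjoin k ((fun z : E => (z : Ω)) '' Z)) Ω).comp φ =
      (algebraMap E Ω).comp (algebraMap (IntermediateField.adjoin k Z) E) := rfl
  rw [h6, ← h5]
  exact h4

/-- The reals with a multiple in `Γ`. -/
def ratSpan (Γ : AddSubgroup ℝ) : Submodule ℚ ℝ where
  carrier := {a | ∃ m : ℕ, 0 < m ∧ (m : ℝ) * a ∈ Γ}
  add_mem' := by
    rintro a b ⟨m, hm, ha⟩ ⟨l, hl, hb⟩
    refine ⟨m * l, Nat.mul_pos hm hl, ?_⟩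
    have e : ((m * l : ℕ) : ℝ) * (a + b) = l • ((m : ℝ) * a) + m • ((l : ℝ) * b) := by
      rw [nsmul_eq_mul, nsmul_eq_mul]
      push_cast
      ring
    rw [e]
    exact Γ.add_mem (Γ.nsmul_mem ha l) (Γ.nsmul_mem hb m)
  zero_mem' := ⟨1, one_pos, by rw [mul_zero]; exact Γ.zero_mem⟩
  smul_mem' := by
    rintro q a ⟨m, hm, ha⟩
    refine ⟨m * q.den, Nat.mul_pos hm q.pos, ?_⟩
    have h1 : (q : ℝ) * (q.den : ℝ) = (q.num : ℝ) := by exact_mod_cast Rat.mul_den_eq_num q
    have e : ((m * q.den : ℕ) : ℝ) * (q • a) = q.num • ((m : ℝ) * a) := by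
      rw [Rat.smul_def, zsmul_eq_mul, ← h1]
      push_cast
      ring
    rw [e]
    exact Γ.zsmul_mem ha _

section

variable {r : ℕ}

/-- the values of `r` elements with independent values span the values -/
theorem span_of_ind (h2 : Ctx2 k v r) {x : Fin r → Ω}
    (hind : LinearIndependent ℚ fun i => v (x i)) (hx : ∀ i, x i ≠ 0) :
    ∀ g : Ω, g ≠ 0 → v g ∈ Submodule.span ℚ (Set.range fun i => v (x i)) := by
  obtain ⟨X, hX0, hXi, hX⟩ := h2.rank
  have hle : Submodule.span ℚ (Set.range fun i => v (x i)) ≤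
      Submodule.span ℚ (Set.range fun i => v (X i)) := by
    rw [Submodule.span_le]
    rintro _ ⟨i, rfl⟩
    exact hX (x i) (hx i)
  have hfin : FiniteDimensional ℚ (Submodule.span ℚ (Set.range fun i => v (X i))) :=
    FiniteDimensional.span_of_finite ℚ (Set.finite_range _)
  have heq := Submodule.eq_of_le_of_finrank_eq hle (by
    rw [finrank_span_eq_card hind, finrank_span_eq_card hXi])
  intro g hg
  rw [heq]
  exact hX g hg

end

/-- A2h: a function field of defect one has the henselization of a rational frame. -/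
theorem hrat_one [IsAlgClosed Ω] [IsAlgClosed k] (p : ℕ) (hp : p.Prime) [CharP k p] {r : ℕ}
    (h2 : Ctx2 k v r) (N' : IntermediateField k Ω) (hN' : N'.FG) (x : Fin r → Ω) (y : Ω)
    (hx : ∀ i, x i ∈ N' ∧ x i ≠ 0 ∧ 0 < v (x i))
    (hind : LinearIndependent ℚ fun i => v (x i)) (hy : y ∈ N')
    (hyx : Transcendental (IntermediateField.adjoin k (Set.range x)) y)
    (halg : ∀ a ∈ N', IsAlgebraic (IntermediateField.adjoin k (Set.range x ∪ {y})) a) :
    ∃ (Γ : AddSubgroup ℝ) (χ : ℝ → Ω) (y' : Ω), Γ.FG ∧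
      (∀ g : Ω, g ≠ 0 → ∃ m : ℕ, 0 < m ∧ (m : ℝ) * v g ∈ Γ) ∧ (∀ γ ∈ Γ, χ γ ≠ 0) ∧
      (∀ γ ∈ Γ, ∀ δ ∈ Γ, χ (γ + δ) = χ γ * χ δ) ∧ (∀ γ ∈ Γ, v (χ γ) = γ) ∧ y' ≠ 0 ∧ 0 < v y' ∧
      hen v (IntermediateField.adjoin k (χ '' {γ | γ ∈ Γ} ∪ {y'})) = hen v N' := by
  classical
  set G : Set Ω := Set.range x ∪ {y} with hG
  set F₀ := IntermediateField.adjoin k G with hF₀
  set E : IntermediateField k Ω := (algebraicClosure F₀ Ω).restrictScalars k with hE
  have memE : ∀ {a : Ω}, a ∈ E ↔ IsAlgebraic F₀ a := by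
    intro a
    rw [hE, IntermediateField.mem_restrictScalars, mem_algebraicClosure_iff]
  have hFE : F₀ ≤ E := fun a ha => memE.2 (isAlgebraic_algebraMap (⟨a, ha⟩ : F₀))
  have hNE : N' ≤ E := fun a ha => memE.2 (halg a ha)
  have hFN : F₀ ≤ N' := by
    rw [hF₀, IntermediateField.adjoin_le_iff]
    rintro z (⟨i, rfl⟩ | hz)
    · exact (hx i).1
    · rw [Set.mem_singleton_iff.1 hz]; exact hy
  have hxE : ∀ i, x i ∈ E := fun i => hNE (hx i).1
  have hyE : y ∈ E := hNE hy
  have hEcl : IsAlgClosed E := by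
    have h : IsAlgClosed (algebraicClosure F₀ Ω) := IsAlgClosure.isAlgClosed F₀
    exact h
  -- the generators in `E`
  set Z : Set E := {z | (z : Ω) ∈ G} with hZ
  have hZG : (fun z : E => (z : Ω)) '' Z = G := by
    ext a
    constructor
    · rintro ⟨z, hz, rfl⟩; exact hz
    · intro ha
      refine ⟨⟨a, hFE (IntermediateField.subset_adjoin _ _ ha)⟩, ha, rfl⟩
  have halgZ : ∀ a : E, IsAlgebraic (IntermediateField.adjoin k Z) a := by
    intro a
    refine LU3.R2b.alg_transfer E Z G (fun g hg => ?_) a (memE.1 a.2)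
    exact ⟨⟨g, hFE (IntermediateField.subset_adjoin _ _ hg)⟩,
      IntermediateField.subset_adjoin _ _ hg, rfl⟩
  -- the context
  have hspan := span_of_ind h2 hind fun i => (hx i).2.1
  have htr : Algebra.trdeg k E = r + 1 := by
    refine le_antisymm ?_ ?_
    · have h3 := LU1.trdeg_le_of_isAlgebraic (k := k) Z ⟨halgZ⟩
      refine h3.trans ?_
      have h4 : Z ⊆ Set.range (fun o : Option (Fin r) => (o.elim (⟨y, hyE⟩ : E)
          fun i => (⟨x i, hxE i⟩ : E))) := by
        rintro z (⟨i, hi⟩ | hz)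
        · exact ⟨some i, Subtype.ext hi⟩
        · exact ⟨none, Subtype.ext (Set.mem_singleton_iff.1 hz).symm⟩
      have h5 := (Cardinal.mk_le_mk_of_subset h4).trans
        (by simpa using Cardinal.mk_range_le_lift (f := fun o : Option (Fin r) =>
          (o.elim (⟨y, hyE⟩ : E) fun i => (⟨x i, hxE i⟩ : E))))
      refine h5.trans (le_of_eq ?_)
      simp
    · have h3 : AlgebraicIndependent k x :=
        TA.algInd_of_val h2.triv (fun i => (hx i).2.1) hind
      have h4 : Transcendental (Algebra.adjoin k (Set.range x)) y := by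
        intro h5
        apply hyx
        exact (IntermediateField.isAlgebraic_adjoin_iff).2 h5
      have h5 := (h3.option_iff_transcendental y).2 h4
      have h6 : AlgebraicIndependent k (fun o : Option (Fin r) => (o.elim (⟨y, hyE⟩ : E)
          fun i => (⟨x i, hxE i⟩ : E))) := by
        refine AlgebraicIndependent.of_comp E.val ?_
        have e : (E.val ∘ fun o : Option (Fin r) => (o.elim (⟨y, hyE⟩ : E)
          fun i => (⟨x i, hxE i⟩ : E))) = fun o : Option (Fin r) => o.elim y x := by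
          funext o
          cases o <;> rfl
        rw [e]
        exact h5
      have h7 := h6.lift_cardinalMk_le_trdeg
      simpa using h7
  have hctx : Ctx k (resv v E) r :=
    { triv := fun c hc => h2.triv c hc
      res := fun a ha hv => by
        have ha' : (a : Ω) ≠ 0 := fun h0 => ha (Subtype.ext h0)
        obtain ⟨c, hc, hp⟩ := h2.res (a : Ω) ha' hv
        refine ⟨c, hc, fun h0 => ?_⟩
        exact hp fun h1 => h0 (Subtype.ext h1)
      rpos := h2.rpos
      trdeg := htr
      rank := ⟨fun i => ⟨x i, hxE i⟩, fun i h0 => (hx i).2.1 (congrArg Subtype.val h0), hind,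
        fun a ha => hspan (a : Ω) fun h0 => ha (Subtype.ext h0)⟩ }
  -- the field in `E`
  set N₀ : IntermediateField k E := N'.comap E.val with hN₀
  have memN : ∀ a : E, a ∈ N₀ ↔ (a : Ω) ∈ N' := fun a => Iff.rfl
  have hfg : ∃ S : Finset E, N₀ = IntermediateField.adjoin k (S : Set E) := by
    obtain ⟨S', hS'⟩ := hN'
    have hS'E : ∀ s ∈ S', s ∈ E := fun s hs => hNE (by
      rw [← hS']; exact IntermediateField.subset_adjoin _ _ hs)
    refine ⟨S'.subtype (· ∈ E), le_antisymm (fun a ha => ?_) ?_⟩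
    · have h3 : (a : Ω) ∈ N' := (memN a).1 ha
      have h4 : (fun z : E => (z : Ω)) '' ((S'.subtype (· ∈ E) : Finset E) : Set E) =
          (S' : Set Ω) := by
        ext b
        constructor
        · rintro ⟨z, hz, rfl⟩
          exact Finset.mem_subtype.1 hz
        · intro hb
          exact ⟨⟨b, hS'E b hb⟩, Finset.mem_subtype.2 hb, rfl⟩
      have h5 : (IntermediateField.adjoin k
          ((S'.subtype (· ∈ E) : Finset E) : Set E)).map E.val = N' := by
        rw [IntermediateField.adjoin_map, ← hS', ← h4]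
        rfl
      rw [← h5] at h3
      obtain ⟨b, hb, hba⟩ := h3
      have : b = a := Subtype.ext hba
      rw [← this]
      exact hb
    · rw [IntermediateField.adjoin_le_iff]
      intro s hs
      rw [SetLike.mem_coe, memN, ← hS']
      exact IntermediateField.subset_adjoin _ _ (Finset.mem_subtype.1 hs)
  have hZN : IntermediateField.adjoin k Z ≤ N₀ := by
    rw [IntermediateField.adjoin_le_iff]
    intro z hz
    rw [SetLike.mem_coe, memN]
    exact hFN (IntermediateField.subset_adjoin _ _ hz)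
  have halgN : ∀ g : E, IsAlgebraic N₀ g := fun g => isAlgebraic_mono hZN (halgZ g)
  obtain ⟨B, hB⟩ := LU1.good_all p hp hctx N₀ hfg halgN
  -- the new field
  set E' := IntermediateField.adjoin k ((fun γ => ((B.χ γ : E) : Ω)) '' {γ | γ ∈ B.Γ} ∪
    {((B.y : E) : Ω)}) with hE'
  have hχE' : ∀ γ ∈ B.Γ, ((B.χ γ : E) : Ω) ∈ E' := fun γ hγ =>
    IntermediateField.subset_adjoin _ _ (Or.inl ⟨γ, hγ, rfl⟩)
  have hyE' : ((B.y : E) : Ω) ∈ E' := IntermediateField.subset_adjoin _ _ (Or.inr rfl)
  refine ⟨B.Γ, fun γ => ((B.χ γ : E) : Ω), ((B.y : E) : Ω), B.fg, fun g hg => ?_, fun γ hγ h0 => ?_,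
    fun γ hγ δ hδ => ?_, fun γ hγ => ?_, fun h0 => ?_, ?_, ?_⟩
  · have h3 : Submodule.span ℚ (Set.range fun i => v (x i)) ≤ ratSpan B.Γ := by
      rw [Submodule.span_le]
      rintro _ ⟨i, rfl⟩
      exact B.full (⟨x i, hxE i⟩ : E) fun h0 => (hx i).2.1 (congrArg Subtype.val h0)
    exact h3 (hspan g hg)
  · exact B.χ_ne γ hγ (Subtype.ext h0)
  · show ((B.χ (γ + δ) : E) : Ω) = _
    rw [B.χ_add γ hγ δ hδ]; rfl
  · exact B.χ_val γ hγ
  · exact B.y_ne (Subtype.ext h0)
  · exact B.y_pos
  · refine le_antisymm (hen_mono ?_) (hen_le (hen_hen _) ?_)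
    · rw [IntermediateField.adjoin_le_iff]
      rintro z (⟨γ, hγ, rfl⟩ | hz)
      · exact (memN _).1 (B.χ_mem_frac hB hγ)
      · rw [Set.mem_singleton_iff.1 hz]
        exact (memN _).1 (hB.1 _ B.y_mem)
    · intro a ha
      rw [mem_hen]
      set a₀ : E := ⟨a, hNE ha⟩ with ha₀
      have ha₀N : a₀ ∈ N₀ := ha
      constructor
      · -- density
        have hadj : ∀ g ∈ Algebra.adjoin k (B.χ '' {γ | γ ∈ B.Γ ∧ 0 ≤ γ} ∪ {B.y}),
            (g : Ω) ∈ E' := by
          intro g hg
          have h3 : Algebra.adjoin k (B.χ '' {γ | γ ∈ B.Γ ∧ 0 ≤ γ} ∪ {B.y}) ≤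
              (E'.comap E.val).toSubalgebra := by
            rw [Algebra.adjoin_le_iff]
            rintro z (⟨γ, ⟨hγ, -⟩, rfl⟩ | hz)
            · exact hχE' γ hγ
            · rw [Set.mem_singleton_iff.1 hz]; exact hyE'
          exact h3 hg
        have hR : ∀ f ∈ B.R, (f : Ω) ∈ Cl v E'.toSubfield := by
          intro f hf c
          obtain ⟨g, hg, hge⟩ := dense_of_frame hctx B hf c
          refine ⟨(g : Ω), hadj g hg, fun h0 => ?_⟩
          exact hge fun h1 => h0 (by
            have := congrArg (fun z : E => (z : Ω)) h1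
            exact this)
        obtain ⟨f, hf, g, hg, hg0, hfg'⟩ := hB.2 a₀ ha₀N
        have h3 : a = (f : Ω) * ((g : Ω))⁻¹ := by
          have := congrArg (fun z : E => (z : Ω)) hfg'
          rw [← div_eq_mul_inv]
          exact this
        rw [h3]
        exact LUC.Cl.mul (hR f hf) (LUC.Cl.inv (hR g hg))
      · have h3 := sep_of_frame hctx B hfg hB ha₀N
        have h4 := sep_transfer_elt E _ a₀ h3
        have h5 : (fun z : E => (z : Ω)) '' (B.χ '' {γ | γ ∈ B.Γ} ∪ {B.y}) =
            (fun γ => ((B.χ γ : E) : Ω)) '' {γ | γ ∈ B.Γ} ∪ {((B.y : E) : Ω)} := by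
          rw [Set.image_union, Set.image_singleton, Set.image_image]
        rw [h5] at h4
        exact h4

end Pool.Agent.D2P
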