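import Pool.Agent.Lib.D2P.R0

/-!
# D2P, row A2f: from the normal base `T` down to `T ∩ M`

`M` is henselian, contained in the henselization of `T(z)`, `z ∈ M`; `T` is a normal extension of
the perfect field `P' = M ∩ T`. Then `M` is the henselization of `P'(z)`: every automorphism over
the latter field agrees on a finite level of `T` with an automorphism over `M`.
-/

set_option autoImplicit false

open Polynomial

namespace Pool.Agent.D2P

open Pool.Agent.H15JM (RVal)
open Pool.Agent.LU1 (VPos adj)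
open Pool.Agent.LUC (Cl clF LUs)
open Pool.Agent.LU3 (Ctx2 RF2 E2r)
open Pool.Agent.D2 (Ctx0)

universe u

variable {k Ω : Type u} [Field k] [Field Ω] [Algebra k Ω] {v : RVal Ω}

/-- a separable element over a separable extension -/
theorem isSeparable_trans' {E F : IntermediateField k Ω} (hF : ∀ a ∈ F, IsSeparable E a) {a : Ω}
    (ha : IsSeparable F a) : IsSeparable E a := by
  have hle : F ≤ (separableClosure E Ω).restrictScalars k := by
    intro b hb
    rw [IntermediateField.mem_restrictScalars, mem_separableClosure_iff]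
    exact hF b hb
  have h1 : IsSeparable ((separableClosure E Ω).restrictScalars k) a := isSeparable_mono hle ha
  have h2 : a ∈ separableClosure (separableClosure E Ω) Ω := mem_separableClosure_iff.2 h1
  rw [separableClosure.separableClosure_eq_bot, IntermediateField.mem_bot] at h2
  obtain ⟨b, hb⟩ := h2
  rw [← hb]
  exact mem_separableClosure_iff.1 b.2

/-- an automorphism over a smaller field agrees at one element of `T` with an automorphism
over `M`, `T` normal over `M ∩ T` -/
theorem exists_aut [IsAlgClosed Ω] (T P' M : IntermediateField k Ω)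
    (hΩ : ∀ g : Ω, IsAlgebraic M g) (hP' : P' = M ⊓ T)
    (hnorm : ∀ a ∈ T, ∀ a' : Ω, aeval a' (minpoly P' a) = 0 → a' ∈ T)
    (σ : Ω →+* Ω) (hσ : ∀ a ∈ P', σ a = a) {θ : Ω} (hθ : θ ∈ T) :
    ∃ τ : Ω ≃ₐ[M] Ω, τ θ = σ θ := by
  have hP'M : P' ≤ M := by rw [hP']; exact inf_le_left
  have : Algebra.IsAlgebraic M Ω := ⟨hΩ⟩
  have : IsAlgClosure M Ω := ⟨inferInstance, inferInstance⟩
  have : Normal M Ω := IsAlgClosure.normal M Ω
  set f := minpoly M θ with hf
  have hint : IsIntegral M θ := (hΩ θ).isIntegral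
  -- the coefficients of `f` are in `T`
  have hT : f.map (algebraMap M Ω) ∈ Polynomial.lifts (algebraMap T Ω) := by
    have hs : (f.map (algebraMap M Ω)).Splits := IsAlgClosed.splits _
    have hmon : (f.map (algebraMap M Ω)).Monic := (minpoly.monic hint).map _
    rw [hs.eq_prod_roots_of_monic hmon]
    refine Subsemiring.multiset_prod_mem _ _ fun c hc => ?_
    obtain ⟨r, hr, rfl⟩ := Multiset.mem_map.1 hc
    have hr1 : aeval r f = 0 := by
      have := isRoot_of_mem_roots hr
      rwa [IsRoot.def, eval_map, ← aeval_def] at this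
    have hrT : r ∈ T := hnorm θ hθ r (aeval_minpoly_mono hP'M hr1)
    have : (X - C r : Polynomial Ω) = (X - C (⟨r, hrT⟩ : T) : T[X]).map (algebraMap T Ω) := by
      rw [Polynomial.map_sub, map_X, map_C]
      rfl
    rw [this]
    exact ⟨_, rfl⟩
  have hP : f.map (algebraMap M Ω) ∈ Polynomial.lifts (algebraMap P' Ω) := by
    rw [lifts_iff_coeff_lifts]
    intro n
    have h1 : (f.map (algebraMap M Ω)).coeff n ∈ T := by
      rw [lifts_iff_coeff_lifts] at hT
      obtain ⟨t, ht⟩ := hT n
      rw [← ht]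
      exact t.2
    have h2 : (f.map (algebraMap M Ω)).coeff n ∈ M := by
      rw [coeff_map]
      exact (f.coeff n).2
    have h3 : (f.map (algebraMap M Ω)).coeff n ∈ P' := by
      rw [hP']
      exact ⟨h2, h1⟩
    exact ⟨⟨_, h3⟩, rfl⟩
  obtain ⟨g, hg⟩ := (mem_lifts _).1 hP
  have hg0 : g.eval₂ (algebraMap P' Ω) θ = 0 := by
    rw [eval₂_eq_eval_map, hg, ← eval₂_eq_eval_map, ← aeval_def]
    exact minpoly.aeval M θ
  have hg1 : g.eval₂ (algebraMap P' Ω) (σ θ) = 0 := by
    have h1 : σ.comp (algebraMap P' Ω) = algebraMap P' Ω := by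
      ext a
      exact hσ a a.2
    have h2 := Polynomial.hom_eval₂ g (algebraMap P' Ω) σ θ
    rw [hg0, map_zero, h1] at h2
    exact h2.symm
  have hroot : aeval (σ θ) f = 0 := by
    rw [aeval_def, eval₂_eq_eval_map, ← hg, ← eval₂_eq_eval_map, hg1]
  obtain ⟨τ, hτ⟩ := minpoly.exists_algEquiv_of_root' (hΩ θ) hroot
  exact ⟨τ, hτ⟩

/-- A2f: from the normal base `T` down to `T ∩ M`. -/
theorem base_descend [IsAlgClosed Ω] [IsAlgClosed k] (p : ℕ) (hp : p.Prime) [CharP k p]
    (h : Ctx0 k v) (T P' M : IntermediateField k Ω) (hM : hen v M = M)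
    (hΩ : ∀ g : Ω, IsAlgebraic M g) (hP' : P' = M ⊓ T)
    (hperf : ∀ a ∈ P', ∃ b ∈ P', b ^ p = a) (halg : ∀ a ∈ T, IsAlgebraic P' a)
    (hnorm : ∀ a ∈ T, ∀ a' : Ω, aeval a' (minpoly P' a) = 0 → a' ∈ T) {z : Ω} (hz : z ∈ M)
    (_hzT : Transcendental T z) (hMz : ∀ m ∈ M, m ∈ hen v (adj T z))
    (hΩz : ∀ g : Ω, IsAlgebraic (adj P' z) g) :
    M = hen v (adj P' z) := by
  classical
  have hP'M : P' ≤ M := by rw [hP']; exact inf_le_left
  have hM₁M : hen v (adj P' z) ≤ M := hen_le hM (adj_le hP'M hz)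
  refine le_antisymm (fun m hm => ?_) hM₁M
  set M₁ := hen v (adj P' z) with hM₁
  have hM₁h : hen v M₁ = M₁ := hen_hen _
  have hadj : adj P' z ≤ M₁ := le_hen _
  have hP'₁ : P' ≤ M₁ := (mem_adj_self P' z).2.trans hadj
  have hz₁ : z ∈ M₁ := hadj (mem_adj_self P' z).1
  have hΩ₁ : ∀ g : Ω, IsAlgebraic M₁ g := fun g => isAlgebraic_mono hadj (hΩz g)
  -- `P'` is perfect
  have : CharP P' p := charP_field p P'
  have : Fact p.Prime := ⟨hp⟩
  have : PerfectRing P' p := by
    refine PerfectRing.ofSurjective P' p fun a => ?_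
    obtain ⟨b, hb, hba⟩ := hperf a a.2
    exact ⟨⟨b, hb⟩, Subtype.ext hba⟩
  have hPF : PerfectField P' := PerfectRing.toPerfectField P' p
  have hsepT : ∀ a ∈ T, IsSeparable P' a := fun a ha =>
    PerfectField.separable_of_irreducible (minpoly.irreducible (halg a ha).isIntegral)
  -- `m` is separable over `M₁`
  have hsep : IsSeparable M₁ m := by
    have h1 : IsSeparable (adj T z) m := (mem_hen.1 (hMz m hm)).2
    refine isSeparable_mono hadj (isSeparable_trans' (F := adj T z) ?_ h1)
    have hle : adj T z ≤ (separableClosure (adj P' z) Ω).restrictScalars k := by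
      refine adj_le (fun b hb => ?_) ?_
      · rw [IntermediateField.mem_restrictScalars, mem_separableClosure_iff]
        exact isSeparable_mono (mem_adj_self P' z).2 (hsepT b hb)
      · rw [IntermediateField.mem_restrictScalars, mem_separableClosure_iff]
        exact isSeparable_algebraMap (F := adj P' z) (⟨z, (mem_adj_self P' z).1⟩ : adj P' z)
    intro a ha
    have := hle ha
    rwa [IntermediateField.mem_restrictScalars, mem_separableClosure_iff] at this
  refine mem_of_fixed hΩ₁ hsep fun σ => ?_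
  -- a finite level of `T`
  have e1 : adj T z = adj ⊥ z ⊔ T := by
    unfold adj
    rw [bot_sup_eq, sup_comm]
  have hm1 := hMz m hm
  rw [e1] at hm1
  obtain ⟨S, hST, hS⟩ := hen_fin h (adj ⊥ z) T hm1
  -- a primitive element
  have hfin : FiniteDimensional P' (IntermediateField.adjoin P' (S : Set Ω)) :=
    IntermediateField.finiteDimensional_adjoin fun x hx => (halg x (hST x hx)).isIntegral
  obtain ⟨α, hα⟩ := Field.exists_primitive_element P' (IntermediateField.adjoin P' (S : Set Ω))
  have hPT : P' ≤ T := by rw [hP']; exact inf_le_right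
  have hαT : (α : Ω) ∈ T := by
    have h1 : IntermediateField.adjoin P' (S : Set Ω) ≤
        IntermediateField.extendScalars hPT := by
      rw [IntermediateField.adjoin_le_iff]
      exact fun s hs => hST s hs
    exact h1 α.2
  have hSα : ∀ s ∈ S, s ∈ IntermediateField.adjoin P' {(α : Ω)} := by
    intro s hs
    have h1 : (⟨s, IntermediateField.subset_adjoin _ _ hs⟩ :
        IntermediateField.adjoin P' (S : Set Ω)) ∈ IntermediateField.adjoin P' {α} := by
      rw [hα]; exact IntermediateField.mem_top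
    have h2 := (IntermediateField.mem_map (S := IntermediateField.adjoin P' {α})
      (f := (IntermediateField.adjoin P' (S : Set Ω)).val)).2 ⟨_, h1, rfl⟩
    rw [IntermediateField.adjoin_map, Set.image_singleton] at h2
    exact h2
  obtain ⟨τ, hτ⟩ := exists_aut T P' M hΩ hP' hnorm (σ : Ω →+* Ω)
    (fun a ha => σ.commutes ⟨a, hP'₁ ha⟩) hαT
  -- `σ` and `τ` agree on the finite level
  set Q : IntermediateField k Ω := (RingHom.eqLocusField (σ : Ω →+* Ω)
    (τ : Ω →+* Ω)).toIntermediateField (fun c => by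
      show σ (algebraMap k Ω c) = τ (algebraMap k Ω c)
      have h1 : σ (algebraMap k Ω c) = algebraMap k Ω c := σ.commutes (algebraMap k M₁ c)
      have h2 : τ (algebraMap k Ω c) = algebraMap k Ω c := τ.commutes (algebraMap k M c)
      rw [h1, h2]) with hQ
  have hQmem : ∀ a : Ω, a ∈ Q ↔ σ a = τ a := fun a => Iff.rfl
  have hP'Q : P' ≤ Q := by
    intro a ha
    rw [hQmem]
    have h1 : σ a = a := σ.commutes ⟨a, hP'₁ ha⟩
    have h2 : τ a = a := τ.commutes ⟨a, hP'M ha⟩
    rw [h1, h2]
  have hzQ : z ∈ Q := by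
    rw [hQmem]
    have h1 : σ z = z := σ.commutes ⟨z, hz₁⟩
    have h2 : τ z = z := τ.commutes ⟨z, hz⟩
    rw [h1, h2]
  have hSQ : ∀ s ∈ S, s ∈ Q := by
    intro s hs
    have h1 : IntermediateField.adjoin P' {(α : Ω)} ≤ IntermediateField.extendScalars hP'Q := by
      rw [IntermediateField.adjoin_le_iff, Set.singleton_subset_iff]
      show (α : Ω) ∈ Q
      rw [hQmem]
      exact hτ.symm
    exact h1 (hSα s hs)
  have hlev : adj ⊥ z ⊔ IntermediateField.adjoin k (S : Set Ω) ≤ Q := by
    refine sup_le (adj_le bot_le hzQ) ?_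
    rw [IntermediateField.adjoin_le_iff]
    exact fun s hs => hSQ s hs
  have hτm : τ m = m := τ.commutes ⟨m, hm⟩
  by_contra hne
  have hne' : σ m - m ≠ 0 := sub_ne_zero.2 hne
  obtain ⟨a₀, ha₀, hge⟩ := (mem_hen.1 hS).1 (v (σ m - m) + 1)
  have ha₀' : σ a₀ = τ a₀ := (hQmem a₀).1 (hlev ha₀)
  have e2 : σ m - m = σ (m - a₀) - τ (m - a₀) := by
    rw [map_sub, map_sub, ha₀', hτm]
    ring
  have g1 : v.Ge (v (σ m - m) + 1) (σ (m - a₀)) := by
    intro h0
    rw [val_aut h hM₁h hΩ₁ σ]
    exact hge fun h1 => h0 (by rw [h1, map_zero])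
  have g2 : v.Ge (v (σ m - m) + 1) (τ (m - a₀)) := by
    intro h0
    rw [val_aut h hM hΩ τ]
    exact hge fun h1 => h0 (by rw [h1, map_zero])
  have g3 := (g1.sub g2) (by rw [← e2]; exact hne')
  rw [← e2] at g3
  linarith

end Pool.Agent.D2P
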