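import Pool.Agent.Lib.D2P.A1
import Pool.Agent.Lib.D2P.A2m
import Pool.Agent.Lib.D2P.A2g
import Pool.Agent.Lib.D2P.A2h

/-!
# D2P, Part A, row A2: henselian rationality after adjoining `p ^ e`-th roots
-/

set_option autoImplicit false

open Polynomial

namespace Pool.Agent.D2P

open Pool.Agent.H15JM (RVal)
open Pool.Agent.LU1 (VPos adj)
open Pool.Agent.LUC (Cl clF)
open Pool.Agent.LU3 (Ctx2 RF2)
open Pool.Agent.D2 (Ctx0)

universe u

variable {k Ω : Type u} [Field k] [Field Ω] [Algebra k Ω] {v : RVal Ω} {r : ℕ}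

/-- elements of `E` with independent positive values -/
theorem exists_coord_E (h2 : Ctx2 k v r) (E : IntermediateField k Ω)
    (hΩ : ∀ g : Ω, IsAlgebraic E g) :
    ∃ x : Fin r → Ω, (∀ i, x i ∈ E ∧ x i ≠ 0 ∧ 0 < v (x i)) ∧
      LinearIndependent ℚ fun i => v (x i) := by
  obtain ⟨X, hX0, hXli, -⟩ := h2.rank
  have h1 : ∀ i : Fin r, ∃ f : E, (f : Ω) ≠ 0 ∧ 0 < v (f : Ω) ∧ ∃ c : ℚ, c ≠ 0 ∧
      v (f : Ω) = c • v (X i) := by
    intro i
    obtain ⟨f, hf0, m, hm, hfm⟩ := LU1.comm_value (v := v) E (X i) (hX0 i) (hΩ _)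
    have hne : v (f : Ω) ≠ 0 := by
      rw [hfm]
      exact mul_ne_zero (by positivity) (hXli.ne_zero i)
    rcases lt_or_gt_of_ne hne with h2 | h2
    · have h3 : ((f⁻¹ : E) : Ω) = (f : Ω)⁻¹ := rfl
      refine ⟨f⁻¹, by rw [h3]; exact inv_ne_zero hf0, by rw [h3, v.map_inv hf0]; linarith,
        -(m : ℚ), by simpa using hm.ne', ?_⟩
      rw [h3, v.map_inv hf0, hfm, Rat.smul_def]
      push_cast
      ring
    · refine ⟨f, hf0, h2, (m : ℚ), by simpa using hm.ne', ?_⟩
      rw [hfm, Rat.smul_def]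
      push_cast
      rfl
  choose x' hx0 hxpos c hc hxc using h1
  refine ⟨fun i => (x' i : Ω), fun i => ⟨(x' i).2, hx0 i, hxpos i⟩, ?_⟩
  have h2 := hXli.units_smul fun i => Units.mk0 (c i) (hc i)
  convert h2 using 1
  funext i
  exact hxc i

/-- a further transcendental element -/
theorem exists_y_E (h2 : Ctx2 k v r) (E : IntermediateField k Ω)
    (hΩ : ∀ g : Ω, IsAlgebraic E g) (x : Fin r → Ω) :
    ∃ y ∈ E, Transcendental (IntermediateField.adjoin k (Set.range x)) y := by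
  by_contra hno
  push Not at hno
  have h1 : ∀ a ∈ E, IsAlgebraic (IntermediateField.adjoin k (Set.range x)) a := fun a ha =>
    not_not.1 (hno a ha)
  have h3 := LU1.trdeg_le_of_isAlgebraic (k := k) (L := Ω) (Set.range x)
    ⟨fun g => isAlgebraic_trans h1 (hΩ g)⟩
  have h4 : Cardinal.mk (Set.range x) ≤ (r : Cardinal) := by
    have := Cardinal.mk_range_le_lift (f := x)
    simpa using this
  have h5 := h3.trans h4
  rw [h2.trdeg] at h5
  have h6 : ((r + 2 : ℕ) : Cardinal) ≤ (r : Cardinal) := by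
    push_cast
    exact h5
  have h7 := Nat.cast_le.1 h6
  omega

/-- the transcendence degree of a field algebraic over `k(x, y)` -/
theorem trdeg_of_alg {T : IntermediateField k Ω} {x : Fin r → Ω} {y : Ω} (hx : ∀ i, x i ∈ T)
    (hy : y ∈ T) (hind : AlgebraicIndependent k x)
    (hyx : Transcendental (IntermediateField.adjoin k (Set.range x)) y)
    (halg : ∀ a ∈ T, IsAlgebraic (IntermediateField.adjoin k (Set.range x ∪ {y})) a) :
    Algebra.trdeg k T = r + 1 := by
  classical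
  set G : Set Ω := Set.range x ∪ {y} with hG
  have hGT : ∀ g ∈ G, g ∈ T := by
    rintro g (⟨i, rfl⟩ | hg)
    · exact hx i
    · rw [Set.mem_singleton_iff.1 hg]; exact hy
  set Z : Set T := {z | (z : Ω) ∈ G} with hZ
  have halgZ : ∀ a : T, IsAlgebraic (IntermediateField.adjoin k Z) a := by
    intro a
    refine LU3.R2b.alg_transfer T Z G (fun g hg => ?_) a (halg a a.2)
    exact ⟨⟨g, hGT g hg⟩, IntermediateField.subset_adjoin _ _ hg, rfl⟩
  refine le_antisymm ?_ ?_
  · have h3 := LU1.trdeg_le_of_isAlgebraic (k := k) Z ⟨halgZ⟩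
    refine h3.trans ?_
    have h4 : Z ⊆ Set.range (fun o : Option (Fin r) => (o.elim (⟨y, hy⟩ : T)
        fun i => (⟨x i, hx i⟩ : T))) := by
      rintro z (⟨i, hi⟩ | hz)
      · exact ⟨some i, Subtype.ext hi⟩
      · exact ⟨none, Subtype.ext (Set.mem_singleton_iff.1 hz).symm⟩
    have h5 := (Cardinal.mk_le_mk_of_subset h4).trans
      (by simpa using Cardinal.mk_range_le_lift (f := fun o : Option (Fin r) =>
        (o.elim (⟨y, hy⟩ : T) fun i => (⟨x i, hx i⟩ : T))))
    refine h5.trans (le_of_eq ?_)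
    simp
  · have h4 : Transcendental (Algebra.adjoin k (Set.range x)) y := by
      intro h5
      apply hyx
      exact (IntermediateField.isAlgebraic_adjoin_iff).2 h5
    have h5 := (hind.option_iff_transcendental y).2 h4
    have h6 : AlgebraicIndependent k (fun o : Option (Fin r) => (o.elim (⟨y, hy⟩ : T)
        fun i => (⟨x i, hx i⟩ : T))) := by
      refine AlgebraicIndependent.of_comp T.val ?_
      have e : (T.val ∘ fun o : Option (Fin r) => (o.elim (⟨y, hy⟩ : T)
        fun i => (⟨x i, hx i⟩ : T))) = fun o : Option (Fin r) => o.elim y x := by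
        funext o
        cases o <;> rfl
      rw [e]
      exact h5
    have h7 := h6.lift_cardinalMk_le_trdeg
    simpa using h7

/-- a function field of one variable over the perfect field `T` is separably generated -/
theorem exists_sep_gen [IsAlgClosed k] (p : ℕ) [Fact p.Prime] [CharP k p]
    (h2 : Ctx2 k v r) {T : IntermediateField k Ω} (hT : PB p v T)
    (htr : Algebra.trdeg k T = r + 1) (S : Finset Ω)
    (hΩ : ∀ g : Ω, IsAlgebraic (IntermediateField.adjoin k (S : Set Ω)) g) :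
    ∃ z : Ω, Transcendental T z ∧ z ∈ T ⊔ IntermediateField.adjoin k (S : Set Ω) ∧
      ∀ s ∈ S, IsSeparable (adj T z) s := by
  classical
  have hp : p.Prime := Fact.out
  have _ : CharP T p := charP_field p T
  have _ : ExpChar T p := ExpChar.prime hp
  have _ : PerfectRing T p := hT.perfectRing
  have _ : PerfectField T := PerfectRing.toPerfectField T p
  set L : IntermediateField T Ω := IntermediateField.adjoin T (S : Set Ω) with hL
  have hLr : L.restrictScalars k = T ⊔ IntermediateField.adjoin k (S : Set Ω) :=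
    IntermediateField.restrictScalars_adjoin_eq_sup k T S
  have hess : Algebra.EssFiniteType T L := by
    rw [IntermediateField.essFiniteType_iff]
    exact ⟨S, rfl⟩
  obtain ⟨s, hs, hsep⟩ := exists_isTranscendenceBasis_and_isSeparable_of_perfectField T L
  have hΩL : Algebra.IsAlgebraic L Ω := by
    constructor
    intro g
    have h3 : IsAlgebraic (L.restrictScalars k) g := by
      rw [hLr]
      exact isAlgebraic_mono le_sup_right (hΩ g)
    exact h3
  have htrL : Algebra.trdeg T L = 1 := by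
    have h3 := trdeg_add_eq k T (A := Ω)
    have _ : FaithfulSMul T L :=
      (faithfulSMul_iff_algebraMap_injective T L).2 (algebraMap T L).injective
    have _ : FaithfulSMul L Ω :=
      (faithfulSMul_iff_algebraMap_injective L Ω).2 (algebraMap L Ω).injective
    have h4 := trdeg_add_eq T L (A := Ω)
    have h5 : Algebra.trdeg L Ω = 0 := trdeg_eq_zero (R := L) (A := Ω)
    rw [h5, add_zero] at h4
    rw [htr, h2.trdeg, ← h4] at h3
    have h6 : ((r + 1 : ℕ) : Cardinal) + Algebra.trdeg T L = ((r + 1 : ℕ) : Cardinal) + 1 := by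
      push_cast
      rw [h3]
      ring
    exact Cardinal.eq_of_add_eq_add_left h6 (Cardinal.natCast_lt_aleph0)
  have hcard : s.card = 1 := by
    have h3 := hs.cardinalMk_eq_trdeg
    rw [htrL] at h3
    simpa using h3
  obtain ⟨z, hz⟩ := Finset.card_eq_one.1 hcard
  have hztr : Transcendental T z := hs.1.transcendental ⟨z, by rw [hz]; exact Finset.mem_singleton_self z⟩
  refine ⟨(z : Ω), ?_, ?_, ?_⟩
  · exact fun h3 => hztr ((isAlgebraic_algHom_iff L.val L.val.injective).1 h3)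
  · rw [← hLr]
    exact z.2
  · intro a ha
    have haL : a ∈ L := IntermediateField.subset_adjoin _ _ ha
    have h3 : IsSeparable (IntermediateField.adjoin T ((s : Finset L) : Set L)) (⟨a, haL⟩ : L) :=
      Algebra.IsSeparable.isSeparable _ _
    have h4 := sep_transfer_elt (k := T) (Ω := Ω) L _ _ h3
    have h5 : (fun z : L => (z : Ω)) '' ((s : Finset L) : Set L) = {(z : Ω)} := by
      rw [hz, Finset.coe_singleton, Set.image_singleton]
    rw [h5] at h4
    rw [← adj_eq]
    exact h4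

theorem hen_adj_congr {A B : IntermediateField k Ω} (hAB : hen v A = hen v B) (z : Ω) :
    hen v (adj A z) = hen v (adj B z) := by
  have key : ∀ {A B : IntermediateField k Ω}, hen v A = hen v B →
      hen v (adj A z) ≤ hen v (adj B z) := by
    intro A B hAB
    refine hen_le (hen_hen _) (adj_le ?_ (le_hen _ (mem_adj_self B z).1))
    refine (le_hen (v := v) A).trans ?_
    rw [hAB]
    exact hen_mono (mem_adj_self B z).2
  exact le_antisymm (key hAB) (key hAB.symm)

/-- A2: henselian rationality after adjoining `p ^ e`-th roots. -/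
theorem a2 [IsAlgClosed Ω] [IsAlgClosed k] (p : ℕ) [Fact p.Prime] [CharP k p] [CharP Ω p] {r : ℕ}
    (h2 : Ctx2 k v r) (E : IntermediateField k Ω) (hE : E.FG) (hΩ : ∀ g : Ω, IsAlgebraic E g) :
    ∃ (L₀ : IntermediateField k Ω) (e : ℕ), L₀ ≤ E ∧ HRat v (E ⊔ rootF p e L₀) := by
  classical
  have hp : p.Prime := Fact.out
  have h : Ctx0 k v := ⟨h2.triv, h2.res⟩
  have hE' := hE
  obtain ⟨SE, hSE⟩ := hE'
  obtain ⟨x, hx, hind⟩ := exists_coord_E h2 E hΩ
  obtain ⟨y, hyE, hyx⟩ := exists_y_E h2 E hΩ x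
  have hxne : ∀ i, x i ≠ 0 := fun i => (hx i).2.1
  have hxv := span_of_ind h2 hind hxne
  have hai : AlgebraicIndependent k x := TA.algInd_of_val h2.triv hxne hind
  obtain ⟨L₀, hL₀⟩ : ∃ L₀, L₀ = IntermediateField.adjoin k (Set.range x ∪ {y}) := ⟨_, rfl⟩
  have hL₀E : L₀ ≤ E := by
    rw [hL₀, IntermediateField.adjoin_le_iff]
    rintro a (⟨i, rfl⟩ | ha)
    · exact (hx i).1
    · rw [Set.mem_singleton_iff.1 ha]; exact hyE
  have hL₀fg : L₀.FG := by
    rw [hL₀]
    exact IntermediateField.fg_adjoin_of_finite ((Set.finite_range x).union (Set.finite_singleton y))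
  obtain ⟨M, hMdef⟩ : ∃ M, M = hen v (E ⊔ ⨆ e : ℕ, rootF p e L₀) := ⟨_, rfl⟩
  have hM : hen v M = M := by rw [hMdef]; exact hen_hen _
  have hEM : E ≤ M := by rw [hMdef]; exact le_sup_left.trans (le_hen _)
  have hUM : ∀ e : ℕ, rootF p e L₀ ≤ M := by
    intro e
    rw [hMdef]
    exact (le_iSup (fun e : ℕ => rootF p e L₀) e).trans (le_sup_right.trans (le_hen _))
  have hΩM : ∀ g : Ω, IsAlgebraic M g := fun g => isAlgebraic_mono hEM (hΩ g)
  have hxM : ∀ i, x i ∈ M := fun i => hEM (hx i).1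
  have hyM : y ∈ M := hEM hyE
  have hrt : ∀ (a b : Ω) (e : ℕ), a ∈ IntermediateField.adjoin k (Set.range x ∪ {y}) →
      b ^ p ^ e = a → b ∈ M := by
    intro a b e ha hb
    refine hUM e (mem_rootF.2 ?_)
    rw [hb, hL₀]
    exact ha
  obtain ⟨T, hT⟩ : ∃ T : IntermediateField k Ω, ∀ a : Ω, a ∈ T ↔
      a ∈ hen v (M ⊔ IntermediateField.adjoin k {b : Ω | ∃ n : ℕ, 0 < n ∧ ∃ i, b ^ n = x i}) ∧
      IsAlgebraic (IntermediateField.adjoin k (Set.range x ∪ {y})) a := by
    refine ⟨hen v (M ⊔ IntermediateField.adjoin k {b : Ω | ∃ n : ℕ, 0 < n ∧ ∃ i, b ^ n = x i}) ⊓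
      (algebraicClosure (IntermediateField.adjoin k (Set.range x ∪ {y})) Ω).restrictScalars k,
      fun a => ?_⟩
    rw [IntermediateField.mem_inf, IntermediateField.mem_restrictScalars, mem_algebraicClosure_iff]
  obtain ⟨hPB, -⟩ := pb_T p hp h x y hxne hxv M hM hxM hyM hrt T hT
  have F := tFacts (y := y) h hM hxM hyM hT
  have hxT : ∀ i, x i ∈ T := fun i =>
    F.L₀T (IntermediateField.subset_adjoin _ _ (Or.inl ⟨i, rfl⟩))
  have hyT : y ∈ T := F.L₀T (IntermediateField.subset_adjoin _ _ (Or.inr rfl))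
  have htr := trdeg_of_alg hxT hyT hai hyx F.alg
  obtain ⟨z₀, hz₀t, hz₀mem, hsep⟩ := exists_sep_gen p h2 hPB htr SE (by rw [hSE]; exact hΩ)
  have hHR : HR1 v T (hen v (M ⊔ T)) := by
    have h1 := a1 p hp h T hPB hz₀t SE hsep
    have h3 : hen v (adj T z₀ ⊔ IntermediateField.adjoin k (SE : Set Ω)) = hen v (M ⊔ T) := by
      rw [hSE] at hz₀mem ⊢
      apply le_antisymm
      · refine hen_mono (sup_le (adj_le le_sup_right ?_) (hEM.trans le_sup_left))
        exact (sup_le le_sup_right (hEM.trans le_sup_left) : T ⊔ E ≤ M ⊔ T) hz₀mem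
      · refine hen_le (hen_hen _) (sup_le ?_ ?_)
        · rw [hMdef]
          refine hen_mono (sup_le le_sup_right ?_)
          refine iSup_le fun e b hb => ?_
          refine (le_sup_left : adj T z₀ ≤ _) ((mem_adj_self T z₀).2 ?_)
          refine F.mem b ((le_sup_left : M ≤ _) (hUM e hb)) ?_
          rw [mem_rootF, hL₀] at hb
          exact isAlgebraic_of_pow (pow_pos hp.pos e) (isAlgebraic_of_mem hb)
        · exact (mem_adj_self T z₀).2.trans (le_sup_left.trans (le_hen _))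
    rw [← h3]
    exact h1
  obtain ⟨z, hzM, hzT, hMz⟩ := tame_descend p hp h x y hxne hxv M hM hΩM hxM hyM hrt T hT hHR
  have hz0 : z ≠ 0 := by
    rintro rfl
    exact hzT isAlgebraic_zero
  obtain ⟨e, N', hN'fg, hrN', hN'alg, hlev⟩ := root_level p h E L₀ hE hL₀E hL₀fg (z := z) (M ⊓ T)
    (fun a ha => by rw [hL₀]; exact F.alg a ha.2) (by rw [← hMdef]; exact hMz)
  have hL₀N : L₀ ≤ N' := fun a ha => hrN' (mem_rootF.2 (pow_mem ha _))
  have hxN : ∀ i, x i ∈ N' := fun i => hL₀N (by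
    rw [hL₀]; exact IntermediateField.subset_adjoin _ _ (Or.inl ⟨i, rfl⟩))
  have hyN : y ∈ N' := hL₀N (by rw [hL₀]; exact IntermediateField.subset_adjoin _ _ (Or.inr rfl))
  obtain ⟨Γ, χ, y', hΓfg, hfull, hχne, hχadd, hχval, hy'ne, hy'pos, hNhen⟩ :=
    hrat_one p hp h2 N' hN'fg x y (fun i => ⟨hxN i, (hx i).2.1, (hx i).2.2⟩) hind hyN hyx
      (fun a ha => by rw [← hL₀]; exact hN'alg a ha)
  refine ⟨L₀, e, hL₀E, ?_⟩
  -- a positive value for `z`
  obtain ⟨γ, hγ, hγz⟩ : ∃ γ ∈ Γ, 0 < v z + γ := by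
    obtain ⟨m, hm, hmΓ⟩ := hfull (x ⟨0, h2.rpos⟩) (hxne _)
    have hpos : 0 < (m : ℝ) * v (x ⟨0, h2.rpos⟩) :=
      mul_pos (by exact_mod_cast hm) (hx _).2.2
    obtain ⟨n, hn⟩ := exists_nat_gt (-(v z) / ((m : ℝ) * v (x ⟨0, h2.rpos⟩)))
    rw [div_lt_iff₀ hpos] at hn
    refine ⟨n • ((m : ℝ) * v (x ⟨0, h2.rpos⟩)), Γ.nsmul_mem hmΓ n, ?_⟩
    rw [nsmul_eq_mul]
    linarith
  have hzγ : z * χ γ ≠ 0 := mul_ne_zero hz0 (hχne γ hγ)
  -- the field of the frame
  obtain ⟨K₁, hK₁⟩ : ∃ K₁, K₁ = IntermediateField.adjoin k (χ '' {γ | γ ∈ Γ} ∪ {y'}) := ⟨_, rfl⟩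
  obtain ⟨K, hK⟩ : ∃ K, K = IntermediateField.adjoin k (χ '' {γ | γ ∈ Γ} ∪ {y', z * χ γ}) :=
    ⟨_, rfl⟩
  have hKeq : K = adj K₁ z := by
    have hK₁K : K₁ ≤ K := by
      rw [hK₁, hK]
      refine IntermediateField.adjoin.mono _ _ _ (Set.union_subset_union_right _ ?_)
      rintro a rfl
      exact Or.inl rfl
    have hχK₁ : χ γ ∈ K₁ := by
      rw [hK₁]
      exact IntermediateField.subset_adjoin _ _ (Or.inl ⟨γ, hγ, rfl⟩)
    apply le_antisymm
    · have hK₁a : K₁ ≤ adj K₁ z := (mem_adj_self K₁ z).2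
      rw [hK, IntermediateField.adjoin_le_iff]
      rintro a (ha | ha | ha)
      · exact hK₁a (by rw [hK₁]; exact IntermediateField.subset_adjoin _ _ (Or.inl ha))
      · exact hK₁a (by rw [hK₁, ha]; exact IntermediateField.subset_adjoin _ _ (Or.inr rfl))
      · rw [Set.mem_singleton_iff.1 ha]
        exact (adj K₁ z).mul_mem (mem_adj_self K₁ z).1 (hK₁a hχK₁)
    · refine adj_le hK₁K ?_
      have h3 : z * χ γ ∈ K := by
        rw [hK]
        exact IntermediateField.subset_adjoin _ _ (Or.inr (Or.inr rfl))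
      have h4 : z = z * χ γ * (χ γ)⁻¹ := by
        rw [mul_assoc, mul_inv_cancel₀ (hχne γ hγ), mul_one]
      rw [h4]
      exact K.mul_mem h3 (K.inv_mem (hK₁K hχK₁))
  have hhen : hen v K = hen v (E ⊔ rootF p e L₀) := by
    rw [hlev, hKeq]
    refine hen_adj_congr ?_ z
    rw [hK₁]
    exact hNhen
  have hEK : ∀ a ∈ E, IsAlgebraic K a := by
    intro a ha
    refine isAlgebraic_of_hen (v := v) ?_
    rw [hhen]
    exact le_hen _ ((le_sup_left : E ≤ _) ha)
  let Fr : RF2 k v :=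
    { Γ := Γ
      fg := hΓfg
      full := hfull
      χ := χ
      χ_ne := hχne
      χ_add := hχadd
      χ_val := hχval
      y := y'
      y_ne := hy'ne
      y_pos := hy'pos
      z := z * χ γ
      z_ne := hzγ
      z_pos := by rw [v.map_mul hz0 (hχne γ hγ), hχval γ hγ]; exact hγz
      alg := fun g => by
        rw [← IntermediateField.isAlgebraic_adjoin_iff, ← hK]
        exact isAlgebraic_trans hEK (hΩ g) }
  refine ⟨Fr, ?_⟩
  rw [← hhen, hK]
  rfl

end Pool.Agent.D2P
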