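import Pool.Agent.Lib.D2P.G0
import Pool.Agent.Lib.D2P.R0

/-!
# D2P, row G1: an element `c z + d + (value > s)` of the henselization of `T(z)` is a generator
-/

set_option autoImplicit false

open Polynomial

namespace Pool.Agent.D2P

open Pool.Agent.H15JM (RVal)
open Pool.Agent.LU1 (VPos adj)
open Pool.Agent.LUC (Cl clF)
open Pool.Agent.D2 (Ctx0)

universe u

variable {k Ω : Type u} [Field k] [Field Ω] [Algebra k Ω] {v : RVal Ω}

theorem sepUp {F E : IntermediateField k Ω} (hFE : F ≤ E) {a : Ω} (ha : IsSeparable F a) :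
    IsSeparable E a := by
  let _ : Algebra F E := (IntermediateField.inclusion hFE).toRingHom.toAlgebra
  have _ : IsScalarTower F E Ω := IsScalarTower.of_algebraMap_eq fun _ => rfl
  exact ha.tower_top E

theorem alg_aeval {M : IntermediateField k Ω} {z : Ω} (hz : IsAlgebraic M z) (φ : M[X]) :
    IsAlgebraic M (aeval z φ) := by
  have h1 : z ∈ algebraicClosure M Ω := mem_algebraicClosure_iff.2 hz
  have h2 : aeval z φ ∈ algebraicClosure M Ω := by
    rw [aeval_eq_sum_range]
    refine sum_mem fun i _ => ?_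
    exact (algebraicClosure M Ω).smul_mem (pow_mem h1 i)
  exact mem_algebraicClosure_iff.1 h2

/-- conjugation of polynomials in `z` -/
theorem root_poly {M : IntermediateField k Ω} {z b : Ω} (hb : aeval b (minpoly M z) = 0)
    (φ : M[X]) : aeval (aeval b φ) (minpoly M (aeval z φ)) = 0 := by
  have h1 : aeval z ((minpoly M (aeval z φ)).comp φ) = 0 := by
    rw [aeval_comp, minpoly.aeval]
  have h2 := minpoly.dvd M z h1
  have h3 := aeval_eq_zero_of_dvd_aeval_eq_zero h2 hb
  rwa [aeval_comp] at h3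

/-- the value of a conjugate of a polynomial in `z` -/
theorem root_ge [IsAlgClosed Ω] (h : Ctx0 k v) {M : IntermediateField k Ω} (hM : hen v M = M)
    {z b : Ω} (hz : IsAlgebraic M z) (hb : aeval b (minpoly M z) = 0) (φ : M[X]) {N : ℝ}
    (hN : v.Ge N (aeval z φ)) : v.Ge N (aeval b φ) := by
  have h1 := root_poly hb φ
  have h2 : IsAlgebraic M (aeval z φ) := alg_aeval hz φ
  intro h0
  by_cases h3 : aeval z φ = 0
  · rw [h3, minpoly.zero, aeval_X] at h1
    exact absurd h1 h0
  · rw [val_root h hM h2 h1]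
    exact hN h3

theorem root_val [IsAlgClosed Ω] (h : Ctx0 k v) {M : IntermediateField k Ω} (hM : hen v M = M)
    {z b : Ω} (hz : IsAlgebraic M z) (hb : aeval b (minpoly M z) = 0) (φ : M[X]) :
    v (aeval b φ) = v (aeval z φ) := by
  have h2 : IsAlgebraic M (aeval z φ) := alg_aeval hz φ
  exact val_root h hM h2 (root_poly hb φ)

/-- `g - θ` and `z - θ'` -/
theorem far_sub {z g a d θ : Ω} (ha : a ≠ 0) (hva : v a = 0) {c : ℝ}
    (hfar : v.Ge c (g - a * z - d)) (h0 : z - (θ - d) / a ≠ 0) (hlt : v (z - (θ - d) / a) < c) :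
    g - θ ≠ 0 ∧ v (g - θ) = v (z - (θ - d) / a) := by
  have h1 : a * (z - (θ - d) / a) ≠ 0 := mul_ne_zero ha h0
  have h2 : v (a * (z - (θ - d) / a)) = v (z - (θ - d) / a) := by
    rw [v.map_mul ha h0, hva, zero_add]
  have h3 : g - θ = a * (z - (θ - d) / a) + (g - a * z - d) := by
    field_simp
    ring
  have h4 : v.Ge c (g - θ - a * (z - (θ - d) / a)) := by
    rw [h3, add_sub_cancel_left]
    exact hfar
  have h5 := near_val h1 (by rw [h2]; exact hlt) h4
  exact ⟨h5.1, h5.2.trans h2⟩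

/-- the values of the derivatives of an approximation -/
theorem far_coeff [IsAlgClosed Ω] {T : IntermediateField k Ω} {z g : Ω} (hz : TT v T z)
    {s : ℝ} (hs : DistIs v T z s) (a d : T) {δ : ℝ}
    (hfar : v.Ge (s + δ) (g - (a : Ω) * z - d)) (G : T[X]) (hG : v.Ge (s + δ) (g - aeval z G)) :
    v.Ge δ (aeval z (derivative G) - (a : Ω)) ∧ ∀ i : ℕ, 2 ≤ i → hasseDeriv i G ≠ 0 →
      s + δ ≤ v (aeval z (hasseDeriv i G)) + i * s := by
  set F : T[X] := G - C a * X - C d with hF
  have hFz : v.Ge (s + δ) (aeval z F) := by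
    have h1 : aeval z F = (g - (a : Ω) * z - d) - (g - aeval z G) := by
      rw [hF, map_sub, map_sub, map_mul, aeval_C, aeval_C, aeval_X]
      show aeval z G - (a : Ω) * z - (d : Ω) = _
      ring
    rw [h1]
    exact hfar.sub hG
  have h1 : hasseDeriv 1 F = derivative G - C a := by
    rw [hasseDeriv_one', hF, derivative_sub, derivative_sub, derivative_C_mul, derivative_X,
      derivative_C, mul_one, sub_zero]
  have h2 : ∀ i : ℕ, 2 ≤ i → hasseDeriv i F = hasseDeriv i G := by
    intro i hi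
    have h3 : hasseDeriv i (C a * X) = 0 := by
      refine hasseDeriv_eq_zero_of_lt_natDegree _ _ ?_
      have h4 := natDegree_C_mul_X_pow_le a 1
      rw [pow_one] at h4
      omega
    rw [hF, map_sub, map_sub, h3, hasseDeriv_C _ _ (by omega), sub_zero, sub_zero]
  refine ⟨?_, fun i hi h0 => ?_⟩
  · intro h3
    have h4 : aeval z (derivative G) - (a : Ω) = aeval z (hasseDeriv 1 F) := by
      rw [h1, map_sub, aeval_C]
      rfl
    have h5 : hasseDeriv 1 F ≠ 0 := by
      intro h6
      rw [h4, h6, map_zero] at h3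
      exact h3 rfl
    have h6 := hz.coeff_ge hs F _ hFz 1 one_pos h5
    rw [← h4] at h6
    push_cast at h6
    linarith
  · have h3 := hz.coeff_ge hs F _ hFz i (by omega) (by rw [h2 i hi]; exact h0)
    rwa [h2 i hi] at h3

/-- a polynomial with unit derivative and small higher derivatives is injective -/
theorem sub_val_of_unit {T : IntermediateField k Ω} {z b : Ω} (hz : Transcendental T z) {s δ : ℝ}
    (hδ : 0 < δ) (G : T[X]) (h1 : v (aeval z (derivative G)) = 0)
    (h0 : aeval z (derivative G) ≠ 0) (h2 : ∀ i : ℕ, 2 ≤ i → hasseDeriv i G ≠ 0 →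
      s + δ ≤ v (aeval z (hasseDeriv i G)) + i * s) (hb : b - z ≠ 0) (hbs : s ≤ v (b - z)) :
    aeval z G - aeval b G ≠ 0 ∧ v (aeval z G - aeval b G) = v (b - z) := by
  have hdeg : 1 ≤ G.natDegree := by
    by_contra hcon
    have : G.natDegree = 0 := by omega
    rw [derivative_of_natDegree_zero this, map_zero] at h0
    exact h0 rfl
  have hf1 : -(aeval z (hasseDeriv 1 G) * (b - z) ^ 1) ≠ 0 := by
    rw [hasseDeriv_one', pow_one]
    exact neg_ne_zero.2 (mul_ne_zero h0 hb)
  have hf1v : v (-(aeval z (hasseDeriv 1 G) * (b - z) ^ 1)) = v (b - z) := by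
    rw [hasseDeriv_one', pow_one, v.map_neg _ (mul_ne_zero h0 hb), v.map_mul h0 hb, h1, zero_add]
  have h3 := sum_dom (v := v) (Finset.Ico 1 (G.natDegree + 1))
    (fun i => -(aeval z (hasseDeriv i G) * (b - z) ^ i)) (j := 1)
    (Finset.mem_Ico.2 ⟨le_rfl, by omega⟩) hf1 (by
      intro i hi hi1 hi0
      have h4 : 2 ≤ i := by
        have := (Finset.mem_Ico.1 hi).1
        omega
      have h5 : hasseDeriv i G ≠ 0 := by
        intro h6
        rw [h6, map_zero, zero_mul, neg_zero] at hi0
        exact hi0 rfl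
      have h6 : aeval z (hasseDeriv i G) ≠ 0 := fun h7 => hz ⟨_, h5, h7⟩
      have h7 : (b - z) ^ i ≠ 0 := pow_ne_zero _ hb
      have h8 := h2 i h4 h5
      rw [hf1v, v.map_neg _ (mul_ne_zero h6 h7), v.map_mul h6 h7, v.map_pow hb]
      have h9 : (2 : ℝ) ≤ i := by exact_mod_cast h4
      nlinarith)
  rw [← aeval_sub_eq] at h3
  exact ⟨h3.1, h3.2.trans hf1v⟩

/-- G1: an element `c z + d + (value > s)` of `hen T(z)` is a generator. -/
theorem gen_of_far [IsAlgClosed Ω] [IsAlgClosed k] (p : ℕ) (_hp : p.Prime) [CharP k p]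
    (h : Ctx0 k v) (T : IntermediateField k Ω) (_hT : PB p v T) {z g : Ω} (hz : TT v T z)
    {s : ℝ} (hs : DistIs v T z s) (hg : g ∈ hen v (adj T z)) (c : k) (hc : c ≠ 0)
    {d : Ω} (hd : d ∈ T) {δ : ℝ} (hδ : 0 < δ) (hfar : v.Ge (s + δ) (g - algebraMap k Ω c * z - d)) :
    TT v T g ∧ DistIs v T g s ∧ hen v (adj T g) = hen v (adj T z) := by
  classical
  set a : Ω := algebraMap k Ω c with ha
  have haT : a ∈ T := T.algebraMap_mem c
  have ha0 : a ≠ 0 := by
    rw [ha]
    simpa using hc
  have hva : v a = 0 := h.triv c hc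
  have hle : ∀ t ∈ T, v (z - t) ≤ s := fun t ht => hs.1 ⟨t, ht, rfl⟩
  have hsub : ∀ t ∈ T, (t - d) / a ∈ T := fun t ht => T.div_mem (T.sub_mem ht hd) haT
  have hval : ∀ t ∈ T, v (g - t) = v (z - (t - d) / a) := fun t ht =>
    (far_sub ha0 hva hfar (hz.ne_mem (hsub t ht)) (by
      have := hle _ (hsub t ht)
      linarith)).2
  have hback : ∀ t : Ω, (a * t + d - d) / a = t := fun t => by
    field_simp
    ring
  have halg : ∀ θ : Ω, IsAlgebraic T θ → IsAlgebraic T ((θ - d) / a) := by
    intro θ hθ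
    have h1 : IsAlgebraic T d := isAlgebraic_algebraMap (⟨d, hd⟩ : T)
    have h2 : IsAlgebraic T a := isAlgebraic_algebraMap (⟨a, haT⟩ : T)
    rw [div_eq_mul_inv]
    exact (hθ.sub h1).mul h2.inv
  -- the distance
  have hgs : DistIs v T g s := by
    constructor
    · rintro b ⟨t, ht, rfl⟩
      rw [hval t ht]
      exact hle _ (hsub t ht)
    · intro b hb
      refine hs.2 ?_
      rintro e ⟨t, ht, rfl⟩
      have h1 : a * t + d ∈ T := T.add_mem (T.mul_mem haT ht) hd
      have h2 := hb ⟨a * t + d, h1, rfl⟩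
      rwa [hval _ h1, hback] at h2
  -- the type
  have hgTT : TT v T g := by
    constructor
    · intro hga
      have h1 := halg g hga
      obtain ⟨t, ht, h2⟩ := hz.2 _ h1
      have h3 : z - (g - d) / a = -((g - a * z - d) / a) := by
        field_simp
        ring
      have h4 := hz.ne h1
      have h5 : g - a * z - d ≠ 0 := by
        intro h6
        rw [h3, h6, zero_div, neg_zero] at h4
        exact h4 rfl
      rw [h3, v.map_neg _ (div_ne_zero h5 ha0), v.map_div h5 ha0, hva, sub_zero] at h2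
      have h6 := hfar h5
      have h7 := hle t ht
      linarith
    · intro θ hθ
      have h1 := halg θ hθ
      obtain ⟨t, ht, h2⟩ := hz.2 _ h1
      have h3 := hle t ht
      have h4 := far_sub ha0 hva hfar (hz.ne h1) (by linarith)
      have h5 : a * t + d ∈ T := T.add_mem (T.mul_mem haT ht) hd
      refine ⟨a * t + d, h5, ?_⟩
      rw [h4.2, hval _ h5, hback]
      exact h2
  refine ⟨hgTT, hgs, ?_⟩
  -- the approximations
  have happ : ∀ N : ℝ, ∃ G : T[X], v.Ge N (g - aeval z G) ∧ aeval z (derivative G) ≠ 0 ∧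
      v (aeval z (derivative G)) = 0 ∧ ∀ i : ℕ, 2 ≤ i → hasseDeriv i G ≠ 0 →
      s + δ ≤ v (aeval z (hasseDeriv i G)) + i * s := by
    intro N
    obtain ⟨G, hG⟩ := hz.dense (mem_hen.1 hg).1 (max N (s + δ))
    have h1 := far_coeff hz hs (⟨a, haT⟩ : T) (⟨d, hd⟩ : T) hfar G (hG.mono (le_max_right _ _))
    have h2 := near_val ha0 (by rw [hva]; exact hδ) h1.1
    exact ⟨G, hG.mono (le_max_left _ _), h2.1, h2.2.trans hva, h1.2⟩
  have hsep : IsSeparable (adj T g) z := hz.sep_of hs (mem_hen.1 hg).2 fun N => by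
    obtain ⟨G, h1, h2, h3, -⟩ := happ N
    exact ⟨G, h1, h2, h3⟩
  -- `z` in the henselization of `T(g)`
  set M : IntermediateField k Ω := hen v (adj T g) with hM
  have hMM : hen v M = M := hen_hen _
  have hgM : g ∈ M := le_hen _ (mem_adj_self T g).1
  have hTM : T ≤ M := (mem_adj_self T g).2.trans (le_hen _)
  have hsepM : IsSeparable M z := sepUp (le_hen _) hsep
  have hzM : z ∈ M := by
    refine mem_of_alone h hMM (minpoly M z) M.zero_mem (minpoly.aeval _ _)
      (Separable.aeval_derivative_ne_zero hsepM (minpoly.aeval _ _)) ?_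
    intro b hb _ _
    by_contra hbz
    have hbz' : b - z ≠ 0 := sub_ne_zero.2 hbz
    have hzalg : IsAlgebraic M z := hsepM.isIntegral.isAlgebraic
    have hbs : s ≤ v (b - z) := by
      refine hs.2 ?_
      rintro e ⟨t, ht, rfl⟩
      have h1 := root_ge h hMM hzalg hb (X - C (⟨t, hTM ht⟩ : M)) (N := v (z - t)) (by
        rw [map_sub, aeval_X, aeval_C]
        exact fun _ => le_rfl)
      rw [map_sub, aeval_X, aeval_C] at h1
      have h2 : v.Ge (v (z - t)) (b - t) := h1
      have h3 : v.Ge (v (z - t)) (z - t) := fun _ => le_rfl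
      have h4 := h2.sub h3
      rw [sub_sub_sub_cancel_right] at h4
      exact h4 hbz'
    obtain ⟨G, h1, h2, h3, h4⟩ := happ (v (b - z) + 1)
    have h5 := sub_val_of_unit hz.1 hδ G h3 h2 h4 hbz' hbs
    set φ : M[X] := C (⟨g, hgM⟩ : M) - G.map (IntermediateField.inclusion hTM).toRingHom with hφ
    have hev : ∀ x : Ω, aeval x φ = g - aeval x G := by
      intro x
      rw [hφ, map_sub, aeval_C]
      congr 1
      rw [aeval_def, eval₂_map, aeval_def]
      rfl
    have h6 := root_ge h hMM hzalg hb φ (by rw [hev]; exact h1)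
    rw [hev] at h6
    have h7 := h6.sub h1
    rw [sub_sub_sub_cancel_left] at h7
    have h8 := h7 h5.1
    rw [h5.2] at h8
    linarith
  refine le_antisymm (hen_le (hen_hen _) (adj_le ?_ hg)) (hen_le hMM (adj_le hTM hzM))
  exact (mem_adj_self T z).2.trans (le_hen _)

end Pool.Agent.D2P
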