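import Pool.Agent.Lib.D2P.G0

/-!
# D2P, row G2: two generators with the same distance
-/

set_option autoImplicit false

open Polynomial

namespace Pool.Agent.D2P

open Pool.Agent.H15JM (RVal)
open Pool.Agent.LU1 (VPos adj)
open Pool.Agent.LUC (Cl clF)
open Pool.Agent.D2 (Ctx0)

universe u

variable {k Ω : Type u} [Field k] [Field Ω] [Algebra k Ω] {v : RVal Ω}

theorem sub_gt {c : ℝ} {x y : Ω} (hx : x ≠ 0 → c < v x) (hy : y ≠ 0 → c < v y) :
    x - y ≠ 0 → c < v (x - y) := by
  intro h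
  rw [sub_eq_add_neg] at h ⊢
  have hy' : -y ≠ 0 → c < v (-y) := fun h0 => by
    rw [v.map_neg _ (neg_ne_zero.1 h0)]
    exact hy (neg_ne_zero.1 h0)
  by_cases h1 : x = 0
  · rw [h1, zero_add] at h ⊢
    exact hy' h
  by_cases h2 : -y = 0
  · rw [h2, add_zero] at h ⊢
    exact hx h
  exact (lt_min (hx h1) (hy' h2)).trans_le (v.map_add h1 h2 h)

/-- a product of linear factors whose roots have small values -/
theorem prod_coeff (s : ℝ) (S : Multiset Ω) (hS : ∀ y ∈ S, y ≠ 0 ∧ v y < s) :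
    ((S.map fun y => X - C y).prod).coeff 0 ≠ 0 ∧ ∀ i : ℕ, 1 ≤ i →
      ((S.map fun y => X - C y).prod).coeff i ≠ 0 →
      v (((S.map fun y => X - C y).prod).coeff 0) <
        v (((S.map fun y => X - C y).prod).coeff i) + i * s := by
  induction S using Multiset.induction_on with
  | empty =>
    rw [Multiset.map_zero, Multiset.prod_zero]
    refine ⟨by simp, fun i hi h0 => ?_⟩
    rw [coeff_one, if_neg (by omega)] at h0
    exact absurd rfl h0
  | cons y S ih =>
    obtain ⟨h0, h1⟩ := ih fun b hb => hS b (Multiset.mem_cons_of_mem hb)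
    obtain ⟨hy, hys⟩ := hS y (Multiset.mem_cons_self y S)
    rw [Multiset.map_cons, Multiset.prod_cons]
    set P := (S.map fun y => X - C y).prod with hP
    have h2 : ((X - C y) * P).coeff 0 = -(y * P.coeff 0) := by
      rw [sub_mul, coeff_sub, coeff_X_mul_zero, coeff_C_mul]
      ring
    have h3 : ∀ i : ℕ, ((X - C y) * P).coeff (i + 1) = P.coeff i - y * P.coeff (i + 1) := by
      intro i
      rw [sub_mul, coeff_sub, coeff_X_mul, coeff_C_mul]
    have hv0 : v (-(y * P.coeff 0)) = v y + v (P.coeff 0) := by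
      rw [v.map_neg _ (mul_ne_zero hy h0), v.map_mul hy h0]
    rw [h2]
    refine ⟨neg_ne_zero.2 (mul_ne_zero hy h0), fun i hi hi0 => ?_⟩
    obtain ⟨j, rfl⟩ : ∃ j, i = j + 1 := ⟨i - 1, by omega⟩
    rw [h3] at hi0 ⊢
    rw [hv0]
    have h4 : v y + v (P.coeff 0) - ((j + 1 : ℕ) : ℝ) * s < v (P.coeff j - y * P.coeff (j + 1)) := by
      refine sub_gt (fun h5 => ?_) (fun h5 => ?_) hi0
      · rcases Nat.eq_zero_or_pos j with h6 | h6
        · subst h6
          push_cast
          linarith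
        · have := h1 j h6 h5
          push_cast
          linarith
      · have h6 := right_ne_zero_of_mul h5
        rw [v.map_mul hy h6]
        have := h1 (j + 1) (by omega) h6
        linarith
    linarith

/-- a root of a prescribed value (Newton polygon) -/
theorem exists_root_val [IsAlgClosed Ω] (A : Polynomial Ω) (h0 : A.coeff 0 ≠ 0) (s : ℝ)
    (h1 : ∀ i : ℕ, A.coeff i ≠ 0 → v (A.coeff 0) ≤ v (A.coeff i) + i * s) {j : ℕ} (hj : 1 ≤ j)
    (hj0 : A.coeff j ≠ 0) (h2 : v (A.coeff j) + j * s ≤ v (A.coeff 0)) :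
    ∃ y : Ω, y ≠ 0 ∧ A.eval y = 0 ∧ v y = s := by
  classical
  have hA0 : A ≠ 0 := by
    rintro rfl
    simp at h0
  have hroot : ∀ y : Ω, A.eval y = 0 → y ≠ 0 ∧ v y ≤ s := by
    intro y hy
    have hy0 : y ≠ 0 := by
      rintro rfl
      rw [← coeff_zero_eq_eval_zero] at hy
      exact h0 hy
    refine ⟨hy0, ?_⟩
    by_contra hcon
    push Not at hcon
    have h3 := sum_dom (v := v) (Finset.range (A.natDegree + 1))
      (fun i => A.coeff i * y ^ i) (j := 0) (Finset.mem_range.2 (Nat.succ_pos _))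
      (by simpa using h0) (by
        intro i _ hi hi0
        have h4 := left_ne_zero_of_mul hi0
        have h5 := right_ne_zero_of_mul hi0
        rw [pow_zero, mul_one, v.map_mul h4 h5, v.map_pow hy0]
        have h6 := h1 i h4
        have h7 : (1 : ℝ) ≤ i := by exact_mod_cast Nat.one_le_iff_ne_zero.2 hi
        nlinarith)
    rw [← eval_eq_sum_range] at h3
    exact h3.1 hy
  by_contra hcon
  push Not at hcon
  have hS : ∀ y ∈ A.roots, y ≠ 0 ∧ v y < s := by
    intro y hy
    rw [mem_roots hA0, IsRoot.def] at hy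
    obtain ⟨h3, h4⟩ := hroot y hy
    exact ⟨h3, lt_of_le_of_ne h4 (hcon y h3 hy)⟩
  obtain ⟨h3, h4⟩ := prod_coeff s A.roots hS
  have h5 := (IsAlgClosed.splits A).eq_prod_roots
  set P := (A.roots.map fun y => X - C y).prod with hP
  have h6 : ∀ i, A.coeff i = A.leadingCoeff * P.coeff i := by
    intro i
    conv_lhs => rw [h5]
    rw [coeff_C_mul]
  have hl : A.leadingCoeff ≠ 0 := leadingCoeff_ne_zero.2 hA0
  rw [h6] at hj0
  have h7 := right_ne_zero_of_mul hj0
  have h8 := h4 j hj h7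
  rw [h6, h6 0, v.map_mul hl h7, v.map_mul hl h3] at h2
  linarith

theorem exists_unif (I : Finset ℕ) (f : ℕ → ℝ) (h : ∀ i ∈ I, 0 < f i) :
    ∃ δ : ℝ, 0 < δ ∧ ∀ i ∈ I, δ ≤ f i := by
  classical
  induction I using Finset.induction_on with
  | empty => exact ⟨1, one_pos, fun i hi => absurd hi (Finset.notMem_empty i)⟩
  | insert a s ha ih =>
    obtain ⟨δ, h1, h2⟩ := ih fun i hi => h i (Finset.mem_insert_of_mem hi)
    refine ⟨min δ (f a), lt_min h1 (h a (Finset.mem_insert_self a s)), fun i hi => ?_⟩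
    rcases Finset.mem_insert.1 hi with rfl | h3
    · exact min_le_right _ _
    · exact (min_le_left _ _).trans (h2 i h3)

/-- G2: a generator with the same distance is of the form `c z + d + (value > s)`. -/
theorem far_of_gen [IsAlgClosed Ω] [IsAlgClosed k] (p : ℕ) (_hp : p.Prime) [CharP k p]
    (h : Ctx0 k v) (T : IntermediateField k Ω) (_hT : PB p v T) {z g : Ω} (hz : TT v T z)
    (hg : TT v T g) {s : ℝ} (hs : DistIs v T z s) (hs' : DistIs v T g s)
    (hgen : hen v (adj T g) = hen v (adj T z)) :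
    ∃ c : k, c ≠ 0 ∧ ∃ d ∈ T, ∃ δ : ℝ, 0 < δ ∧ v.Ge (s + δ) (g - algebraMap k Ω c * z - d) := by
  classical
  have hzg : z ∈ Cl v (adj T g).toSubfield := by
    have h1 : z ∈ hen v (adj T z) :=
      mem_hen.2 ⟨Cl.subset (LU1.mem_adj T z),
        isSeparable_algebraMap (⟨z, LU1.mem_adj T z⟩ : adj T z)⟩
    rw [← hgen] at h1
    exact (mem_hen.1 h1).1
  have hgz : g ∈ Cl v (adj T z).toSubfield := by
    have h1 : g ∈ hen v (adj T g) :=
      mem_hen.2 ⟨Cl.subset (LU1.mem_adj T g),
        isSeparable_algebraMap (⟨g, LU1.mem_adj T g⟩ : adj T g)⟩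
    rw [hgen] at h1
    exact (mem_hen.1 h1).1
  obtain ⟨H, hH⟩ := hg.dense hzg (s + 1)
  obtain ⟨N₁, hN₁⟩ := aeval_cont v H g (s + 1)
  obtain ⟨N₂, hN₂⟩ := aeval_cont v (derivative H) g 0
  obtain ⟨G, hG⟩ := hz.dense hgz (max (s + 1) (max N₁ N₂))
  have hG1 : v.Ge (s + 1) (g - aeval z G) := hG.mono (le_max_left _ _)
  have hy : v.Ge (max (s + 1) (max N₁ N₂)) (aeval z G - g) := by
    rw [← neg_sub]
    exact hG.neg
  have h1 := hN₁ _ (hy.mono ((le_max_left _ _).trans (le_max_right _ _)))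
  have h2 := hN₂ _ (hy.mono ((le_max_right _ _).trans (le_max_right _ _)))
  -- the coefficients of `G`
  have hGi : ∀ i : ℕ, 0 < i → hasseDeriv i G ≠ 0 → s ≤ v (aeval z (hasseDeriv i G)) + i * s :=
    fun i hi h0 => hz.coeff_ge_dist hs hs' G (le_add_of_nonneg_right zero_le_one) hG1 i hi h0
  have hH1 : v.Ge 0 (aeval g (derivative H)) := by
    intro h0
    have h3 : hasseDeriv 1 H ≠ 0 := by
      intro h4
      rw [← hasseDeriv_one', h4, map_zero] at h0
      exact h0 rfl
    have h4 := hg.coeff_ge_dist hs' hs H (le_add_of_nonneg_right zero_le_one) hH 1 one_pos h3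
    rw [hasseDeriv_one'] at h4
    push_cast at h4
    linarith
  have hG1' : v.Ge 0 (aeval z (derivative G)) := by
    intro h0
    have h3 : hasseDeriv 1 G ≠ 0 := by
      intro h4
      rw [← hasseDeriv_one', h4, map_zero] at h0
      exact h0 rfl
    have h4 := hGi 1 one_pos h3
    rw [hasseDeriv_one'] at h4
    push_cast at h4
    linarith
  have hHG : v.Ge 0 (aeval (aeval z G) (derivative H)) := by
    have := h2.add hH1
    rwa [sub_add_cancel] at this
  -- the composition
  set Q : T[X] := H.comp G - X with hQ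
  have hQev : ∀ x : Ω, aeval x Q = aeval (aeval x G) H - x := by
    intro x
    rw [hQ, map_sub, aeval_comp, aeval_X]
  have hQz : v.Ge (s + 1) (aeval z Q) := by
    rw [hQev]
    have h3 : aeval (aeval z G) H - z =
        (aeval (aeval z G) H - aeval g H) - (z - aeval g H) := by ring
    rw [h3]
    exact h1.sub hH
  have hQi : ∀ i : ℕ, 0 < i → hasseDeriv i Q ≠ 0 →
      s + 1 ≤ v (aeval z (hasseDeriv i Q)) + i * s :=
    fun i hi h0 => hz.coeff_ge hs Q _ hQz i hi h0
  have hQ1 : v.Ge 1 (aeval (aeval z G) (derivative H) * aeval z (derivative G) - 1) := by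
    have h3 : aeval (aeval z G) (derivative H) * aeval z (derivative G) - 1 =
        aeval z (derivative Q) := by
      rw [hQ, derivative_sub, derivative_comp, derivative_X, map_sub, map_mul, map_one,
        aeval_comp]
      ring
    rw [h3]
    intro h0
    have h4 : hasseDeriv 1 Q ≠ 0 := by
      intro h5
      rw [← hasseDeriv_one', h5, map_zero] at h0
      exact h0 rfl
    have h5 := hQi 1 one_pos h4
    rw [hasseDeriv_one'] at h5
    push_cast at h5
    linarith
  have h3 := near_val (v := v) (x := (1 : Ω)) one_ne_zero (by rw [v.map_one]; exact one_pos) hQ1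
  have hx0 := left_ne_zero_of_mul h3.1
  have hy0 := right_ne_zero_of_mul h3.1
  have hy1 : v (aeval z (derivative G)) = 0 := by
    have h4 := h3.2
    rw [v.map_mul hx0 hy0, v.map_one] at h4
    have h5 := hHG hx0
    have h6 := hG1' hy0
    linarith
  -- the higher coefficients
  have hGi' : ∀ i : ℕ, 2 ≤ i → hasseDeriv i G ≠ 0 →
      s < v (aeval z (hasseDeriv i G)) + i * s := by
    intro i hi hi0
    by_contra hcon
    push Not at hcon
    set A : Polynomial Ω := divX (taylor z (G.map (algebraMap T Ω))) with hA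
    have hcoef : ∀ n : ℕ, A.coeff n = aeval z (hasseDeriv (n + 1) G) := by
      intro n
      rw [hA, coeff_divX, taylor_coeff, ← map_hasse, eval_map_algebraMap]
    have hA0 : A.coeff 0 = aeval z (derivative G) := by
      rw [hcoef, zero_add, hasseDeriv_one']
    obtain ⟨j, rfl⟩ : ∃ j, i = j + 1 := ⟨i - 1, by omega⟩
    obtain ⟨y, hy2, hy3, hy4⟩ := exists_root_val (v := v) A (by rw [hA0]; exact hy0) s (by
      intro n hn
      rw [hcoef] at hn
      have h4 : hasseDeriv (n + 1) G ≠ 0 := by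
        intro h5
        rw [h5, map_zero] at hn
        exact hn rfl
      have h5 := hGi (n + 1) (Nat.succ_pos n) h4
      rw [hA0, hy1, hcoef]
      push_cast at h5
      linarith) (j := j) (by omega) (by
      rw [hcoef]
      exact fun h4 => hz.1 ⟨_, hi0, h4⟩) (by
      rw [hcoef, hA0, hy1]
      push_cast at hcon
      linarith)
    -- `G (z + y) = G z`
    have h4 : aeval (z + y) G = aeval z G := by
      have h5 : aeval (z + y) G = (taylor z (G.map (algebraMap T Ω))).eval y := by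
        rw [taylor_eval, eval_map_algebraMap, add_comm]
      have h6 := congrArg (eval y) (divX_mul_X_add (taylor z (G.map (algebraMap T Ω))))
      rw [h5, ← h6, eval_add, eval_mul, ← hA, hy3, zero_mul, zero_add, eval_C,
        taylor_coeff_zero, eval_map_algebraMap]
    have h5 : aeval z Q - aeval (z + y) Q = y := by
      rw [hQev, hQev, h4]
      ring
    have h6 : v.Ge (s + 1) y := by
      rw [← h5, aeval_sub_eq]
      refine RVal.Ge.sum _ _ fun n hn => ?_
      refine RVal.Ge.neg ?_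
      rw [add_sub_cancel_left]
      intro h7
      have h8 := left_ne_zero_of_mul h7
      have h9 := right_ne_zero_of_mul h7
      have h10 : hasseDeriv n Q ≠ 0 := by
        intro h11
        rw [h11, map_zero] at h8
        exact h8 rfl
      rw [v.map_mul h8 h9, v.map_pow hy2, hy4]
      exact hQi n (Finset.mem_Ico.1 hn).1 h10
    have h7 := h6 hy2
    rw [hy4] at h7
    linarith
  -- the residue
  obtain ⟨c, hc0, hc⟩ := h.res _ hy0 hy1
  refine ⟨c, hc0, ?_⟩
  obtain ⟨δ₁, hδ₁, hδ₁'⟩ := exists_unif ((Finset.Ico 2 (G.natDegree + 1)).filter fun i =>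
    hasseDeriv i G ≠ 0) (fun i => v (aeval z (hasseDeriv i G)) + i * s - s) (by
      intro i hi
      rw [Finset.mem_filter, Finset.mem_Ico] at hi
      have := hGi' i hi.1.1 hi.2
      linarith)
  obtain ⟨δ₂, hδ₂, hδ₂'⟩ : ∃ δ₂ : ℝ, 0 < δ₂ ∧
      v.Ge δ₂ (aeval z (derivative G) - algebraMap k Ω c) := by
    by_cases h4 : aeval z (derivative G) - algebraMap k Ω c = 0
    · exact ⟨1, one_pos, by rw [h4]; exact RVal.Ge.zero⟩
    · exact ⟨_, hc h4, fun _ => le_rfl⟩
  set δ : ℝ := min 1 (min δ₁ δ₂) with hδ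
  have hδ0 : 0 < δ := lt_min one_pos (lt_min hδ₁ hδ₂)
  set ε : ℝ := δ / (2 * (G.natDegree + 1)) with hε
  have hn : (0 : ℝ) < 2 * (G.natDegree + 1) := by positivity
  have hε0 : 0 < ε := div_pos hδ0 hn
  have hεm : ∀ i : ℕ, i ≤ G.natDegree + 1 → (i : ℝ) * ε ≤ δ / 2 := by
    intro i hi
    have h4 : (i : ℝ) ≤ G.natDegree + 1 := by exact_mod_cast hi
    have h5 : (i : ℝ) * ε ≤ (G.natDegree + 1) * ε := mul_le_mul_of_nonneg_right h4 hε0.le
    have h6 : ((G.natDegree : ℝ) + 1) * ε = δ / 2 := by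
      rw [hε]
      field_simp
    linarith
  obtain ⟨ψ, hψ, hψ'⟩ : ∃ ψ ∈ T, s - ε < v (z - ψ) := by
    by_contra hcon
    push Not at hcon
    have h4 : s ≤ s - ε := hs.2 (by
      rintro a ⟨d, hd, rfl⟩
      exact hcon d hd)
    linarith
  have hψz : z - ψ ≠ 0 := hz.ne_mem hψ
  have hcT : algebraMap k Ω c ∈ T := T.algebraMap_mem c
  have hGψ : aeval ψ G ∈ T := by
    have h4 : aeval ψ G = algebraMap T Ω (aeval (⟨ψ, hψ⟩ : T) G) :=
      aeval_algebraMap_apply Ω (⟨ψ, hψ⟩ : T) G
    rw [h4]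
    exact (aeval (⟨ψ, hψ⟩ : T) G).2
  refine ⟨aeval ψ G - algebraMap k Ω c * ψ, T.sub_mem hGψ (T.mul_mem hcT hψ), δ / 2,
    half_pos hδ0, ?_⟩
  have hdeg : 1 ≤ G.natDegree := by
    by_contra hcon
    have : G.natDegree = 0 := by omega
    rw [derivative_of_natDegree_zero this, map_zero] at hy0
    exact hy0 rfl
  have h4 : g - algebraMap k Ω c * z - (aeval ψ G - algebraMap k Ω c * ψ) =
      (g - aeval z G) + ((aeval z (derivative G) - algebraMap k Ω c) * (z - ψ) +
        ∑ i ∈ Finset.Ico 2 (G.natDegree + 1), -(aeval z (hasseDeriv i G) * (ψ - z) ^ i)) := by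
    have h5 := aeval_sub_eq G z ψ
    rw [Finset.sum_eq_sum_Ico_succ_bot (by omega), pow_one, hasseDeriv_one'] at h5
    linear_combination h5
  rw [h4]
  have hδ1 : δ ≤ 1 := min_le_left _ _
  have hδ2 : δ ≤ δ₁ := (min_le_right _ _).trans (min_le_left _ _)
  have hδ3 : δ ≤ δ₂ := (min_le_right _ _).trans (min_le_right _ _)
  refine (hG1.mono (by linarith)).add (RVal.Ge.add ?_ (RVal.Ge.sum _ _ fun i hi => ?_))
  · have h5 : v.Ge (s - ε) (z - ψ) := fun _ => hψ'.le
    have h6 := hεm 1 (by omega)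
    push_cast at h6
    exact (hδ₂'.mul h5).mono (by linarith)
  · refine RVal.Ge.neg ?_
    intro h5
    have h6 := left_ne_zero_of_mul h5
    have h7 := right_ne_zero_of_mul h5
    have h8 : hasseDeriv i G ≠ 0 := by
      intro h9
      rw [h9, map_zero] at h6
      exact h6 rfl
    have h9 : ψ - z ≠ 0 := by
      rw [← neg_sub]
      exact neg_ne_zero.2 hψz
    have h10 : v (ψ - z) = v (z - ψ) := by
      rw [← neg_sub, v.map_neg _ hψz]
    rw [v.map_mul h6 h7, v.map_pow h9, h10]
    have h11 := hδ₁' i (Finset.mem_filter.2 ⟨hi, h8⟩)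
    have h12 := hεm i (Finset.mem_Ico.1 hi).2.le
    have h13 : (i : ℝ) * (s - ε) ≤ i * v (z - ψ) :=
      mul_le_mul_of_nonneg_left hψ'.le (Nat.cast_nonneg i)
    have h14 : (i : ℝ) * (s - ε) = i * s - i * ε := by ring
    linarith

end Pool.Agent.D2P
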