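import Pool.Agent.Lib.D2P.A2sAux
import Pool.Agent.Lib.D2P.H2
import Pool.Agent.Lib.D2P.G1
import Pool.Agent.Lib.D2P.G2

/-!
# D2P, Part A, row A2s: one tame step of prime degree
-/

set_option autoImplicit false

open Polynomial

namespace Pool.Agent.D2P

open Pool.Agent.H15JM (RVal)
open Pool.Agent.LU1 (VPos adj)
open Pool.Agent.LUC (Cl clF)
open Pool.Agent.D2 (Ctx0)

universe u

variable {k Ω : Type u} [Field k] [Field Ω] [Algebra k Ω] {v : RVal Ω}

/-- `x = κ z + d + (value > s)`, `κ ∈ k`, `d ∈ T` -/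
def Near (v : RVal Ω) (T : IntermediateField k Ω) (z : Ω) (s : ℝ) (x : Ω) : Prop :=
  ∃ κ : k, ∃ d ∈ T, ∃ δ : ℝ, 0 < δ ∧ v.Ge (s + δ) (x - algebraMap k Ω κ * z - d)

section Near

variable {T : IntermediateField k Ω} {z : Ω} {s : ℝ}

theorem Near.zero : Near v T z s 0 :=
  ⟨0, 0, T.zero_mem, 1, one_pos, by
    rw [map_zero, zero_mul, sub_zero, sub_zero]; exact RVal.Ge.zero⟩

theorem Near.add {x y : Ω} (hx : Near v T z s x) (hy : Near v T z s y) :
    Near v T z s (x + y) := by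
  obtain ⟨κ, d, hd, δ, hδ, h1⟩ := hx
  obtain ⟨κ', d', hd', δ', hδ', h2⟩ := hy
  refine ⟨κ + κ', d + d', T.add_mem hd hd', min δ δ', lt_min hδ hδ', ?_⟩
  have h3 : x + y - algebraMap k Ω (κ + κ') * z - (d + d') =
      (x - algebraMap k Ω κ * z - d) + (y - algebraMap k Ω κ' * z - d') := by
    rw [map_add]; ring
  rw [h3]
  exact (h1.mono (by linarith [min_le_left δ δ'])).add (h2.mono (by linarith [min_le_right δ δ']))

theorem Near.smul (h : Ctx0 k v) {x : Ω} (c : k) (hx : Near v T z s x) :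
    Near v T z s (algebraMap k Ω c * x) := by
  obtain ⟨κ, d, hd, δ, hδ, h1⟩ := hx
  refine ⟨c * κ, algebraMap k Ω c * d, T.mul_mem (T.algebraMap_mem c) hd, δ, hδ, ?_⟩
  have h3 : algebraMap k Ω c * x - algebraMap k Ω (c * κ) * z - algebraMap k Ω c * d =
      algebraMap k Ω c * (x - algebraMap k Ω κ * z - d) := by
    rw [map_mul]; ring
  rw [h3]
  have h4 := (h.ge c).mul h1
  rwa [zero_add] at h4

theorem Near.sum {ι : Type*} (A : Finset ι) (f : ι → Ω) (hf : ∀ i ∈ A, Near v T z s (f i)) :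
    Near v T z s (∑ i ∈ A, f i) :=
  Finset.sum_induction _ (Near v T z s) (fun _ _ => Near.add) Near.zero hf

end Near

/-- `x = d + (value > s)`, `d ∈ T` -/
def Near0 (v : RVal Ω) (T : IntermediateField k Ω) (s : ℝ) (x : Ω) : Prop :=
  ∃ d ∈ T, ∃ δ : ℝ, 0 < δ ∧ v.Ge (s + δ) (x - d)

theorem Near0.sum {T : IntermediateField k Ω} {s : ℝ} {ι : Type*} (A : Finset ι) (f : ι → Ω)
    (hf : ∀ i ∈ A, Near0 v T s (f i)) : Near0 v T s (∑ i ∈ A, f i) := by
  refine Finset.sum_induction _ (Near0 v T s) (fun x y hx hy => ?_) ?_ hf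
  · obtain ⟨d, hd, δ, hδ, h1⟩ := hx
    obtain ⟨d', hd', δ', hδ', h2⟩ := hy
    refine ⟨d + d', T.add_mem hd hd', min δ δ', lt_min hδ hδ', ?_⟩
    rw [show x + y - (d + d') = (x - d) + (y - d') by ring]
    exact (h1.mono (by linarith [min_le_left δ δ'])).add
      (h2.mono (by linarith [min_le_right δ δ']))
  · exact ⟨0, T.zero_mem, 1, one_pos, by rw [sub_zero]; exact RVal.Ge.zero⟩

/-- the inverse Fourier transform -/
theorem dft_inv {ℓ : ℕ} (hℓ0 : 0 < ℓ) {ζ : Ω} (hζ : IsPrimitiveRoot ζ ℓ)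
    (a : ℕ → Ω) {i₀ : ℕ} (hi₀ : i₀ < ℓ) :
    ∑ j ∈ Finset.range ℓ, (ζ⁻¹ ^ i₀) ^ j * ∑ i ∈ Finset.range ℓ, (ζ ^ j) ^ i * a i =
      (ℓ : Ω) * a i₀ := by
  have hζ0 : ζ ≠ 0 := hζ.ne_zero hℓ0.ne'
  have h1 : ∀ j i : ℕ, (ζ⁻¹ ^ i₀) ^ j * ((ζ ^ j) ^ i * a i) = (ζ⁻¹ ^ i₀ * ζ ^ i) ^ j * a i := by
    intro j i
    rw [mul_pow, ← pow_mul ζ j i, mul_comm j i, pow_mul ζ i j]
    ring
  simp_rw [Finset.mul_sum, h1]
  rw [Finset.sum_comm]
  simp_rw [← Finset.sum_mul]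
  rw [Finset.sum_eq_single i₀]
  · rw [inv_pow, inv_mul_cancel₀ (pow_ne_zero _ hζ0)]
    simp
  · intro i hi hne
    have h2 : ζ⁻¹ ^ i₀ * ζ ^ i ≠ 1 := by
      intro h3
      rw [inv_pow, inv_mul_eq_one₀ (pow_ne_zero _ hζ0)] at h3
      exact hne (hζ.pow_inj hi₀ (Finset.mem_range.1 hi) h3).symm
    have h3 : (ζ⁻¹ ^ i₀ * ζ ^ i) ^ ℓ = 1 := by
      rw [mul_pow, ← pow_mul, ← pow_mul, mul_comm i₀, mul_comm i, pow_mul, pow_mul, inv_pow,
        hζ.pow_eq_one, inv_one, one_pow, one_pow, one_mul]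
    have h4 := geom_sum_mul (ζ⁻¹ ^ i₀ * ζ ^ i) ℓ
    rw [h3, sub_self] at h4
    rcases mul_eq_zero.1 h4 with h5 | h5
    · rw [h5, zero_mul]
    · exact absurd (sub_eq_zero.1 h5) h2
  · intro h2
    exact absurd (Finset.mem_range.2 hi₀) h2

/-- elements algebraic over an algebraically closed field -/
theorem mem_range_of_root [IsAlgClosed k] {a : Ω} (P : k[X]) (hP : P ≠ 0) (h : aeval a P = 0) :
    ∃ c : k, algebraMap k Ω c = a := by
  have hint : IsIntegral k a := isAlgebraic_iff_isIntegral.1 ⟨P, hP, h⟩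
  have h1 := IsAlgClosed.degree_eq_one_of_irreducible k (minpoly.irreducible hint)
  have h2 : (minpoly k a).natDegree = 1 := natDegree_eq_of_degree_eq_some h1
  rw [minpoly.natDegree_eq_one_iff] at h2
  exact h2

theorem pow_apply_root {M' : IntermediateField k Ω} (σ : Ω ≃ₐ[M'] Ω) {η : Ω} {c : k}
    (hση : σ η = algebraMap k Ω c * η) (j : ℕ) :
    (σ ^ j) η = algebraMap k Ω c ^ j * η := by
  have hc : ∀ n : ℕ, σ (algebraMap k Ω c ^ n) = algebraMap k Ω c ^ n := by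
    intro n
    rw [map_pow]
    congr 1
    exact σ.commutes ⟨algebraMap k Ω c, M'.algebraMap_mem c⟩
  induction j with
  | zero => rw [pow_zero, pow_zero, one_mul]; rfl
  | succ j ih =>
    rw [pow_succ', AlgEquiv.mul_apply, ih, map_mul, hc, hση, pow_succ]
    ring

section

variable [IsAlgClosed Ω] [IsAlgClosed k]

/-- the finite distance case -/
theorem tame_fin (p : ℕ) (hp : p.Prime) [CharP k p]
    (h : Ctx0 k v) (T M' : IntermediateField k Ω) (hT : PB p v T) (hM' : hen v M' = M')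
    (hΩ : ∀ g : Ω, IsAlgebraic M' g)
    (hstab : ∀ (σ : Ω ≃ₐ[M'] Ω), ∀ a ∈ T, σ a ∈ T)
    (hrel : ∀ a ∈ hen v (M' ⊔ T), IsAlgebraic T a → a ∈ T)
    (ℓ : ℕ) (hℓ : ℓ.Prime) (hℓp : ℓ ≠ p) {η z : Ω} (hη : η ∈ T) (hηℓ : η ^ ℓ ∈ M')
    (hη0 : η ∉ M') (m : ℕ → Ω) (hm : ∀ i, m i ∈ M')
    (hz : z = ∑ i ∈ Finset.range ℓ, m i * η ^ i) (hzT : Transcendental T z)
    (hgen : hen v (M' ⊔ T) = hen v (adj T z)) {s : ℝ} (hs : DistIs v T z s) :
    ∃ i : ℕ, Transcendental T (m i) ∧ hen v (M' ⊔ T) = hen v (adj T (m i)) := by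
  have _ : Fact p.Prime := ⟨hp⟩
  have _ : CharP Ω p := charP_big (k := k) p
  set L := hen v (M' ⊔ T) with hL
  have hLL : hen v L = L := hen_hen _
  have hTL : T ≤ L := le_sup_right.trans (le_hen _)
  have hM'L : M' ≤ L := le_sup_left.trans (le_hen _)
  have hηne : η ≠ 0 := by
    rintro rfl
    exact hη0 M'.zero_mem
  -- the automorphisms
  have hℓΩ : (ℓ : Ω) ≠ 0 := by
    intro h1
    rw [CharP.cast_eq_zero_iff Ω p] at h1
    rcases (Nat.dvd_prime hℓ).1 h1 with h2 | h2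
    · exact hp.one_lt.ne' h2
    · exact hℓp h2.symm
  have hsepη : IsSeparable M' η := by
    have h1 : (X ^ ℓ - C (⟨η ^ ℓ, hηℓ⟩ : M')).Separable := by
      refine separable_X_pow_sub_C _ ?_ ?_
      · intro h2
        apply hℓΩ
        have := congrArg (algebraMap M' Ω) h2
        rwa [map_natCast, map_zero] at this
      · intro h2
        exact pow_ne_zero ℓ hηne (congrArg Subtype.val h2)
    refine h1.of_dvd (minpoly.dvd _ _ ?_)
    rw [map_sub, map_pow, aeval_X, aeval_C]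
    exact sub_self _
  obtain ⟨σ, hσ⟩ : ∃ σ : Ω ≃ₐ[M'] Ω, σ η ≠ η := by
    by_contra hno
    push Not at hno
    exact hη0 (mem_of_fixed hΩ hsepη hno)
  have hζℓ : (σ η / η) ^ ℓ = 1 := by
    rw [div_pow, ← map_pow, div_eq_one_iff_eq (pow_ne_zero _ hηne)]
    exact σ.commutes ⟨η ^ ℓ, hηℓ⟩
  obtain ⟨c, hc⟩ : ∃ c : k, algebraMap k Ω c = σ η / η := by
    refine mem_range_of_root (X ^ ℓ - C 1) (X_pow_sub_C_ne_zero hℓ.pos 1) ?_
    rw [map_sub, map_pow, aeval_X, aeval_C, map_one, hζℓ, sub_self]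
  have hση : σ η = algebraMap k Ω c * η := by
    rw [hc, div_mul_cancel₀ _ hηne]
  have hprim : IsPrimitiveRoot (algebraMap k Ω c) ℓ := by
    have _ : Fact ℓ.Prime := ⟨hℓ⟩
    have h1 : orderOf (algebraMap k Ω c) = ℓ := by
      refine orderOf_eq_prime (by rw [hc, hζℓ]) ?_
      rw [hc, Ne, div_eq_one_iff_eq hηne]
      exact hσ
    rw [← h1]
    exact IsPrimitiveRoot.orderOf _
  -- the automorphisms move `z` to generators
  have hzL : z ∈ L := by rw [hgen]; exact le_hen _ (mem_adj_self T z).1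
  have hzT' : z ∉ T := fun h1 => hzT (isAlgebraic_algebraMap (R := T) (⟨z, h1⟩ : T))
  have httz : TT v T z := tt_of_relAlgClosed p hp h T L hT hTL hLL hrel hzL hzT'
  have hnear : ∀ τ : Ω ≃ₐ[M'] Ω, Near v T z s (τ z) := by
    intro τ
    have hE : ∀ τ : Ω ≃ₐ[M'] Ω, ∀ a ∈ M' ⊔ T, τ a ∈ M' ⊔ T := by
      intro τ
      have h1 : M' ⊔ T ≤ (M' ⊔ T).comap (τ.restrictScalars k).toAlgHom := by
        refine sup_le (fun a ha => ?_) (fun a ha => ?_)
        · show τ a ∈ M' ⊔ T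
          rw [show τ a = a from τ.commutes ⟨a, ha⟩]
          exact (le_sup_left : M' ≤ _) ha
        · exact (le_sup_right : T ≤ _) (hstab τ a ha)
      exact h1
    have hτL : ∀ τ : Ω ≃ₐ[M'] Ω, ∀ a ∈ L, τ a ∈ L := fun τ a ha => hen_map h hM' hΩ τ (hE τ) ha
    have h1 : τ z ∉ T := by
      intro h2
      have h3 := hstab τ.symm _ h2
      rw [AlgEquiv.symm_apply_apply] at h3
      exact hzT' h3
    have h2 : TT v T (τ z) := tt_of_relAlgClosed p hp h T L hT hTL hLL hrel (hτL τ z hzL) h1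
    have h3 : DistIs v T (τ z) s := by
      have h4 : {a : ℝ | ∃ c ∈ T, a = v (τ z - c)} = {a : ℝ | ∃ c ∈ T, a = v (z - c)} := by
        ext a
        constructor
        · rintro ⟨c, hc, rfl⟩
          refine ⟨τ.symm c, hstab _ _ hc, ?_⟩
          rw [← val_aut h hM' hΩ τ (z - τ.symm c), map_sub, AlgEquiv.apply_symm_apply]
        · rintro ⟨c, hc, rfl⟩
          refine ⟨τ c, hstab _ _ hc, ?_⟩
          rw [← map_sub, val_aut h hM' hΩ τ]
      unfold DistIs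
      rw [h4]
      exact hs
    have h5 : hen v (adj T (τ z)) = hen v (adj T z) := by
      apply le_antisymm
      · rw [← hgen]
        exact hen_le hLL (adj_le hTL (hτL τ z hzL))
      · rw [← hgen]
        intro a ha
        have h6 : τ.symm a ∈ hen v (adj T z) := by
          rw [← hgen]
          exact hτL τ.symm a ha
        have h7 := hen_map' h hM' hΩ τ (E := adj T z) (E' := adj T (τ z)) (by
          have h8 : adj T z ≤ (adj T (τ z)).comap (τ.restrictScalars k).toAlgHom := by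
            refine adj_le (fun b hb => ?_) ?_
            · exact (mem_adj_self T (τ z)).2 (hstab τ b hb)
            · exact (mem_adj_self T (τ z)).1
          exact h8) h6
        rwa [AlgEquiv.apply_symm_apply] at h7
    obtain ⟨κ, _, d, hd, δ, hδ, h6⟩ := far_of_gen p hp h T hT httz h2 hs h3 h5
    exact ⟨κ, d, hd, δ, hδ, h6⟩
  -- the components
  have hcomp : ∀ i₀ < ℓ, Near v T z s (m i₀ * η ^ i₀) := by
    intro i₀ hi₀
    have h1 : ∀ j : ℕ, (σ ^ j) z =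
        ∑ i ∈ Finset.range ℓ, (algebraMap k Ω c ^ j) ^ i * (m i * η ^ i) := by
      intro j
      rw [hz, map_sum]
      refine Finset.sum_congr rfl fun i _ => ?_
      rw [map_mul, map_pow, pow_apply_root σ hση, mul_pow,
        show (σ ^ j) (m i) = m i from (σ ^ j).commutes ⟨m i, hm i⟩]
      ring
    have h2 := dft_inv hℓ.pos hprim (fun i => m i * η ^ i) hi₀
    have h3 : m i₀ * η ^ i₀ = algebraMap k Ω (ℓ : k)⁻¹ *
        ∑ j ∈ Finset.range ℓ, algebraMap k Ω ((c⁻¹ ^ i₀) ^ j) * (σ ^ j) z := by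
      have h4 : ∑ j ∈ Finset.range ℓ, algebraMap k Ω ((c⁻¹ ^ i₀) ^ j) * (σ ^ j) z =
          (ℓ : Ω) * (m i₀ * η ^ i₀) := by
        rw [← h2]
        refine Finset.sum_congr rfl fun j _ => ?_
        rw [h1 j, map_pow, map_pow, map_inv₀]
      rw [h4, map_inv₀, map_natCast, inv_mul_cancel_left₀ hℓΩ]
    rw [h3]
    exact (Near.sum _ _ fun j _ => (hnear (σ ^ j)).smul h _).smul h _
  -- one of them has a nonzero coefficient
  obtain ⟨i, hi, κ, hκ, d, hd, δ, hδ, hfar⟩ : ∃ i < ℓ, ∃ κ : k, κ ≠ 0 ∧ ∃ d ∈ T, ∃ δ : ℝ, 0 < δ ∧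
      v.Ge (s + δ) (m i * η ^ i - algebraMap k Ω κ * z - d) := by
    by_contra hno
    push Not at hno
    have h1 : ∀ i ∈ Finset.range ℓ, Near0 v T s (m i * η ^ i) := by
      intro i hi
      obtain ⟨κ, d, hd, δ, hδ, h2⟩ := hcomp i (Finset.mem_range.1 hi)
      by_cases hκ : κ = 0
      · rw [hκ, map_zero, zero_mul, sub_zero] at h2
        exact ⟨d, hd, δ, hδ, h2⟩
      · exact absurd h2 (hno i (Finset.mem_range.1 hi) κ hκ d hd δ hδ)
    have h2 := Near0.sum _ _ h1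
    rw [← hz] at h2
    obtain ⟨d, hd, δ, hδ, h3⟩ := h2
    have h4 := h3 (sub_ne_zero.2 fun h5 => hzT' (h5 ▸ hd))
    have h5 := hs.1 ⟨d, hd, rfl⟩
    linarith
  refine ⟨i, ?_⟩
  have hmL : m i * η ^ i ∈ hen v (adj T z) := by
    rw [← hgen]
    exact L.mul_mem (hM'L (hm i)) (pow_mem (hTL hη) i)
  obtain ⟨h1, _, h2⟩ := gen_of_far p hp h T hT httz hs hmL κ hκ hd hδ hfar
  constructor
  · intro h3
    apply h1.1
    exact h3.mul ((isAlgebraic_algebraMap (R := T) (⟨η, hη⟩ : T)).pow i)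
  · rw [hgen, ← h2]
    congr 1
    have h3 : η ^ i ∈ T := pow_mem hη i
    have h4 : η ^ i ≠ 0 := pow_ne_zero _ hηne
    apply le_antisymm
    · refine adj_le (mem_adj_self T _).2 ?_
      exact (adj T (m i)).mul_mem (mem_adj_self T _).1 ((mem_adj_self T _).2 h3)
    · refine adj_le (mem_adj_self T _).2 ?_
      have h5 : m i = (m i * η ^ i) * (η ^ i)⁻¹ := by
        rw [mul_assoc, mul_inv_cancel₀ h4, mul_one]
      rw [h5]
      exact (adj T _).mul_mem (by rw [← h5]; exact (mem_adj_self T _).1)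
        ((adj T _).inv_mem ((mem_adj_self T _).2 h3))

omit [IsAlgClosed Ω] in
/-- the infinite distance case -/
theorem tame_inf (p : ℕ) (hp : p.Prime) [CharP k p]
    (T M' : IntermediateField k Ω) (hT : PB p v T)
    (hrel : ∀ a ∈ hen v (M' ⊔ T), IsAlgebraic T a → a ∈ T)
    (ℓ : ℕ) {η z : Ω} (hη : η ∈ T) (m : ℕ → Ω) (hm : ∀ i, m i ∈ M')
    (hz : z = ∑ i ∈ Finset.range ℓ, m i * η ^ i) (hzT : Transcendental T z)
    (hgen : hen v (M' ⊔ T) = hen v (adj T z)) (hcl : z ∈ Cl v T.toSubfield) :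
    ∃ i : ℕ, Transcendental T (m i) ∧ hen v (M' ⊔ T) = hen v (adj T (m i)) := by
  have _ : Fact p.Prime := ⟨hp⟩
  have _ : CharP Ω p := charP_big (k := k) p
  obtain ⟨F, hF⟩ := exists_powF p (hen v (adj T z))
  have hTL : T ≤ hen v (adj T z) := (mem_adj_self T z).2.trans (le_hen _)
  have hTF : T ≤ F := by
    intro t ht
    obtain ⟨t', ht', h1⟩ := hT.perf t ht
    exact (hF t).2 ⟨t', hTL ht', h1⟩
  obtain ⟨i, hi⟩ : ∃ i : ℕ, m i ∉ F := by
    by_contra hno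
    push Not at hno
    have h1 : z ∈ F := by
      rw [hz]
      exact sum_mem fun i _ => F.mul_mem (hno i) (pow_mem (hTF hη) i)
    obtain ⟨u, hu, h2⟩ := (hF z).1 h1
    exact hen_not_pow p hzT hu h2
  have hmL : m i ∈ hen v (M' ⊔ T) := le_hen _ ((le_sup_left : M' ≤ _) (hm i))
  have hmt : Transcendental T (m i) := fun h1 => hi (hTF (hrel _ hmL h1))
  refine ⟨i, hmt, ?_⟩
  rw [hgen] at hmL ⊢
  exact (hen_eq_of_cl p hT.perf hcl hmt hmL fun u hu h1 => hi ((hF _).2 ⟨u, hu, h1⟩)).symm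

/-- A2s: one tame step of prime degree `ℓ`, with the (full) base `T` stable under the
automorphisms. (Finite distance: `far_of_gen`, Fourier transform, `gen_of_far`. Infinite distance:
everything is in the closure.) -/
theorem tame_step (p : ℕ) (hp : p.Prime) [CharP k p]
    (h : Ctx0 k v) (T M' : IntermediateField k Ω) (hT : PB p v T) (hM' : hen v M' = M')
    (hΩ : ∀ g : Ω, IsAlgebraic M' g)
    (hstab : ∀ (σ : Ω ≃ₐ[M'] Ω), ∀ a ∈ T, σ a ∈ T)
    (hrel : ∀ a ∈ hen v (M' ⊔ T), IsAlgebraic T a → a ∈ T)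
    (ℓ : ℕ) (hℓ : ℓ.Prime) (hℓp : ℓ ≠ p) {η z : Ω} (hη : η ∈ T) (hηℓ : η ^ ℓ ∈ M')
    (hη0 : η ∉ M') (hz : z ∈ adj M' η) (hzT : Transcendental T z)
    (hgen : hen v (M' ⊔ T) = hen v (adj T z)) :
    ∃ z' ∈ M', Transcendental T z' ∧ hen v (M' ⊔ T) = hen v (adj T z') := by
  obtain ⟨m, hm, hzm⟩ := mem_adj_sum hℓ.pos hηℓ hz
  by_cases hbd : BddAbove {a : ℝ | ∃ c ∈ T, a = v (z - c)}
  · have hs : DistIs v T z (sSup {a : ℝ | ∃ c ∈ T, a = v (z - c)}) :=
      isLUB_csSup ⟨_, 0, T.zero_mem, rfl⟩ hbd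
    obtain ⟨i, h1, h2⟩ := tame_fin p hp h T M' hT hM' hΩ hstab hrel ℓ hℓ hℓp hη hηℓ hη0 m hm hzm
      hzT hgen hs
    exact ⟨m i, hm i, h1, h2⟩
  · have hcl : z ∈ Cl v T.toSubfield := by
      intro c
      rw [not_bddAbove_iff] at hbd
      obtain ⟨_, ⟨t, ht, rfl⟩, h1⟩ := hbd c
      exact ⟨t, ht, fun _ => h1.le⟩
    obtain ⟨i, h1, h2⟩ := tame_inf p hp T M' hT hrel ℓ hη m hm hzm hzT hgen hcl
    exact ⟨m i, hm i, h1, h2⟩

end

end Pool.Agent.D2P
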