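import Pool.Agent.Lib.D2P.R0

/-!
# D2P, Part A, row A2s, auxiliary: separable generators

Over a perfect field `T` of characteristic `p`: if `y` is separable over `T(z)` and `z` is algebraic
over `T(y)`, then `z` is separable over `T(y)` or `y` is a `p`-th power in `T(z, y)`.
-/

set_option autoImplicit false

open Polynomial

namespace Pool.Agent.D2P

open Pool.Agent.H15JM (RVal)
open Pool.Agent.LU1 (adj)
open Pool.Agent.LUC (Cl)
open Pool.Agent.D2 (Ctx0)

universe u

variable {k Ω : Type u} [Field k] [Field Ω] [Algebra k Ω]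

theorem adj_eq (E : IntermediateField k Ω) (z : Ω) :
    (IntermediateField.adjoin E {z}).restrictScalars k = adj E z :=
  IntermediateField.restrictScalars_adjoin_eq_sup k E {z}

theorem mem_adj_iff {E : IntermediateField k Ω} {z a : Ω} :
    a ∈ adj E z ↔ a ∈ IntermediateField.adjoin E {z} := by
  rw [← adj_eq, IntermediateField.mem_restrictScalars]

theorem adj_mono {E F : IntermediateField k Ω} (h : E ≤ F) (z : Ω) : adj E z ≤ adj F z :=
  sup_le_sup_right h _

theorem isAlgebraic_adj_iff {T : IntermediateField k Ω} {y z : Ω} :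
    IsAlgebraic (adj T z) y ↔ IsAlgebraic (Algebra.adjoin T {z}) y := by
  have h1 : IsAlgebraic (adj T z) y ↔ IsAlgebraic (IntermediateField.adjoin T {z}) y := by
    rw [← adj_eq]
    rfl
  rw [h1]
  open scoped IntermediateField.algebraAdjoinAdjoin in
  exact (IsFractionRing.isAlgebraic_iff (Algebra.adjoin T {z}) (IntermediateField.adjoin T {z})
    Ω).symm

/-- exchange -/
theorem alg_exchange {T : IntermediateField k Ω} {y z : Ω} (hy : Transcendental T y)
    (hyz : IsAlgebraic (adj T z) y) : IsAlgebraic (adj T y) z := by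
  rw [isAlgebraic_adj_iff] at hyz ⊢
  by_contra hz
  have h1 : AlgebraicIndepOn T (id : Ω → Ω) (insert z {y}) := by
    refine AlgebraicIndepOn.insert ?_ (by rw [Set.image_id]; exact hz)
    exact (algebraicIndependent_unique_type_iff (R := T)).2 hy
  by_cases hzy : z = y
  · subst hzy
    exact hz (isAlgebraic_algebraMap (⟨z, Algebra.subset_adjoin rfl⟩ : Algebra.adjoin T {z}))
  rw [Set.pair_comm, AlgebraicIndepOn.insert_iff (by simpa using Ne.symm hzy)] at h1
  have h2 := h1.2
  rw [Set.image_id] at h2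
  exact h2 hyz
variable (p : ℕ) [Fact p.Prime] [CharP k p]

/-- a separable element generates the same field as its `p`-th power -/
theorem mem_adj_pow [CharP Ω p] {E : IntermediateField k Ω} {a : Ω} (ha : IsSeparable E a) :
    a ∈ adj E (a ^ p) := by
  have _ : CharP E p := charP_field p E
  have _ : ExpChar E p := ExpChar.prime (Fact.out)
  have h1 := IntermediateField.adjoin_simple_eq_adjoin_pow_expChar_of_isSeparable E Ω ha p
  rw [mem_adj_iff, ← h1]
  exact IntermediateField.mem_adjoin_simple_self E a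

/-- an element over which the Frobenius is invertible is separable -/
theorem sep_of_mem_adj_pow [CharP Ω p] {E : IntermediateField k Ω} {a : Ω} (hal : IsAlgebraic E a)
    (ha : a ∈ adj E (a ^ p)) : IsSeparable E a := by
  have _ : CharP E p := charP_field p E
  have _ : ExpChar E p := ExpChar.prime (Fact.out)
  have hp : p.Prime := Fact.out
  -- all levels
  have h1 : ∀ n : ℕ, a ∈ adj E (a ^ p ^ n) := by
    intro n
    induction n with
    | zero => rw [pow_zero, pow_one]; exact (mem_adj_self E a).1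
    | succ n ih =>
      have h2 : adj E (a ^ p ^ n) ≤ rootF p 1 (adj E (a ^ p ^ (n + 1))) := by
        refine adj_le (fun e he => ?_) ?_
        · rw [mem_rootF, pow_one]
          exact pow_mem ((mem_adj_self E _).2 he) _
        · rw [mem_rootF, pow_one, ← pow_mul, ← pow_succ]
          exact (mem_adj_self E _).1
      have h3 : a ^ p ∈ adj E (a ^ p ^ (n + 1)) := by
        have := h2 ih
        rwa [mem_rootF, pow_one] at this
      exact adj_le (mem_adj_self E _).2 h3 ha
  -- some power is separable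
  have hint := hal.isIntegral
  have hirr := minpoly.irreducible hint
  obtain ⟨g, hg, m, hgm⟩ := hirr.hasSeparableContraction p
  have h2 : aeval (a ^ p ^ m) g = 0 := by
    rw [← expand_aeval, hgm, minpoly.aeval]
  have h3 : IsSeparable E (a ^ p ^ m) := hg.of_dvd (minpoly.dvd _ _ h2)
  have h4 := h1 m
  have h5 : adj E (a ^ p ^ m) ≤ (separableClosure E Ω).restrictScalars k := by
    refine adj_le (fun e he => ?_) ?_
    · rw [IntermediateField.mem_restrictScalars, mem_separableClosure_iff]
      exact isSeparable_algebraMap (F := E) (⟨e, he⟩ : E)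
    · rw [IntermediateField.mem_restrictScalars, mem_separableClosure_iff]
      exact h3
  have h6 := h5 h4
  rwa [IntermediateField.mem_restrictScalars, mem_separableClosure_iff] at h6

omit [CharP k p] in
/-- elements of a simple extension of prime degree `p`, purely inseparable -/
theorem mem_adj_of_prime [CharP Ω p] {A : IntermediateField k Ω} {y z : Ω} (hz : z ^ p ∈ A)
    (hzA : z ∉ A) (hy : y ∈ adj A z) (hyA : y ∉ A) : z ∈ adj A y := by
  have hp : p.Prime := Fact.out
  have hirr : Irreducible (X ^ p - C (⟨z ^ p, hz⟩ : A)) := by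
    refine X_pow_sub_C_irreducible_of_prime hp fun b hb => hzA ?_
    have h1 : (b : Ω) ^ p = z ^ p := congrArg Subtype.val hb
    have h2 : (b : Ω) = z := frobenius_inj Ω p h1
    rw [← h2]
    exact b.2
  have hroot : aeval z (X ^ p - C (⟨z ^ p, hz⟩ : A)) = 0 := by
    rw [map_sub, map_pow, aeval_X, aeval_C]
    exact sub_self _
  have hmonic : (X ^ p - C (⟨z ^ p, hz⟩ : A)).Monic := monic_X_pow_sub_C _ hp.ne_zero
  have hint : IsIntegral A z := ⟨_, hmonic, hroot⟩
  have hmin : minpoly A z = X ^ p - C (⟨z ^ p, hz⟩ : A) :=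
    (minpoly.eq_of_irreducible_of_monic hirr hroot hmonic).symm
  have hdeg : Module.finrank A (IntermediateField.adjoin A {z}) = p := by
    rw [IntermediateField.adjoin.finrank hint, hmin, natDegree_X_pow_sub_C]
  have _ : FiniteDimensional A (IntermediateField.adjoin A {z}) :=
    IntermediateField.adjoin.finiteDimensional hint
  rw [mem_adj_iff] at hy
  have hle : IntermediateField.adjoin A {y} ≤ IntermediateField.adjoin A {z} := by
    rw [IntermediateField.adjoin_le_iff, Set.singleton_subset_iff]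
    exact hy
  have hdvd := IntermediateField.finrank_dvd_of_le_right hle
  rw [hdeg] at hdvd
  rcases (Nat.dvd_prime hp).1 hdvd with h1 | h1
  · rw [IntermediateField.finrank_eq_one_iff] at h1
    exfalso
    apply hyA
    have h2 := IntermediateField.mem_adjoin_simple_self A y
    rw [h1, IntermediateField.mem_bot] at h2
    obtain ⟨b, hb⟩ := h2
    rw [← hb]
    exact b.2
  · have h2 := IntermediateField.eq_of_le_of_finrank_eq hle (h1.trans hdeg.symm)
    rw [mem_adj_iff, h2]
    exact IntermediateField.mem_adjoin_simple_self A z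

omit [CharP k p] in
/-- the field of `p`-th powers -/
theorem exists_powF [IsAlgClosed k] [CharP Ω p] (E : IntermediateField k Ω) :
    ∃ F : IntermediateField k Ω, ∀ a : Ω, a ∈ F ↔ ∃ b ∈ E, b ^ p = a := by
  refine ⟨(E.toSubfield.map (frobenius Ω p)).toIntermediateField fun c => ?_, fun a => ?_⟩
  · obtain ⟨c', hc'⟩ := IsAlgClosed.exists_pow_nat_eq c (Fact.out : p.Prime).pos
    refine ⟨algebraMap k Ω c', E.algebraMap_mem c', ?_⟩
    rw [frobenius_def, ← map_pow, hc']
  · constructor
    · rintro ⟨b, hb, rfl⟩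
      exact ⟨b, hb, rfl⟩
    · rintro ⟨b, hb, rfl⟩
      exact ⟨b, hb, rfl⟩

omit [CharP k p] in
/-- the variable of a rational function field is not a `p`-th power -/
theorem not_pow {T : IntermediateField k Ω} {z u : Ω} (hz : Transcendental T z)
    (hu : u ∈ adj T z) : u ^ p ≠ z := by
  have hp : p.Prime := Fact.out
  intro h1
  rw [mem_adj_iff, IntermediateField.mem_adjoin_simple_iff] at hu
  obtain ⟨A, B, h2⟩ := hu
  have hinj := transcendental_iff_injective.1 hz
  have hz0 : z ≠ 0 := by
    rintro rfl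
    exact hz (isAlgebraic_zero)
  have hB : aeval z B ≠ 0 := by
    intro h3
    rw [h3, div_zero] at h2
    rw [h2, zero_pow hp.ne_zero] at h1
    exact hz0 h1.symm
  have h3 : A ^ p = X * B ^ p := by
    apply hinj
    rw [map_pow, map_mul, map_pow, aeval_X]
    rw [h2, div_pow, div_eq_iff (pow_ne_zero _ hB)] at h1
    exact h1
  have hB0 : B ≠ 0 := by
    rintro rfl
    simp at hB
  have h4 := congrArg natDegree h3
  rw [natDegree_pow, natDegree_mul X_ne_zero (pow_ne_zero _ hB0), natDegree_X, natDegree_pow] at h4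
  have h5 : p ∣ 1 := by
    have h6 : p ∣ 1 + p * B.natDegree := ⟨_, h4.symm⟩
    exact (Nat.dvd_add_left (Dvd.intro _ rfl)).1 h6
  exact hp.one_lt.ne' (Nat.dvd_one.1 h5)

/-- Separable generators of function fields of one variable over a perfect field. -/
theorem sep_or_pow [IsAlgClosed k] [CharP Ω p] {T : IntermediateField k Ω}
    (hperf : ∀ a ∈ T, ∃ b ∈ T, b ^ p = a) {y z : Ω} (hyz : IsSeparable (adj T z) y)
    (hzy : IsAlgebraic (adj T y) z) :
    IsSeparable (adj T y) z ∨ ∃ u ∈ adj (adj T z) y, u ^ p = y := by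
  set A : IntermediateField k Ω := adj (adj T (z ^ p)) (y ^ p) with hA
  have hTA : T ≤ A := (mem_adj_self T _).2.trans (mem_adj_self _ _).2
  have hzpA : z ^ p ∈ A := (mem_adj_self _ _).2 (mem_adj_self T _).1
  have hypA : y ^ p ∈ A := (mem_adj_self _ _).1
  have hTB : T ≤ adj (adj T y) (z ^ p) := (mem_adj_self T _).2.trans (mem_adj_self _ _).2
  have hyB : y ∈ adj (adj T y) (z ^ p) := (mem_adj_self _ _).2 (mem_adj_self T y).1
  have hzpB : z ^ p ∈ adj (adj T y) (z ^ p) := (mem_adj_self _ _).1
  have hAB : A ≤ adj (adj T y) (z ^ p) := adj_le (adj_le hTB hzpB) (pow_mem hyB p)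
  by_cases hzA : z ∈ A
  · left
    exact sep_of_mem_adj_pow p hzy (hAB hzA)
  have hyAz : y ∈ adj A z := by
    have h1 := mem_adj_pow p hyz
    refine adj_le (adj_le (hTA.trans (mem_adj_self _ _).2) (mem_adj_self _ _).1)
      ((mem_adj_self A z).2 hypA) h1
  by_cases hyA : y ∈ A
  · right
    obtain ⟨F, hF⟩ := exists_powF p (adj (adj T z) y)
    have h1 : A ≤ F := by
      refine adj_le (adj_le (fun t ht => ?_) ?_) ?_
      · obtain ⟨t', ht', h2⟩ := hperf t ht
        exact (hF t).2 ⟨t', ((mem_adj_self T z).2.trans (mem_adj_self _ _).2) ht', h2⟩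
      · exact (hF _).2 ⟨z, (mem_adj_self _ _).2 (mem_adj_self T z).1, rfl⟩
      · exact (hF _).2 ⟨y, (mem_adj_self _ _).1, rfl⟩
    exact (hF y).1 (h1 hyA)
  · left
    have h1 := mem_adj_of_prime p hzpA hzA hyAz hyA
    exact sep_of_mem_adj_pow p hzy (adj_le hAB hyB h1)

section

variable {v : RVal Ω}

/-- a generator in the closure of the base -/
theorem hen_eq_of_cl [IsAlgClosed k] [CharP Ω p] {T : IntermediateField k Ω}
    (hperf : ∀ a ∈ T, ∃ b ∈ T, b ^ p = a) {y z : Ω} (hz : z ∈ Cl v T.toSubfield)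
    (hyt : Transcendental T y) (hy : y ∈ hen v (adj T z))
    (hyp : ∀ u ∈ hen v (adj T z), u ^ p ≠ y) :
    hen v (adj T y) = hen v (adj T z) := by
  have hTL : T ≤ hen v (adj T z) := (mem_adj_self T z).2.trans (le_hen _)
  have hsep := (mem_hen.1 hy).2
  refine le_antisymm (hen_le (hen_hen _) (adj_le hTL hy)) ?_
  refine hen_le (hen_hen _) (adj_le ((mem_adj_self T y).2.trans (le_hen _)) ?_)
  rw [mem_hen]
  refine ⟨cl_mono (fun t ht => (mem_adj_self T y).2 ht) hz, ?_⟩
  rcases sep_or_pow p hperf hsep (alg_exchange hyt hsep.isIntegral.isAlgebraic) with h1 | h1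
  · exact h1
  · exfalso
    obtain ⟨u, hu, huy⟩ := h1
    exact hyp u (adj_le (le_hen _) hy hu) huy

/-- the generator is not a `p`-th power -/
theorem hen_not_pow [CharP Ω p] {T : IntermediateField k Ω} {z u : Ω} (hz : Transcendental T z)
    (hu : u ∈ hen v (adj T z)) : u ^ p ≠ z := by
  intro h1
  have h2 := mem_adj_pow p (mem_hen.1 hu).2
  rw [h1] at h2
  exact not_pow p hz (adj_le le_rfl (mem_adj_self T z).1 h2) h1

/-- automorphisms over `M` and closures, two fields -/
theorem hen_map' [IsAlgClosed Ω] (h : Ctx0 k v) {M E E' : IntermediateField k Ω} (hM : hen v M = M)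
    (hΩ : ∀ g : Ω, IsAlgebraic M g) (σ : Ω ≃ₐ[M] Ω) (hE : ∀ a ∈ E, σ a ∈ E') {a : Ω}
    (ha : a ∈ hen v E) : σ a ∈ hen v E' := by
  rw [mem_hen] at ha ⊢
  constructor
  · intro c
    obtain ⟨a₀, h0, h1⟩ := ha.1 c
    refine ⟨σ a₀, hE _ h0, ?_⟩
    rw [← map_sub]
    intro h2
    rw [val_aut h hM hΩ σ]
    exact h1 fun h0 => h2 (by rw [h0, map_zero])
  · let φ : E →+* E' := RingHom.codRestrict ((σ : Ω →+* Ω).comp (algebraMap E Ω)) E'
      fun x => hE x x.2
    have hφ : (algebraMap E' Ω).comp φ = (σ : Ω →+* Ω).comp (algebraMap E Ω) := by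
      ext x; rfl
    have hsep : ((minpoly E a).map φ).Separable := Polynomial.Separable.map ha.2
    have h3 : aeval (σ a) ((minpoly E a).map φ) = 0 := by
      have h4 := minpoly.aeval E a
      rw [aeval_def, eval₂_eq_eval_map] at h4 ⊢
      rw [Polynomial.map_map, hφ, ← Polynomial.map_map]
      show eval ((σ : Ω →+* Ω) a) _ = 0
      rw [eval_map, eval₂_at_apply, h4, map_zero]
    exact hsep.of_dvd (minpoly.dvd _ _ h3)

end

/-- elements of `M'(η)`, `η ^ ℓ ∈ M'` -/
theorem mem_adj_sum {M' : IntermediateField k Ω} {η z : Ω} {ℓ : ℕ} (hℓ : 0 < ℓ)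
    (hη : η ^ ℓ ∈ M') (hz : z ∈ adj M' η) :
    ∃ m : ℕ → Ω, (∀ i, m i ∈ M') ∧ z = ∑ i ∈ Finset.range ℓ, m i * η ^ i := by
  have hmonic : (X ^ ℓ - C (⟨η ^ ℓ, hη⟩ : M')).Monic := monic_X_pow_sub_C _ hℓ.ne'
  have hroot : aeval η (X ^ ℓ - C (⟨η ^ ℓ, hη⟩ : M')) = 0 := by
    rw [map_sub, map_pow, aeval_X, aeval_C]
    exact sub_self _
  have hint : IsIntegral M' η := ⟨_, hmonic, hroot⟩
  rw [mem_adj_iff] at hz
  have h1 : z ∈ (IntermediateField.adjoin M' {η}).toSubalgebra := hz
  rw [IntermediateField.adjoin_simple_toSubalgebra_of_isAlgebraic hint.isAlgebraic,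
    Algebra.adjoin_singleton_eq_range_aeval] at h1
  obtain ⟨P, hP⟩ := h1
  have h2 : aeval η (P %ₘ (X ^ ℓ - C (⟨η ^ ℓ, hη⟩ : M'))) = z := by
    rw [← hP]
    exact aeval_modByMonic_eq_self_of_root hroot
  have h3 : (P %ₘ (X ^ ℓ - C (⟨η ^ ℓ, hη⟩ : M'))).natDegree < ℓ := by
    have h4 := natDegree_modByMonic_lt P hmonic (by
      intro h5
      have h6 := congrArg natDegree h5
      rw [natDegree_X_pow_sub_C, natDegree_one] at h6
      exact hℓ.ne' h6)
    rwa [natDegree_X_pow_sub_C] at h4
  refine ⟨fun i => (((P %ₘ (X ^ ℓ - C (⟨η ^ ℓ, hη⟩ : M'))).coeff i : M') : Ω), fun i => Subtype.prop _, ?_⟩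
  rw [← h2, aeval_eq_sum_range' h3]
  rfl

end Pool.Agent.D2P
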