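import Pool.Agent.Lib.D2P.A3a
import Pool.Agent.Lib.D2P.A2
import Pool.Agent.Lib.D2.G3
import Pool.Agent.Lib.D2.G1c
import Pool.Agent.Lib.D2.EN1

/-!
# D2P, Part A, row A3: all function fields, from the purely inseparable step
-/

set_option autoImplicit false

open Polynomial

namespace Pool.Agent.D2P

open Pool.Agent.H15JM (RVal)
open Pool.Agent.LU1 (VPos adj)
open Pool.Agent.LUC (Cl clF LUs)
open Pool.Agent.LU3 (Ctx2 RF2 E2r)
open Pool.Agent.D2 (Ctx0)

universe u

variable {k Ω : Type u} [Field k] [Field Ω] [Algebra k Ω] {v : RVal Ω}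

/-- A3. -/
theorem hrat_all [IsAlgClosed Ω] [IsAlgClosed k] (p : ℕ) [Fact p.Prime] [CharP k p] [CharP Ω p]
    {r : ℕ} (h2 : Ctx2 k v r) (hPI : PIstep p v k) (E : IntermediateField k Ω) (hE : E.FG)
    (hΩ : ∀ g : Ω, IsAlgebraic E g) : HRat v E := by
  classical
  have hp : 0 < p := (Fact.out : p.Prime).pos
  obtain ⟨L₀, e, hL₀, hN⟩ := a2 p h2 E hE hΩ
  have hpe : 0 < p ^ e := pow_pos hp e
  set N := E ⊔ rootF p e L₀ with hNdef
  have hNE : ∀ b ∈ N, b ^ p ^ e ∈ E := by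
    have h1 : N ≤ rootF p e E := by
      refine sup_le (le_rootF E e) ?_
      intro a ha
      rw [mem_rootF] at ha ⊢
      exact hL₀ ha
    exact fun b hb => h1 hb
  set E' : IntermediateField k Ω := (N.toSubfield.map
    (iterateFrobenius Ω p e)).toIntermediateField (fun c => by
      obtain ⟨c', hc'⟩ := IsAlgClosed.exists_pow_nat_eq c hpe
      refine ⟨algebraMap k Ω c', N.algebraMap_mem c', ?_⟩
      rw [iterateFrobenius_def, ← map_pow, hc']) with hE'def
  have hE' : ∀ a : Ω, a ∈ E' ↔ ∃ b ∈ N, b ^ p ^ e = a := by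
    intro a
    constructor
    · rintro ⟨b, hb, hba⟩
      exact ⟨b, hb, by rw [← iterateFrobenius_def, hba]⟩
    · rintro ⟨b, hb, rfl⟩
      exact ⟨b, hb, iterateFrobenius_def ..⟩
  have hE'r : HRat v E' := hrat_frob p e N E' hN hE'
  have hE'E : E' ≤ E := by
    intro a ha
    obtain ⟨b, hb, rfl⟩ := (hE' a).1 ha
    exact hNE b hb
  have hEp : ∀ a ∈ E, a ^ p ^ e ∈ E' := fun a ha =>
    (hE' _).2 ⟨a, (le_sup_left : E ≤ N) ha, rfl⟩
  obtain ⟨S, hS⟩ := hE
  have hSE : ∀ s ∈ S, s ∈ E := fun s hs => by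
    rw [← hS]
    exact IntermediateField.subset_adjoin _ _ hs
  have hfg : E'.FG := by
    refine fg_between (E₀ := IntermediateField.adjoin k
      ((S.image fun s => s ^ p ^ e : Finset Ω) : Set Ω)) ?_
      (IntermediateField.fg_adjoin_finset _) S ?_ ?_
    · rw [IntermediateField.adjoin_le_iff]
      intro a ha
      obtain ⟨s, hs, rfl⟩ := Finset.mem_image.1 (Finset.mem_coe.1 ha)
      exact hEp s (hSE s hs)
    · intro s hs
      refine isAlgebraic_of_pow hpe (isAlgebraic_of_mem ?_)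
      exact IntermediateField.subset_adjoin _ _
        (Finset.mem_coe.2 (Finset.mem_image_of_mem _ hs))
    · refine hE'E.trans ?_
      rw [← hS]
      exact le_sup_right
  have halg : ∀ g : Ω, IsAlgebraic E' g := fun g =>
    isAlgebraic_trans (fun a ha => isAlgebraic_of_pow hpe (isAlgebraic_of_mem (hEp a ha))) (hΩ g)
  have h3 := hrat_roots p hPI e E' hfg halg hE'r S fun s hs => hEp s (hSE s hs)
  have h4 : E' ⊔ IntermediateField.adjoin k (S : Set Ω) = E := by
    rw [hS]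
    exact sup_eq_right.2 hE'E
  rwa [h4] at h3

/-- From the henselization of a rational frame to log uniformization. -/
theorem lus_of_hrat [IsAlgClosed Ω] [IsAlgClosed k] {r : ℕ} (h2 : Ctx2 k v r)
    (hE2 : E2r k Ω v) (E : IntermediateField k Ω) (hE : E.FG) (hΩ : ∀ g : Ω, IsAlgebraic E g)
    (hr : HRat v E) : LUs v (algebraMap k Ω).range E.toSubfield := by
  have h0 : Ctx0 k v := ⟨h2.triv, h2.res⟩
  obtain ⟨F, hF⟩ := hr
  have h1 : ∀ a ∈ E, a ∈ Cl v F.K.toSubfield ∧ IsSeparable F.K a := by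
    intro a ha
    rw [← mem_hen, hF]
    exact le_hen E ha
  have h3 : ∀ a ∈ F.K, a ∈ Cl v E.toSubfield ∧ IsSeparable E a := by
    intro a ha
    rw [← mem_hen, ← hF]
    exact le_hen F.K ha
  have hy : F.y ∈ F.K := IntermediateField.subset_adjoin _ _ (Or.inr (Or.inl rfl))
  have hpos : ∃ a ∈ E, a ≠ 0 ∧ 0 < v a := by
    obtain ⟨a, ha, ha0, hav, -⟩ := LUC.Cl.exists_val (h3 F.y hy).1 0 F.y_ne
    exact ⟨a, ha, ha0, by rw [hav]; exact F.y_pos⟩
  exact D2.lus_of_cl E F.K (fun c => h0.ge c) hpos hE (D2.RF2K_fg F) hΩ (fun a ha => (h1 a ha).1)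
    (fun a ha => (h3 a ha).1) (fun a ha => (h1 a ha).2) (fun a ha => (h3 a ha).2)
    (D2.lus_rat h2 hE2 F)

/-- The final theorem. -/
theorem lus_all_p [IsAlgClosed Ω] [IsAlgClosed k] (p : ℕ) [Fact p.Prime] [CharP k p] [CharP Ω p]
    {r : ℕ} (h2 : Ctx2 k v r) (hE2 : E2r k Ω v) (hPI : PIstep p v k)
    (E : IntermediateField k Ω) (hE : E.FG) (hΩ : ∀ g : Ω, IsAlgebraic E g) :
    LUs v (algebraMap k Ω).range E.toSubfield :=
  lus_of_hrat h2 hE2 E hE hΩ (hrat_all p h2 hPI E hE hΩ)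

end Pool.Agent.D2P
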