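import Pool.Agent.Lib.D2P.A2m
import Pool.Agent.Lib.D2P.A2g

/-!
# D2P, Part A, row A3: Frobenius, and the ascent through purely inseparable steps
-/

set_option autoImplicit false

open Polynomial

namespace Pool.Agent.D2P

open Pool.Agent.H15JM (RVal)
open Pool.Agent.LU1 (VPos adj)
open Pool.Agent.LUC (Cl clF LUs)
open Pool.Agent.LU3 (Ctx2 RF2 E2r)
open Pool.Agent.D2 (Ctx0)

universe u

variable {k Ω : Type u} [Field k] [Field Ω] [Algebra k Ω] {v : RVal Ω}

/-- Henselizations and a homomorphism which multiplies the values by a constant. -/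
theorem hen_transfer (ψ : Ω →+* Ω) {c : ℝ} (hc : 0 < c)
    (hψ : ∀ x : Ω, x ≠ 0 → v (ψ x) = c * v x) {E E' : IntermediateField k Ω}
    (hE : ∀ a ∈ E, ψ a ∈ E') {a : Ω} (ha : a ∈ hen v E) : ψ a ∈ hen v E' := by
  rw [mem_hen] at ha ⊢
  refine ⟨fun N => ?_, ?_⟩
  · obtain ⟨a₀, h0, h1⟩ := ha.1 (N / c)
    refine ⟨ψ a₀, hE a₀ h0, ?_⟩
    rw [← map_sub]
    intro h2
    have h3 : a - a₀ ≠ 0 := by
      intro h4
      rw [h4, map_zero] at h2
      exact h2 rfl
    rw [hψ _ h3]
    have h4 := h1 h3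
    rw [div_le_iff₀ hc] at h4
    linarith
  · let φ : E →+* E' :=
      { toFun := fun x => ⟨ψ x, hE x x.2⟩
        map_one' := Subtype.ext (map_one ψ)
        map_mul' := fun x y => Subtype.ext (map_mul ψ _ _)
        map_zero' := Subtype.ext (map_zero ψ)
        map_add' := fun x y => Subtype.ext (map_add ψ _ _) }
    have hcomp : (algebraMap E' Ω).comp φ = ψ.comp (algebraMap E Ω) := rfl
    have h1 : aeval (ψ a) ((minpoly E a).map φ) = 0 := by
      rw [aeval_def, eval₂_map, hcomp, ← hom_eval₂, ← aeval_def, minpoly.aeval, map_zero]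
    have h2 : ((minpoly E a).map φ).Separable := Separable.map ha.2
    exact h2.of_dvd (minpoly.dvd E' (ψ a) h1)

section Frob

variable (p : ℕ) [Fact p.Prime] [CharP Ω p]

theorem frob_val (e : ℕ) (x : Ω) (hx : x ≠ 0) :
    v (iterateFrobenius Ω p e x) = ((p ^ e : ℕ) : ℝ) * v x := by
  rw [iterateFrobenius_def, v.map_pow hx]

/-- The field of the `p ^ e`-th powers and its henselization. -/
theorem hen_pow [IsAlgClosed Ω] (e : ℕ) {K K' : IntermediateField k Ω}
    (hK' : ∀ a : Ω, a ∈ K' ↔ ∃ b ∈ K, b ^ p ^ e = a) (a : Ω) :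
    a ∈ hen v K' ↔ ∃ b ∈ hen v K, b ^ p ^ e = a := by
  have hp : 0 < p ^ e := pow_pos (Fact.out : p.Prime).pos _
  have hp' : (0 : ℝ) < ((p ^ e : ℕ) : ℝ) := by exact_mod_cast hp
  have hinj : Function.Injective (iterateFrobenius Ω p e) := iterateFrobenius_inj Ω p e
  constructor
  · intro ha
    set ψ : Ω →+* Ω := ((iterateFrobeniusEquiv Ω p e).symm : Ω →+* Ω) with hψ
    have hψ1 : ∀ x : Ω, (ψ x) ^ p ^ e = x := by
      intro x
      exact (iterateFrobeniusEquiv Ω p e).apply_symm_apply x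
    refine ⟨ψ a, ?_, hψ1 a⟩
    refine hen_transfer (v := v) ψ (c := ((p ^ e : ℕ) : ℝ)⁻¹) (inv_pos.2 hp') ?_ (E := K') ?_ ha
    · intro x hx
      have h1 := hψ1 x
      have h2 : ψ x ≠ 0 := by
        intro h3
        rw [h3, zero_pow hp.ne'] at h1
        exact hx h1.symm
      have h3 := congrArg v h1
      rw [v.map_pow h2] at h3
      rw [← h3]
      field_simp
    · intro x hx
      obtain ⟨b, hb, hbx⟩ := (hK' x).1 hx
      have h1 : ψ x = b := hinj (by rw [iterateFrobenius_def, iterateFrobenius_def, hψ1, hbx])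
      rw [h1]
      exact hb
  · rintro ⟨b, hb, rfl⟩
    rw [← iterateFrobenius_def]
    exact hen_transfer (v := v) (iterateFrobenius Ω p e) hp' (fun x hx => frob_val p e x hx)
      (fun x hx => (hK' _).2 ⟨x, hx, (iterateFrobenius_def ..).symm⟩) hb

/-- The frame of the `p ^ e`-th powers. -/
theorem exists_frobFrame [IsAlgClosed Ω] [IsAlgClosed k] (e : ℕ) (F : RF2 k v) :
    ∃ F' : RF2 k v, ∀ a : Ω, a ∈ F'.K ↔ ∃ b ∈ F.K, b ^ p ^ e = a := by
  classical
  have hp : 0 < p ^ e := pow_pos (Fact.out : p.Prime).pos _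
  have hp' : (0 : ℝ) < ((p ^ e : ℕ) : ℝ) := by exact_mod_cast hp
  set q : ℝ := ((p ^ e : ℕ) : ℝ) with hq
  set m : ℝ →+ ℝ := AddMonoidHom.mulLeft q with hm
  have hmem : ∀ γ : ℝ, γ ∈ F.Γ.map m ↔ γ / q ∈ F.Γ := by
    intro γ
    constructor
    · rintro ⟨δ, hδ, rfl⟩
      have h1 : m δ / q = δ := by
        show q * δ / q = δ
        field_simp
      rw [h1]
      exact hδ
    · intro h1
      refine ⟨γ / q, h1, ?_⟩
      show q * (γ / q) = γ
      field_simp
  set χ' : ℝ → Ω := fun γ => F.χ (γ / q) ^ p ^ e with hχ'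
  set G : Set Ω := F.χ '' {γ | γ ∈ F.Γ} ∪ {F.y, F.z} with hG
  set G' : Set Ω := χ' '' {γ | γ ∈ F.Γ.map m} ∪ {F.y ^ p ^ e, F.z ^ p ^ e} with hG'
  have hGG : ∀ g ∈ G, g ^ p ^ e ∈ G' := by
    rintro g (⟨γ, hγ, rfl⟩ | hg)
    · left
      refine ⟨q * γ, ⟨γ, hγ, rfl⟩, ?_⟩
      show F.χ (q * γ / q) ^ p ^ e = _
      congr 2
      field_simp
    · right
      rcases hg with rfl | hg
      · exact Or.inl rfl
      · rw [Set.mem_singleton_iff] at hg
        rw [hg]
        exact Or.inr rfl
  have hGG' : ∀ g ∈ G', ∃ b ∈ G, b ^ p ^ e = g := by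
    rintro g (⟨γ, hγ, rfl⟩ | hg)
    · exact ⟨F.χ (γ / q), Or.inl ⟨γ / q, (hmem γ).1 hγ, rfl⟩, rfl⟩
    · rcases hg with rfl | hg
      · exact ⟨F.y, Or.inr (Or.inl rfl), rfl⟩
      · rw [Set.mem_singleton_iff] at hg
        exact ⟨F.z, Or.inr (Or.inr rfl), hg.symm⟩
  have hK1 : ∀ a ∈ F.K, a ^ p ^ e ∈ IntermediateField.adjoin k G' := by
    have h1 : F.K ≤ rootF p e (IntermediateField.adjoin k G') := by
      rw [RF2.K, IntermediateField.adjoin_le_iff]
      intro g hg
      exact IntermediateField.subset_adjoin _ _ (hGG g hg)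
    exact fun a ha => h1 ha
  have hK2 : ∀ a ∈ IntermediateField.adjoin k G', ∃ b ∈ F.K, b ^ p ^ e = a := by
    set N' : IntermediateField k Ω := (F.K.toSubfield.map
      (iterateFrobenius Ω p e)).toIntermediateField (fun c => by
        obtain ⟨c', hc'⟩ := IsAlgClosed.exists_pow_nat_eq c hp
        refine ⟨algebraMap k Ω c', F.K.algebraMap_mem c', ?_⟩
        rw [iterateFrobenius_def, ← map_pow, hc']) with hN'
    have h1 : IntermediateField.adjoin k G' ≤ N' := by
      rw [IntermediateField.adjoin_le_iff]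
      intro g hg
      obtain ⟨b, hb, hbg⟩ := hGG' g hg
      exact ⟨b, IntermediateField.subset_adjoin _ _ hb, by rw [iterateFrobenius_def, hbg]⟩
    intro a ha
    obtain ⟨b, hb, hba⟩ := h1 ha
    exact ⟨b, hb, by rw [← iterateFrobenius_def, hba]⟩
  refine ⟨{ Γ := F.Γ.map m, fg := ?_, full := ?_, χ := χ', χ_ne := ?_, χ_add := ?_, χ_val := ?_,
            y := F.y ^ p ^ e, y_ne := pow_ne_zero _ F.y_ne, y_pos := ?_,
            z := F.z ^ p ^ e, z_ne := pow_ne_zero _ F.z_ne, z_pos := ?_, alg := ?_ }, ?_⟩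
  · obtain ⟨S, hS⟩ := F.fg
    refine ⟨S.image m, ?_⟩
    rw [Finset.coe_image, ← AddMonoidHom.map_closure, hS]
  · intro g hg
    obtain ⟨n, hn, h1⟩ := F.full g hg
    refine ⟨p ^ e * n, Nat.mul_pos hp hn, ⟨_, h1, ?_⟩⟩
    show q * (n * v g) = _
    rw [hq]
    push_cast
    ring
  · exact fun γ hγ => pow_ne_zero _ (F.χ_ne _ ((hmem γ).1 hγ))
  · intro γ hγ δ hδ
    show F.χ ((γ + δ) / q) ^ p ^ e = F.χ (γ / q) ^ p ^ e * F.χ (δ / q) ^ p ^ e
    rw [add_div, F.χ_add _ ((hmem γ).1 hγ) _ ((hmem δ).1 hδ), mul_pow]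
  · intro γ hγ
    show v (F.χ (γ / q) ^ p ^ e) = γ
    rw [v.map_pow (F.χ_ne _ ((hmem γ).1 hγ)), F.χ_val _ ((hmem γ).1 hγ), ← hq]
    field_simp
  · rw [v.map_pow F.y_ne]
    exact mul_pos hp' F.y_pos
  · rw [v.map_pow F.z_ne]
    exact mul_pos hp' F.z_pos
  · intro g
    refine LU1.BaseG0.alg_down _ g ?_
    have h1 : IsAlgebraic F.K g :=
      IsAlgebraic.tower_top_of_subalgebra_le (B := F.K.toSubalgebra)
        (IntermediateField.algebra_adjoin_le_adjoin k _) (F.alg g)
    refine isAlgebraic_trans (fun a ha => ?_) h1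
    exact isAlgebraic_of_pow hp (isAlgebraic_of_mem (hK1 a ha))
  · intro a
    constructor
    · exact fun ha => hK2 a ha
    · rintro ⟨b, hb, rfl⟩
      exact hK1 b hb

/-- Frobenius: `E^(p^e)`. -/
theorem hrat_frob [IsAlgClosed Ω] [IsAlgClosed k] (p e : ℕ) [Fact p.Prime] [CharP k p]
    [CharP Ω p] (E E' : IntermediateField k Ω) (hE : HRat v E)
    (hE' : ∀ a : Ω, a ∈ E' ↔ ∃ b ∈ E, b ^ p ^ e = a) : HRat v E' := by
  obtain ⟨F, hF⟩ := hE
  obtain ⟨F', hF'⟩ := exists_frobFrame p e F
  refine ⟨F', ?_⟩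
  ext a
  rw [hen_pow p e hF' a, hen_pow p e hE' a, hF]

end Frob

/-- A field between a finitely generated field and a finite extension is finitely generated. -/
theorem fg_between {E₀ E' : IntermediateField k Ω} (h0 : E₀ ≤ E') (hE₀ : E₀.FG) (S : Finset Ω)
    (hS : ∀ s ∈ S, IsAlgebraic E₀ s)
    (hE : E' ≤ E₀ ⊔ IntermediateField.adjoin k (S : Set Ω)) : E'.FG := by
  classical
  set N : IntermediateField E₀ Ω := IntermediateField.adjoin E₀ (S : Set Ω) with hN
  have hfin : FiniteDimensional E₀ N :=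
    IntermediateField.finiteDimensional_adjoin fun x hx => (hS x hx).isIntegral
  have h1 : E₀ ⊔ IntermediateField.adjoin k (S : Set Ω) ≤ N.restrictScalars k := by
    refine sup_le ?_ ?_
    · intro a ha
      exact N.algebraMap_mem ⟨a, ha⟩
    · rw [IntermediateField.adjoin_le_iff]
      exact fun a ha => IntermediateField.subset_adjoin E₀ _ ha
  set E'' : IntermediateField E₀ Ω := IntermediateField.extendScalars h0 with hE''
  have h2 : E'' ≤ N := by
    intro a ha
    exact h1 (hE ((IntermediateField.mem_extendScalars h0).1 ha))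
  have hfin' : FiniteDimensional E₀ E'' :=
    FiniteDimensional.of_injective (IntermediateField.inclusion h2).toLinearMap
      (IntermediateField.inclusion h2).injective
  obtain ⟨T, hT⟩ : E''.FG := by
    refine IntermediateField.fg_of_fg_toSubalgebra _ ?_
    refine Subalgebra.fg_of_fg_toSubmodule ?_
    exact Module.Finite.iff_fg.1 hfin'
  obtain ⟨S₀, hS₀⟩ := hE₀
  refine ⟨S₀ ∪ T, le_antisymm ?_ ?_⟩
  · rw [IntermediateField.adjoin_le_iff, Finset.coe_union]
    rintro a (ha | ha)
    · refine h0 ?_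
      rw [← hS₀]
      exact IntermediateField.subset_adjoin _ _ ha
    · have h3 : a ∈ E'' := by
        rw [← hT]
        exact IntermediateField.subset_adjoin _ _ ha
      exact (IntermediateField.mem_extendScalars h0).1 h3
  · intro a ha
    have h3 : a ∈ IntermediateField.adjoin E₀ (T : Set Ω) := by
      rw [hT]
      exact (IntermediateField.mem_extendScalars h0).2 ha
    set M := IntermediateField.adjoin k (((S₀ ∪ T : Finset Ω)) : Set Ω) with hM
    have h4 : E₀ ≤ M := by
      rw [← hS₀, hM, Finset.coe_union]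
      exact IntermediateField.adjoin.mono _ _ _ Set.subset_union_left
    refine IntermediateField.adjoin_induction (p := fun x _ => x ∈ M) E₀ ?_ ?_ ?_ ?_ ?_ h3
    · intro x hx
      refine IntermediateField.subset_adjoin _ _ ?_
      rw [Finset.coe_union]
      exact Or.inr hx
    · intro x
      exact h4 x.2
    · rintro x y - - hx hy
      exact add_mem hx hy
    · rintro x - hx
      exact inv_mem hx
    · rintro x y - - hx hy
      exact mul_mem hx hy

theorem fg_adj {E : IntermediateField k Ω} (hE : E.FG) (g : Ω) : (adj E g).FG :=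
  IntermediateField.fg_sup hE (IntermediateField.fg_adjoin_of_finite (Set.finite_singleton g))

/-- Ascent through purely inseparable steps. -/
theorem hrat_root (p : ℕ) (hPI : PIstep p v k) (e : ℕ) :
    ∀ (B : IntermediateField k Ω), B.FG → (∀ g : Ω, IsAlgebraic B g) → HRat v B →
      ∀ s : Ω, s ^ p ^ e ∈ B → HRat v (adj B s) := by
  induction e with
  | zero =>
    intro B _ _ hB s hs
    rw [pow_zero, pow_one] at hs
    have h1 : adj B s = B := le_antisymm (adj_le le_rfl hs) (mem_adj_self B s).2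
    rw [h1]
    exact hB
  | succ e ih =>
    intro B hfg halg hB s hs
    have h1 : (s ^ p) ^ p ^ e ∈ B := by
      rw [← pow_mul, ← pow_succ']
      exact hs
    have h2 := ih B hfg halg hB (s ^ p) h1
    have h3 := hPI (adj B (s ^ p)) (fg_adj hfg _)
      (fun g => isAlgebraic_mono (mem_adj_self B (s ^ p)).2 (halg g)) h2 s
      (mem_adj_self B (s ^ p)).1
    have h4 : adj (adj B (s ^ p)) s = adj B s := by
      apply le_antisymm
      · refine adj_le (adj_le (mem_adj_self B s).2 ?_) (mem_adj_self B s).1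
        exact pow_mem (mem_adj_self B s).1 p
      · exact adj_le ((mem_adj_self B (s ^ p)).2.trans (mem_adj_self _ s).2) (mem_adj_self _ s).1
    rwa [h4] at h3

/-- Ascent through purely inseparable steps, finitely many elements. -/
theorem hrat_roots (p : ℕ) (hPI : PIstep p v k) (e : ℕ) (B : IntermediateField k Ω) (hB : B.FG)
    (halg : ∀ g : Ω, IsAlgebraic B g) (hr : HRat v B) (S : Finset Ω)
    (hS : ∀ s ∈ S, s ^ p ^ e ∈ B) :
    HRat v (B ⊔ IntermediateField.adjoin k (S : Set Ω)) := by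
  classical
  induction S using Finset.induction_on with
  | empty =>
    rw [Finset.coe_empty, IntermediateField.adjoin_empty, sup_bot_eq]
    exact hr
  | insert a S ha ih =>
    have h1 := ih fun s hs => hS s (Finset.mem_insert_of_mem hs)
    have h2 := hrat_root p hPI e (B ⊔ IntermediateField.adjoin k (S : Set Ω))
      (IntermediateField.fg_sup hB (IntermediateField.fg_adjoin_finset S))
      (fun g => isAlgebraic_mono le_sup_left (halg g)) h1 a
      ((le_sup_left : B ≤ _) (hS a (Finset.mem_insert_self a S)))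
    have h3 : adj (B ⊔ IntermediateField.adjoin k (S : Set Ω)) a =
        B ⊔ IntermediateField.adjoin k ((insert a S : Finset Ω) : Set Ω) := by
      rw [adj, sup_assoc, ← IntermediateField.adjoin_union, Finset.coe_insert,
        Set.union_singleton]
    rwa [h3] at h2

end Pool.Agent.D2P
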