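import Pool.Agent.Lib.D2.Ctx0
import Pool.Agent.Lib.LU3.Defs
import Pool.Agent.Lib.LUC.ClDefs
import Mathlib

/-!
# D2P (DefectTwo for every `p`), Part A: definitions

Everything happens in one algebraically closed field `Ω` with a real valuation `v`, trivial on the
algebraically closed field `k`, with residue field `k`. Fields are `IntermediateField k Ω`.
* `hen v E`: the henselization of `E` in `Ω`: the separable algebraic elements in the closure.
* `PB p v T`: `T` is perfect, henselian, and has all values of `Ω`.
* `TT v T z`: `z` is transcendental over `T` and of transcendental type: no algebraic element is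
  nearer to `z` than all elements of `T`.
* `HR1 v T M`: `M` is the henselization of `T(z)`, `z` transcendental over `T`.
* `HRat v E`: the henselization of `E` is the one of a rational frame.
-/

set_option autoImplicit false

open Polynomial

namespace Pool.Agent.D2P

open Pool.Agent.H15JM (RVal)
open Pool.Agent.LU1 (VPos adj)
open Pool.Agent.LUC (Cl clF)
open Pool.Agent.LU3 (Ctx2 RF2)
open Pool.Agent.D2 (Ctx0)

universe u

variable {k Ω : Type u} [Field k] [Field Ω] [Algebra k Ω]

/-- The closure of `E` for the valuation, as an intermediate field. -/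
def clI (v : RVal Ω) (E : IntermediateField k Ω) : IntermediateField k Ω :=
  (clF v E.toSubfield).toIntermediateField fun c => LUC.Cl.subset (E.algebraMap_mem c)

theorem mem_clI {v : RVal Ω} {E : IntermediateField k Ω} {a : Ω} :
    a ∈ clI v E ↔ a ∈ Cl v E.toSubfield := Iff.rfl

/-- The henselization of `E` in `Ω`. -/
noncomputable def hen (v : RVal Ω) (E : IntermediateField k Ω) : IntermediateField k Ω :=
  clI v E ⊓ (separableClosure E Ω).restrictScalars k

theorem mem_hen {v : RVal Ω} {E : IntermediateField k Ω} {a : Ω} :
    a ∈ hen v E ↔ a ∈ Cl v E.toSubfield ∧ IsSeparable E a := by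
  rw [hen, IntermediateField.mem_inf, mem_clI, IntermediateField.mem_restrictScalars,
    mem_separableClosure_iff]

/-- A perfect henselian field with all values of `Ω` (its residue field is `k`). -/
structure PB (p : ℕ) (v : RVal Ω) (T : IntermediateField k Ω) : Prop where
  perf : ∀ a ∈ T, ∃ b ∈ T, b ^ p = a
  hens : hen v T = T
  full : ∀ g : Ω, g ≠ 0 → ∃ c ∈ T, c ≠ 0 ∧ v c = v g

/-- `z` is transcendental over `T`, of transcendental type. -/
def TT (v : RVal Ω) (T : IntermediateField k Ω) (z : Ω) : Prop :=
  Transcendental T z ∧ ∀ θ : Ω, IsAlgebraic T θ → ∃ c ∈ T, v (z - θ) < v (z - c)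

/-- `s` is the distance of `z` from `T` (finite case). -/
def DistIs (v : RVal Ω) (T : IntermediateField k Ω) (z : Ω) (s : ℝ) : Prop :=
  IsLUB {a : ℝ | ∃ c ∈ T, a = v (z - c)} s

/-- `M` is the henselization of a field generated over `T` by one transcendental element. -/
def HR1 (v : RVal Ω) (T M : IntermediateField k Ω) : Prop :=
  ∃ z : Ω, Transcendental T z ∧ M = hen v (adj T z)

/-- `E` and the field of a rational frame have the same henselization. -/
def HRat (v : RVal Ω) (E : IntermediateField k Ω) : Prop :=
  ∃ F : RF2 k v, hen v F.K = hen v E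

/-- The elements with a `p ^ e`-th power in `E`. -/
noncomputable def rootF (p e : ℕ) [Fact p.Prime] [CharP Ω p] (E : IntermediateField k Ω) :
    IntermediateField k Ω :=
  (E.toSubfield.comap (iterateFrobenius Ω p e)).toIntermediateField fun c => by
    show iterateFrobenius Ω p e (algebraMap k Ω c) ∈ E
    rw [iterateFrobenius_def, ← map_pow]
    exact E.algebraMap_mem _

theorem mem_rootF {p e : ℕ} [Fact p.Prime] [CharP Ω p] {E : IntermediateField k Ω} {a : Ω} :
    a ∈ rootF p e E ↔ a ^ p ^ e ∈ E := Iff.rfl

/-- The purely inseparable step for all function fields of the setting. -/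
def PIstep (p : ℕ) (v : RVal Ω) (k : Type u) [Field k] [Algebra k Ω] : Prop :=
  ∀ E : IntermediateField k Ω, E.FG → (∀ g : Ω, IsAlgebraic E g) → HRat v E →
    ∀ g : Ω, g ^ p ∈ E → HRat v (adj E g)

theorem charP_field (p : ℕ) [CharP k p] (T : IntermediateField k Ω) : CharP T p :=
  charP_of_injective_algebraMap (algebraMap k T).injective p

theorem charP_big (p : ℕ) [CharP k p] : CharP Ω p :=
  charP_of_injective_algebraMap (algebraMap k Ω).injective p

theorem PB.perfectRing {p : ℕ} [Fact p.Prime] {v : RVal Ω} {T : IntermediateField k Ω}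
    [CharP T p] (h : PB p v T) : PerfectRing T p := by
  refine PerfectRing.ofSurjective T p fun a => ?_
  obtain ⟨b, hb, hba⟩ := h.perf a a.2
  exact ⟨⟨b, hb⟩, Subtype.ext hba⟩

end Pool.Agent.D2P
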