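import Pool.Agent.Lib.D2P.TTP

/-!
# D2P, rows G1, G2: common lemmas on generators
-/

set_option autoImplicit false

open Polynomial

namespace Pool.Agent.D2P

open Pool.Agent.H15JM (RVal)
open Pool.Agent.LU1 (VPos adj)
open Pool.Agent.LUC (Cl clF)
open Pool.Agent.D2 (Ctx0)

universe u

variable {k Ω : Type u} [Field k] [Field Ω] [Algebra k Ω] {v : RVal Ω}

/-- polynomials are continuous -/
theorem eval_cont (v : RVal Ω) (P : Polynomial Ω) (g : Ω) (N : ℝ) :
    ∃ N' : ℝ, ∀ y : Ω, v.Ge N' (y - g) → v.Ge N (P.eval y - P.eval g) := by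
  classical
  set b : ℕ → Ω := fun i => (taylor g P).coeff i with hb
  set N' : ℝ := ∑ i ∈ Finset.range (P.natDegree + 1), |N - v (b i)| with hN'
  have h0 : 0 ≤ N' := Finset.sum_nonneg fun i _ => abs_nonneg _
  refine ⟨N', fun y hy => ?_⟩
  have h1 : P.eval y = ∑ i ∈ Finset.range (P.natDegree + 1), b i * (y - g) ^ i := by
    have h2 : P.eval y = (taylor g P).eval (y - g) := by
      rw [taylor_eval, sub_add_cancel]
    rw [h2]
    exact eval_eq_sum_range' (by rw [natDegree_taylor]; exact Nat.lt_succ_self _) _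
  have h2 : P.eval y - P.eval g = ∑ i ∈ Finset.Ico 1 (P.natDegree + 1), b i * (y - g) ^ i := by
    rw [h1, Finset.range_eq_Ico, Finset.sum_eq_sum_Ico_succ_bot (Nat.succ_pos _)]
    simp only [hb, taylor_coeff_zero, pow_zero, mul_one]
    ring
  rw [h2]
  refine RVal.Ge.sum _ _ fun i hi => ?_
  intro hne
  have h3 : b i ≠ 0 := left_ne_zero_of_mul hne
  have h4 : (y - g) ^ i ≠ 0 := right_ne_zero_of_mul hne
  have hi1 := Finset.mem_Ico.1 hi
  have h5 : y - g ≠ 0 := by
    intro h6
    rw [h6, zero_pow (by omega)] at h4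
    exact h4 rfl
  rw [v.map_mul h3 h4, v.map_pow h5]
  have h6 : N' ≤ v (y - g) := hy h5
  have h7 : |N - v (b i)| ≤ N' :=
    Finset.single_le_sum (f := fun i => |N - v (b i)|) (fun i _ => abs_nonneg _)
      (Finset.mem_range.2 hi1.2)
  have h8 : N - v (b i) ≤ |N - v (b i)| := le_abs_self _
  have h9 : (1 : ℝ) ≤ i := by exact_mod_cast hi1.1
  nlinarith

theorem aeval_cont (v : RVal Ω) {T : IntermediateField k Ω} (P : T[X]) (g : Ω) (N : ℝ) :
    ∃ N' : ℝ, ∀ y : Ω, v.Ge N' (y - g) → v.Ge N (aeval y P - aeval g P) := by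
  obtain ⟨N', h⟩ := eval_cont v (P.map (algebraMap T Ω)) g N
  refine ⟨N', fun y hy => ?_⟩
  have := h y hy
  rwa [eval_map_algebraMap, eval_map_algebraMap] at this

/-- The distance of `g` bounds the values of the derivatives of a polynomial near to `g`. -/
theorem TT.coeff_ge_dist [IsAlgClosed Ω] {T : IntermediateField k Ω} {z g : Ω} (h : TT v T z)
    {s s' : ℝ} (hs : DistIs v T z s) (hs' : DistIs v T g s') (G : T[X]) {N : ℝ} (hN : s' ≤ N)
    (hG : v.Ge N (g - aeval z G)) (i : ℕ) (hi : 0 < i) (hi0 : hasseDeriv i G ≠ 0) :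
    s' ≤ v (aeval z (hasseDeriv i G)) + i * s := by
  refine le_of_forall_pos_le_add fun ε hε => ?_
  have h1 : ∃ d ∈ T, s' - ε < v (g - d) := by
    by_contra hcon
    push Not at hcon
    have h2 : s' ≤ s' - ε := hs'.2 (by
      rintro a ⟨d, hd, rfl⟩
      exact hcon d hd)
    linarith
  obtain ⟨d, hd, h2⟩ := h1
  have h3 : hasseDeriv i (G - C (⟨d, hd⟩ : T)) = hasseDeriv i G := by
    rw [map_sub, hasseDeriv_C _ _ hi, sub_zero]
  have h4 : v.Ge (s' - ε) (aeval z (G - C (⟨d, hd⟩ : T))) := by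
    have h5 : aeval z (G - C (⟨d, hd⟩ : T)) = (g - d) - (g - aeval z G) := by
      rw [map_sub, aeval_C]
      show _ - d = _
      ring
    rw [h5]
    refine RVal.Ge.sub (fun _ => h2.le) (hG.mono (by linarith))
  have h6 := h.coeff_ge hs (G - C (⟨d, hd⟩ : T)) (s' - ε) h4 i hi (by rwa [h3])
  rw [h3] at h6
  linarith

/-- clearing denominators -/
theorem exists_clear {T : IntermediateField k Ω} {z : Ω} (m : (adj T z)[X]) :
    ∃ D : T[X], aeval z D ≠ 0 ∧ ∃ P : T[X][X],
      P.map (aeval z : T[X] →ₐ[T] Ω).toRingHom =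
        C (aeval z D) * m.map (algebraMap (adj T z) Ω) := by
  induction m using Polynomial.induction_on' with
  | add m₁ m₂ h₁ h₂ =>
    obtain ⟨D₁, hD₁, P₁, hP₁⟩ := h₁
    obtain ⟨D₂, hD₂, P₂, hP₂⟩ := h₂
    refine ⟨D₁ * D₂, by rw [map_mul]; exact mul_ne_zero hD₁ hD₂, C D₂ * P₁ + C D₁ * P₂, ?_⟩
    rw [Polynomial.map_add, Polynomial.map_mul, Polynomial.map_mul, hP₁, hP₂, map_C, map_C,
      Polynomial.map_add, map_mul]
    simp only [AlgHom.toRingHom_eq_coe, RingHom.coe_coe, map_mul]
    ring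
  | monomial n a =>
    obtain ⟨P, Q, h⟩ := mem_adj_frac a.2
    by_cases hQ : aeval z Q = 0
    · refine ⟨1, by rw [map_one]; exact one_ne_zero, 0, ?_⟩
      have ha : a = 0 := by
        apply Subtype.ext
        rw [h, hQ, div_zero]
        rfl
      rw [ha]
      simp
    · refine ⟨Q, hQ, monomial n P, ?_⟩
      rw [map_monomial, map_monomial, C_mul_monomial]
      congr 1
      show aeval z P = aeval z Q * (a : Ω)
      rw [h]
      field_simp

/-- the chain rule, with the partial derivative in the first variable -/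
theorem exists_partial {T F : IntermediateField k Ω} (hTF : T ≤ F) (g : F) (P : T[X][X]) :
    ∃ P₁ : T[X][X], (∀ G : T[X], derivative (P.eval G) =
        P₁.eval G + (derivative P).eval G * derivative G) ∧
      derivative (P.eval₂ (mapRingHom (IntermediateField.inclusion hTF).toRingHom) (C g)) =
        P₁.eval₂ (mapRingHom (IntermediateField.inclusion hTF).toRingHom) (C g) := by
  induction P using Polynomial.induction_on' with
  | add P Q hP hQ =>
    obtain ⟨P₁, h1, h2⟩ := hP
    obtain ⟨Q₁, h3, h4⟩ := hQ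
    refine ⟨P₁ + Q₁, fun G => ?_, ?_⟩
    · rw [eval_add, map_add, h1, h3, eval_add, map_add, eval_add]
      ring
    · rw [eval₂_add, map_add, h2, h4, eval₂_add]
  | monomial n a =>
    refine ⟨monomial n (derivative a), fun G => ?_, ?_⟩
    · rw [eval_monomial, eval_monomial, derivative_monomial, eval_monomial, derivative_mul,
        derivative_pow]
      simp only [map_natCast]
      ring
    · rw [eval₂_monomial, eval₂_monomial, ← map_pow, derivative_mul, derivative_C, mul_zero,
        add_zero]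
      congr 1
      simp only [coe_mapRingHom, derivative_map]

theorem near_val {x y : Ω} (hx : x ≠ 0) {c : ℝ} (hc : v x < c) (h : v.Ge c (y - x)) :
    y ≠ 0 ∧ v y = v x := by
  by_cases h0 : y - x = 0
  · rw [sub_eq_zero] at h0
    rw [h0]
    exact ⟨hx, rfl⟩
  · have h1 := v.add_of_lt hx h0 (hc.trans_le (h h0))
    rwa [add_sub_cancel] at h1

/-- If `g` is separable over `T(z)` and near to polynomials in `z` with a derivative of value
`0`, then `z` is separable over `T(g)`. -/
theorem TT.sep_of [IsAlgClosed Ω] {T : IntermediateField k Ω} {z g : Ω} (h : TT v T z) {s : ℝ}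
    (hs : DistIs v T z s) (hg : IsSeparable (adj T z) g)
    (happ : ∀ N : ℝ, ∃ G : T[X], v.Ge N (g - aeval z G) ∧ aeval z (derivative G) ≠ 0 ∧
      v (aeval z (derivative G)) = 0) : IsSeparable (adj T g) z := by
  classical
  have hint : IsIntegral (adj T z) g := hg.isIntegral
  set m := minpoly (adj T z) g with hm
  have hm0 : aeval g m = 0 := minpoly.aeval _ _
  have hm1 : aeval g (derivative m) ≠ 0 := Separable.aeval_derivative_ne_zero hg hm0
  obtain ⟨D, hD, P, hP⟩ := exists_clear m
  set f : T[X] →+* Ω := (aeval z : T[X] →ₐ[T] Ω).toRingHom with hf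
  have hfa : ∀ R : T[X], f R = aeval z R := fun R => rfl
  have hP0 : (P.map f).eval g = 0 := by
    rw [hP, eval_mul, eval_map_algebraMap, hm0, mul_zero]
  have hP1 : (derivative (P.map f)).eval g ≠ 0 := by
    rw [hP, derivative_C_mul, eval_mul, eval_C, derivative_map, eval_map_algebraMap]
    exact mul_ne_zero hD hm1
  have hTF : T ≤ adj T g := le_sup_left
  have hgF : g ∈ adj T g := LU1.mem_adj T g
  obtain ⟨P₁, hc1, hc2⟩ := exists_partial hTF ⟨g, hgF⟩ P
  set φ : T[X] →+* (adj T g)[X] := mapRingHom (IntermediateField.inclusion hTF).toRingHom with hφ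
  have hcomp : ((aeval z : (adj T g)[X] →ₐ[adj T g] Ω) : (adj T g)[X] →+* Ω).comp φ = f := by
    refine Polynomial.ringHom_ext (fun a => ?_) ?_
    · rw [RingHom.comp_apply, hφ, coe_mapRingHom, map_C]
      show aeval z (C _) = aeval z (C a)
      rw [aeval_C, aeval_C]
      rfl
    · rw [RingHom.comp_apply, hφ, coe_mapRingHom, map_X]
      show aeval z X = aeval z X
      rw [aeval_X, aeval_X]
  have hev : ∀ R : T[X][X], aeval z (R.eval₂ φ (C (⟨g, hgF⟩ : adj T g))) = (R.map f).eval g := by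
    intro R
    have h1 := hom_eval₂ R φ ((aeval z : (adj T g)[X] →ₐ[adj T g] Ω) : (adj T g)[X] →+* Ω)
      (C (⟨g, hgF⟩ : adj T g))
    rw [hcomp] at h1
    rw [eval_map]
    refine Eq.trans h1 ?_
    congr 1
    show aeval z (C (⟨g, hgF⟩ : adj T g)) = g
    rw [aeval_C]
    rfl
  -- the polynomial `P(Z, g)`
  set Q : (adj T g)[X] := P.eval₂ φ (C (⟨g, hgF⟩ : adj T g)) with hQ
  have hQ0 : aeval z Q = 0 := by rw [hQ, hev, hP0]
  have hQ1 : aeval z (derivative Q) ≠ 0 := by
    rw [hQ, hc2, hev]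
    intro hz0
    set κ := v ((derivative (P.map f)).eval g) with hκ
    obtain ⟨N₁, hN₁⟩ := eval_cont v (P.map f) g (κ + 1 + s)
    obtain ⟨N₂, hN₂⟩ := eval_cont v (P₁.map f) g (κ + 1)
    obtain ⟨N₃, hN₃⟩ := eval_cont v (derivative (P.map f)) g (κ + 1)
    obtain ⟨G, hG, hG0, hG1⟩ := happ (max N₁ (max N₂ N₃))
    have hy : v.Ge (max N₁ (max N₂ N₃)) (aeval z G - g) := by
      rw [← neg_sub]
      exact hG.neg
    have h1 := hN₁ _ (hy.mono (le_max_left _ _))
    have h2 := hN₂ _ (hy.mono ((le_max_left _ _).trans (le_max_right _ _)))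
    have h3 := hN₃ _ (hy.mono ((le_max_right _ _).trans (le_max_right _ _)))
    rw [hP0, sub_zero] at h1
    rw [hz0, sub_zero] at h2
    have h4 : ∀ R : T[X][X], aeval z (R.eval G) = (R.map f).eval (aeval z G) := by
      intro R
      rw [eval_map, ← hfa, ← hfa, eval₂_at_apply]
    rw [← h4] at h1 h2
    have h5 : v.Ge (κ + 1) (aeval z (derivative (P.eval G))) := by
      intro h6
      have h7 : hasseDeriv 1 (P.eval G) ≠ 0 := by
        intro h8
        rw [← hasseDeriv_one', h8, map_zero] at h6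
        exact h6 rfl
      have h9 := h.coeff_ge hs (P.eval G) _ h1 1 one_pos h7
      rw [hasseDeriv_one'] at h9
      push_cast at h9
      linarith
    rw [hc1, map_add, map_mul] at h5
    have h6 : v.Ge (κ + 1) (aeval z ((derivative P).eval G) * aeval z (derivative G)) := by
      have := h5.sub h2
      rwa [add_sub_cancel_left] at this
    have h7 := near_val hP1 (lt_add_one κ) h3
    rw [derivative_map, ← h4] at h7
    have h8 := h6 (mul_ne_zero h7.1 hG0)
    rw [v.map_mul h7.1 hG0, hG1, h7.2] at h8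
    rw [derivative_map] at hκ
    linarith
  -- conclusion
  have hQne : Q ≠ 0 := by
    intro h0
    rw [h0] at hQ1
    simp at hQ1
  have hzi : IsIntegral (adj T g) z := (isAlgebraic_iff_isIntegral).1 ⟨Q, hQne, hQ0⟩
  obtain ⟨R, hR⟩ := minpoly.dvd (adj T g) z hQ0
  have h1 : aeval z (derivative (minpoly (adj T g) z)) ≠ 0 := by
    intro h2
    rw [hR, derivative_mul, map_add, map_mul, map_mul, h2, minpoly.aeval, zero_mul, zero_mul,
      add_zero] at hQ1
    exact hQ1 rfl
  rw [IsSeparable, separable_iff_derivative_ne_zero (minpoly.irreducible hzi)]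
  intro h2
  rw [h2, map_zero] at h1
  exact h1 rfl

end Pool.Agent.D2P
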