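import Pool.Agent.Lib.D2P.R0
import Pool.Agent.Lib.D2.TM1
import Pool.Agent.Lib.LU1_h15.GalSep

/-! # D2P, R1: towers of Artin-Schreier steps over a henselian field with all values -/

set_option autoImplicit false

open Polynomial

namespace Pool.Agent.D2P

open Pool.Agent.H15JM (RVal)
open Pool.Agent.LU1 (VPos adj fixO mem_fixO decG exists_moved fix_b fixO_eq_adj mem_fixO_of
  fixO_top exists_fixO_eq)
open Pool.Agent.LUC (Cl clF)
open Pool.Agent.D2 (Ctx0)

universe u

variable {k Ω : Type u} [Field k] [Field Ω] [Algebra k Ω] {v : RVal Ω}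

/-- The Artin-Schreier generator of a normal step of index `p`. -/
theorem as_gen (p : ℕ) (hp : p.Prime) [CharP k p]
    (F : IntermediateField k Ω) (N : IntermediateField F Ω) [FiniteDimensional F N]
    [IsGalois F N] (A B : Subgroup (N ≃ₐ[F] N))
    (hAB : A ≤ B) (hn : ∀ b ∈ B, ∀ x ∈ A, b * x * b⁻¹ ∈ A) (hi : A.relIndex B = p) :
    ∃ η : Ω, η ^ p - η ∈ fixO F N B ∧ η ∉ fixO F N B ∧ fixO F N A = adj (fixO F N B) η := by
  obtain ⟨b, hb, hbA, hconj, hgen, θ, hθ, hbθ⟩ := exists_moved F N A B p hp hn hi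
  have : Fact p.Prime := ⟨hp⟩
  have hkF : CharP F p := charP_of_injective_algebraMap (algebraMap k F).injective p
  have hkN : CharP N p := charP_of_injective_algebraMap (algebraMap F N).injective p
  let D : Module.End F N := (b : N →ₗ[F] N) - 1
  have hDp : D ^ p = (b : N →ₗ[F] N) ^ p - 1 := by
    have hc : CharP (Module.End F N) p :=
      charP_of_injective_algebraMap (algebraMap F (Module.End F N)).injective p
    have := sub_pow_char_of_commute (p := p) (Commute.one_right (b : N →ₗ[F] N))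
    rw [one_pow] at this
    exact this
  have hpow : ∀ (i : ℕ) (x : N), ((b : N →ₗ[F] N) ^ i) x = (b ^ i) x := by
    intro i
    induction i with
    | zero => intro x; rfl
    | succ i ih =>
      intro x
      rw [pow_succ', pow_succ', Module.End.mul_apply, ih, AlgEquiv.mul_apply]
      rfl
  have hDA : ∀ i : ℕ, ∀ a ∈ A, a ((D ^ i) θ) = (D ^ i) θ := by
    intro i
    induction i with
    | zero => exact hθ
    | succ i ih =>
      intro a ha
      rw [pow_succ', Module.End.mul_apply]
      show a (b ((D ^ i) θ) - (D ^ i) θ) = b ((D ^ i) θ) - (D ^ i) θ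
      rw [map_sub, fix_b hconj ih a ha, ih a ha]
  have hDp0 : (D ^ p) θ = 0 := by
    rw [hDp, LinearMap.sub_apply, hpow, hθ _ hbA, Module.End.one_apply, sub_self]
  have hex : ∃ M, (D ^ M) θ = 0 := ⟨p, hDp0⟩
  classical
  have hM0 : Nat.find hex ≠ 0 := by
    intro h0
    have h1 := Nat.find_spec hex
    rw [h0, pow_zero, Module.End.one_apply] at h1
    rw [h1, map_zero] at hbθ
    exact hbθ rfl
  have hM1 : Nat.find hex ≠ 1 := by
    intro h0
    have h1 := Nat.find_spec hex
    rw [h0, pow_one] at h1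
    exact hbθ (sub_eq_zero.1 h1)
  obtain ⟨m, hm⟩ : ∃ m, Nat.find hex = m + 2 := ⟨Nat.find hex - 2, by omega⟩
  have h1 : (D ^ (m + 2)) θ = 0 := hm ▸ Nat.find_spec hex
  have h2 : (D ^ (m + 1)) θ ≠ 0 := Nat.find_min hex (by omega)
  set a := (D ^ (m + 1)) θ with ha
  set c := (D ^ m) θ with hc
  have hbc : b c = c + a := by
    rw [ha, pow_succ', Module.End.mul_apply, ← hc]
    show b c = c + (b c - c)
    ring
  have hba : b a = a := by
    rw [pow_succ', Module.End.mul_apply, ← ha] at h1
    exact sub_eq_zero.1 h1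
  have hbz : b (c / a) = c / a + 1 := by
    rw [map_div₀, hbc, hba, add_div, div_self h2]
  have hzA : ∀ σ ∈ A, σ (c / a) = c / a := by
    intro σ hσ
    rw [map_div₀, hDA _ σ hσ, hDA _ σ hσ]
  have hne : b (c / a) ≠ c / a := by
    rw [hbz]
    simp
  refine ⟨((c / a : N) : Ω), ?_, ?_, ?_⟩
  · have h3 : (((c / a) ^ p - c / a : N) : Ω) ∈ fixO F N B := by
      refine mem_fixO_of hgen (fun σ hσ => by rw [map_sub, map_pow, hzA σ hσ]) ?_
      rw [map_sub, map_pow, hbz, add_pow_char, one_pow]
      ring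
    simpa using h3
  · intro h3
    obtain ⟨n, hn1, hn2⟩ := (mem_fixO F N B _).1 h3
    have h4 : n = c / a := Subtype.ext hn1
    exact hne (by rw [← h4]; exact hn2 b hb)
  · exact fixO_eq_adj F N A B p hp hAB hi (c / a) hzA b hb hne

/-- The Galois closure of a finite separable extension in an algebraically closed field. -/
theorem exists_galois [IsAlgClosed Ω] (F : IntermediateField k Ω)
    (S : Finset Ω) (hsep : ∀ g ∈ S, IsSeparable F g) :
    ∃ N : IntermediateField F Ω, FiniteDimensional F N ∧ IsGalois F N ∧ ∀ g ∈ S, g ∈ N := by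
  classical
  have hint : ∀ g ∈ S, IsIntegral F g := fun g hg => (hsep g hg).isIntegral
  let L : IntermediateField F Ω := IntermediateField.adjoin F (S : Set Ω)
  have hfin : FiniteDimensional F L :=
    IntermediateField.finiteDimensional_adjoin (fun g hg => hint g hg)
  have hs : Algebra.IsSeparable F L := by
    rw [IntermediateField.isSeparable_adjoin_iff_isSeparable]
    exact fun g hg => hsep g hg
  let N : IntermediateField F Ω := IntermediateField.normalClosure F L Ω
  have hN : FiniteDimensional F N := normalClosure.is_finiteDimensional F L Ω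
  have hn : Normal F N := by
    have hal : Algebra.IsAlgebraic F L := Algebra.IsAlgebraic.of_finite F L
    exact (hal.isNormalClosure_normalClosure (L := Ω) (fun x => IsAlgClosed.splits _)).normal
  have hsN : Algebra.IsSeparable F N := by
    rw [← le_separableClosure_iff]
    refine normalClosure_le_iff.2 fun i => ?_
    have : Algebra.IsSeparable F i.fieldRange :=
      AlgEquiv.Algebra.isSeparable (AlgEquiv.ofInjectiveField i)
    exact le_separableClosure F Ω _
  refine ⟨N, hN, ⟨⟩, fun g hg => ?_⟩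
  exact IntermediateField.le_normalClosure L (IntermediateField.subset_adjoin _ _ hg)

/-- The fixed fields are generated by finitely many separable elements. -/
theorem fixO_eq_sup (F : IntermediateField k Ω) (N : IntermediateField F Ω)
    [FiniteDimensional F N] [IsGalois F N] (A : Subgroup (N ≃ₐ[F] N)) :
    ∃ S : Finset Ω, (∀ s ∈ S, IsSeparable F s) ∧
      fixO F N A = F ⊔ IntermediateField.adjoin k (S : Set Ω) := by
  classical
  let K : IntermediateField F N := IntermediateField.fixedField A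
  have hfree : Module.Free F K := Module.Free.of_divisionRing F K
  have hfinK : Module.Finite F K := inferInstance
  let bs := Module.finBasis F K
  have hsepN : ∀ n : N, IsSeparable F (n : Ω) := by
    intro n
    have h1 : IsSeparable F n := Algebra.IsSeparable.isSeparable F n
    rw [IsSeparable] at h1 ⊢
    have h2 : minpoly F (n : Ω) = minpoly F n := minpoly.algebraMap_eq (A := F)
      (B := N) (B' := Ω) Subtype.val_injective n
    rw [h2]
    exact h1
  refine ⟨Finset.univ.image fun i => (((bs i : K) : N) : Ω), ?_, ?_⟩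
  · intro s hs
    rw [Finset.mem_image] at hs
    obtain ⟨i, -, rfl⟩ := hs
    exact hsepN _
  · apply le_antisymm
    · intro g hg
      obtain ⟨n, rfl, hn⟩ := (mem_fixO F N A g).1 hg
      have hnK : n ∈ K := by
        rw [IntermediateField.mem_fixedField_iff]
        exact hn
      have h1 := bs.sum_repr ⟨n, hnK⟩
      have h2 : (n : Ω) = ∑ i, ((bs.repr ⟨n, hnK⟩ i : F) : Ω) * (((bs i : K) : N) : Ω) := by
        have h3 := congrArg (fun z : K => ((z : N) : Ω)) h1
        have h4 : (((∑ i, bs.repr ⟨n, hnK⟩ i • bs i : K) : N) : Ω) =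
            ∑ i, ((bs.repr ⟨n, hnK⟩ i : F) : Ω) * (((bs i : K) : N) : Ω) := by
          have h5 : ((∑ i, bs.repr ⟨n, hnK⟩ i • bs i : K) : N) =
              ∑ i, ((bs.repr ⟨n, hnK⟩ i • bs i : K) : N) := map_sum K.val _ _
          rw [h5]
          have h6 : ((∑ i, ((bs.repr ⟨n, hnK⟩ i • bs i : K) : N) : N) : Ω) =
              ∑ i, (((bs.repr ⟨n, hnK⟩ i • bs i : K) : N) : Ω) := map_sum N.val _ _
          rw [h6]
          rfl
        exact h3.symm.trans h4
      rw [h2]
      refine sum_mem fun i _ => mul_mem ?_ ?_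
      · exact (le_sup_left : F ≤ _) (bs.repr ⟨n, hnK⟩ i).2
      · refine (le_sup_right : IntermediateField.adjoin k _ ≤ _) ?_
        refine IntermediateField.subset_adjoin _ _ ?_
        rw [Finset.mem_coe]
        exact Finset.mem_image_of_mem _ (Finset.mem_univ i)
    · refine sup_le ?_ ?_
      · intro x hx
        exact (mem_fixO F N A x).2 ⟨algebraMap F N ⟨x, hx⟩, rfl, fun σ _ => σ.commutes _⟩
      · rw [IntermediateField.adjoin_le_iff]
        intro x hx
        rw [Finset.mem_coe, Finset.mem_image] at hx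
        obtain ⟨i, -, rfl⟩ := hx
        refine (mem_fixO F N A _).2 ⟨((bs i : K) : N), rfl, fun σ hσ => ?_⟩
        exact (bs i).2 ⟨σ, hσ⟩

/-- Over a henselian field with all values the Galois groups are `p`-groups. -/
theorem pgroup [IsAlgClosed Ω] [IsAlgClosed k] (p : ℕ) (hp : p.Prime) [CharP k p]
    (h : Ctx0 k v) (M : IntermediateField k Ω) (hM : hen v M = M)
    (hfull : ∀ g : Ω, g ≠ 0 → ∃ c ∈ M, c ≠ 0 ∧ v c = v g)
    (N : IntermediateField M Ω) [FiniteDimensional M N] [IsGalois M N] (x : N ≃ₐ[M] N) :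
    ∃ n : ℕ, x ^ p ^ n = 1 := by
  -- the decomposition group is everything
  have hdec : ∀ σ : N ≃ₐ[M] N, σ ∈ decG v M N := by
    intro σ n
    have hmin : minpoly M (n : Ω) = minpoly M n := minpoly.algebraMap_eq (A := M)
      (B := N) (B' := Ω) Subtype.val_injective n
    refine val_root h hM ?_ ?_
    · exact (Algebra.IsAlgebraic.isAlgebraic (R := M) n).algebraMap
    · rw [hmin]
      have h1 : aeval (σ n) (minpoly M n) = 0 := by
        rw [← AlgEquiv.coe_toAlgHom, Polynomial.aeval_algHom_apply, minpoly.aeval, map_zero]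
      have h2 := Polynomial.aeval_algebraMap_apply Ω (σ n) (minpoly M n)
      rw [h1, map_zero] at h2
      exact h2
  -- the character is trivial
  have hchi : ∀ σ : N ≃ₐ[M] N, D2.GalRam.chi h M N ⟨σ, hdec σ⟩ = 1 := by
    intro σ
    funext n
    obtain ⟨c, hcM, hc0, hcv⟩ := hfull (n.1 : Ω) (D2.GalRam.coe_ne n.2)
    let c' : N := algebraMap M N ⟨c, hcM⟩
    have hc' : ((c' : N) : Ω) = c := rfl
    have hc'0 : c' ≠ 0 := by
      intro h0
      apply hc0
      rw [← hc', h0]
      rfl
    let w : N := n.1 / c'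
    have hw0 : w ≠ 0 := div_ne_zero n.2 hc'0
    have hw : ((w : N) : Ω) = (n.1 : Ω) / c := rfl
    have hwv : v (w : Ω) = 0 := by
      rw [hw, v.map_div (D2.GalRam.coe_ne n.2) hc0, hcv, sub_self]
    have hwge : v.Ge 0 (w : Ω) := fun _ => by rw [hwv]
    have h1 := D2.GalRam.inert h (hdec σ) hwge
    show D2.GalRam.rs v k (((σ n.1 : N) : Ω) / (n.1 : Ω)) = 1
    refine D2.GalRam.rs_eq h (D2.GalRam.quot_ge (hdec σ) n.2) ?_
    have h2 : ((σ n.1 : N) : Ω) = ((σ w : N) : Ω) * c := by
      have h3 : n.1 = w * c' := (div_mul_cancel₀ _ hc'0).symm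
      have h4 : σ c' = c' := σ.commutes _
      rw [h3, map_mul, h4]
      rfl
    have h3 : (n.1 : Ω) = (w : Ω) * c := by
      rw [hw, div_mul_cancel₀ _ hc0]
    have hwne : (w : Ω) ≠ 0 := D2.GalRam.coe_ne hw0
    have h4 : ((σ n.1 : N) : Ω) / (n.1 : Ω) - algebraMap k Ω 1 =
        (((σ w : N) : Ω) - w) * (w : Ω)⁻¹ := by
      rw [h2, h3, mul_div_mul_right _ _ hc0, _root_.map_one, sub_mul, mul_inv_cancel₀ hwne,
        div_eq_mul_inv]
    rw [h4]
    refine h1.mul ?_
    intro _
    rw [v.map_inv hwne, hwv, neg_zero]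
  have hfin : IsOfFinOrder x := isOfFinOrder_of_finite x
  have hm : orderOf x ≠ 0 := (orderOf_pos_iff.2 hfin).ne'
  obtain ⟨e, n', hn', hmn⟩ := Nat.exists_eq_pow_mul_and_not_dvd hm p hp.ne_one
  refine ⟨e, ?_⟩
  refine D2.GalRam.tame_trivial p h (hdec _) (hchi _) n' hn' ?_
  rw [← pow_mul, ← hmn]
  exact pow_orderOf_eq_one x

/-- Over a henselian field with all values of `Ω` (and residue field `k`) every finite separable
extension is a tower of Artin-Schreier steps. -/
theorem as_induction [IsAlgClosed Ω] [IsAlgClosed k] (p : ℕ) (hp : p.Prime) [CharP k p]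
    (h : Ctx0 k v) (M : IntermediateField k Ω) (hM : hen v M = M)
    (hfull : ∀ g : Ω, g ≠ 0 → ∃ c ∈ M, c ≠ 0 ∧ v c = v g)
    (Q : IntermediateField k Ω → Prop) (h0 : Q M)
    (hstep : ∀ (M' : IntermediateField k Ω) (η : Ω), M ≤ M' → hen v M' = M' → Q M' →
      η ^ p - η ∈ M' → η ∉ M' → Q (adj M' η))
    (S : Finset Ω) (hS : ∀ s ∈ S, IsSeparable M s) :
    Q (M ⊔ IntermediateField.adjoin k (S : Set Ω)) := by
  obtain ⟨N, hN1, hN2, hN3⟩ := exists_galois M S hS
  set K : IntermediateField k Ω := M ⊔ IntermediateField.adjoin k (S : Set Ω) with hK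
  have hKN : ∀ g ∈ K, g ∈ N := by
    have : K ≤ N.restrictScalars k := by
      rw [hK]
      refine sup_le ?_ ?_
      · intro g hg
        exact N.algebraMap_mem ⟨g, hg⟩
      · rw [IntermediateField.adjoin_le_iff]
        exact fun g hg => hN3 g hg
    exact fun g hg => this hg
  obtain ⟨H, hH⟩ := exists_fixO_eq M N K le_sup_left hKN
  rw [← hH]
  refine LU1.GT.down (D := ⊤) (q := fun ℓ => ℓ = p) (P := fun A => Q (fixO M N A)) ?_
    (LU1.GT.chain_p p hp ⊤ ⊤ le_rfl (fun x _ => pgroup p hp h M hM hfull N x) H le_top) ?_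
  · rintro X Y ⟨hXY, -, hn, ℓ, hl, hlp, hi⟩ hY
    subst hlp
    obtain ⟨η, h1, h2, h3⟩ := as_gen ℓ hl M N X Y hXY hn hi
    rw [h3]
    refine hstep _ η ?_ ?_ hY h1 h2
    · intro x hx
      exact (mem_fixO M N Y x).2 ⟨algebraMap M N ⟨x, hx⟩, rfl, fun σ _ => σ.commutes _⟩
    · obtain ⟨S', hS', h4⟩ := fixO_eq_sup M N Y
      rw [h4]
      exact hen_sup h hM S' hS'
  · show Q (fixO M N ⊤)
    rw [fixO_top]
    exact h0

end Pool.Agent.D2P
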